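import Pool.Agent.Work.MP_46fa68_76.EndH4

/-! # the diagonal `m = 11` from two tables, `(21, 10)` and `(19, 8)` (helper76) -/

set_option autoImplicit false

open Finset Equiv

namespace Pool.EG

/-- `m = 11`, levels 0 and 2 -/
theorem holds21_of' (hG0 : Gap 21 10 1 (3479 / 10000) (8657 / 10000))
    (hG2 : Gap 19 8 (731 / 1000) (1549 / 10000) (8323 / 10000))
    (hLink : Link 10) (hK : ∀ n' t' : ℕ, 2 * t' + 3 ≤ n' → Holds n' t') : Holds 21 10 := by
  have h2 : Gap (2 * 10 - 1) (10 - 2) (2 * (8657 / 10000) - 1) (1549 / 10000) (8323 / 10000) :=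
    hG2.mono (by norm_num) le_rfl le_rfl
  have hs : Gap (2 * 10 - 1) (10 - 2) (879 / 1000) (1549 / 10000) (8323 / 10000) :=
    hG2.mono (by norm_num) le_rfl le_rfl
  exact holds_of_gaps (t := 10) (β0 := 3479 / 10000) (p0 := 8657 / 10000) (β2 := 1549 / 10000)
    (p2 := 8323 / 10000) (θs := 879 / 1000) (βs := 1549 / 10000) (ps := 8323 / 10000)
    (by constructor <;> (try unfold phi) <;> norm_num) (by norm_num) (by norm_num) hG0 h2 hs
    (yAny_top (by norm_num) (by unfold YTop; norm_num)) hLink hK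

end Pool.EG
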