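import Pool.Agent.Work.MP_46fa68_76.Std2
import Pool.Agent.Work.MP_46fa68_17.Small11

/-!
# MP_46fa68_co: Q1 for `(n, t) = (11, 5)`

helper76, from the tables of helper17.
-/

set_option autoImplicit false

open Finset Equiv Pool.Col46

namespace Pool.JM.R4

/-- Q1 for `(11, 5)` -/
theorem holds11 : Holds 11 5 := by
  refine frame (m := 6) (by norm_num) ?_ (by norm_num)
  intro A hA' σ0 h0 τ0 h1 hmin hge hle
  have hag := ag_add_support σ0 τ0
  have hsum := Perm.sum_cycleType (σ0⁻¹ * τ0)
  have h2 := ct_two (σ0⁻¹ * τ0)
  have h720 : Nat.factorial 6 = 720 := rfl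
  have small : ∀ {d : ℕ} {rho : Perm (Fin 11)} {B : ℕ}, ag σ0 τ0 = d →
      (∀ A : Finset (Perm (Fin 11)), Fam 11 d rho A → A.card ≤ B) → B < 720 →
      (σ0⁻¹ * τ0).cycleType = rho.cycleType →
      A.card ≤ Nat.factorial 6 ∧ (A.card = Nat.factorial 6 →
        ∃ a b : Fin 5 → Fin 11, Function.Injective a ∧ Function.Injective b ∧
          A = univ.filter (fun σ : Equiv.Perm (Fin 11) => ∀ k : Fin 5, σ (a k) = b k)) := by
    intro d rho B hd hT hB hc
    have h := card_le_of hT (fun σ hσ τ hτ => hd ▸ hmin σ hσ τ hτ) h0 h1 hc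
    rw [h720]
    exact ⟨by omega, fun h' => by omega⟩
  obtain ⟨d, hd⟩ : ∃ d, (σ0⁻¹ * τ0).support.card = d := ⟨_, rfl⟩
  rw [hd] at hag hge hle
  rw [hd] at hsum
  interval_cases d
  · -- 2
    have hct : (σ0⁻¹ * τ0).cycleType = (List.formPerm ([0, 1] : List (Fin 11))).cycleType := by
      rw [ms2 h2 hsum]
      exact (ct_cycle (n := 11) (l := [0, 1]) (by decide) (by decide)).symm
    exact small (by omega) D11_2.res (by norm_num) hct
  · -- 3
    have hct : (σ0⁻¹ * τ0).cycleType = (List.formPerm ([0, 1, 2] : List (Fin 11))).cycleType := by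
      rw [ms3 h2 hsum]
      exact (ct_cycle (n := 11) (l := [0, 1, 2]) (by decide) (by decide)).symm
    exact small (by omega) D11_3.res (by norm_num) hct
  · -- 4
    rcases ms4 h2 hsum with hc | hc
    · have hct : (σ0⁻¹ * τ0).cycleType =
          (List.formPerm ([0, 1, 2, 3] : List (Fin 11))).cycleType := by
        rw [hc]
        exact (ct_cycle (n := 11) (l := [0, 1, 2, 3]) (by decide) (by decide)).symm
      exact small (by omega) D11_4a.res (by norm_num) hct
    · have hct : (σ0⁻¹ * τ0).cycleType =
          (List.formPerm ([0, 1] : List (Fin 11)) * List.formPerm [2, 3]).cycleType := by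
        rw [hc]
        exact (ct_two_cycles (n := 11) (l := [0, 1]) (l' := [2, 3]) (by decide) (by decide)
          (by decide) (by decide) (by decide)).symm
      exact small (by omega) D11_4b.res (by norm_num) hct
  · -- 5
    rcases ms5 h2 hsum with hc | hc
    · have hct : (σ0⁻¹ * τ0).cycleType =
          (List.formPerm ([0, 1, 2, 3, 4] : List (Fin 11))).cycleType := by
        rw [hc]
        exact (ct_cycle (n := 11) (l := [0, 1, 2, 3, 4]) (by decide) (by decide)).symm
      exact small (by omega) D11_5a.res (by norm_num) hct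
    · have hct : (σ0⁻¹ * τ0).cycleType =
          (List.formPerm ([0, 1] : List (Fin 11)) * List.formPerm [2, 3, 4]).cycleType := by
        rw [hc]
        exact (ct_two_cycles (n := 11) (l := [0, 1]) (l' := [2, 3, 4]) (by decide) (by decide)
          (by decide) (by decide) (by decide)).symm
      exact small (by omega) D11_5b.res (by norm_num) hct
  · -- 6
    have hs : (σ0⁻¹ * τ0).support.card = 6 := hd
    have hA2 : ∀ σ ∈ A, ∀ τ ∈ A, 11 - 6 ≤ ag σ τ := hA'
    rcases ms6 h2 hsum with hc | hc | hc | hc
    · have hct : (σ0⁻¹ * τ0).cycleType =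
          (List.formPerm ([0, 1, 2, 3, 4, 5] : List (Fin 11))).cycleType := by
        rw [hc]
        exact (ct_cycle (n := 11) (l := [0, 1, 2, 3, 4, 5]) (by decide) (by decide)).symm
      exact star_of_tab (m := 6) (by norm_num) T11a.res hA2 h0 h1 hs hct
    · have hct : (σ0⁻¹ * τ0).cycleType =
          (List.formPerm ([0, 1] : List (Fin 11)) * List.formPerm [2, 3, 4, 5]).cycleType := by
        rw [hc]
        exact (ct_two_cycles (n := 11) (l := [0, 1]) (l' := [2, 3, 4, 5]) (by decide) (by decide)
          (by decide) (by decide) (by decide)).symm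
      exact star_of_tab (m := 6) (by norm_num) T11b.res hA2 h0 h1 hs hct
    · have hct : (σ0⁻¹ * τ0).cycleType =
          (List.formPerm ([0, 1, 2] : List (Fin 11)) * List.formPerm [3, 4, 5]).cycleType := by
        rw [hc]
        exact (ct_two_cycles (n := 11) (l := [0, 1, 2]) (l' := [3, 4, 5]) (by decide) (by decide)
          (by decide) (by decide) (by decide)).symm
      exact star_of_tab (m := 6) (by norm_num) T11c.res hA2 h0 h1 hs hct
    · have hct : (σ0⁻¹ * τ0).cycleType =
          (List.formPerm ([0, 1] : List (Fin 11)) * List.formPerm [2, 3] *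
            List.formPerm [4, 5]).cycleType := by
        rw [hc]
        exact (ct_three_cycles (n := 11) (l := [0, 1]) (l' := [2, 3]) (l'' := [4, 5]) (by decide)
          (by decide) (by decide) (by decide) (by decide) (by decide) (by decide) (by decide)
          (by decide)).symm
      exact star_of_tab (m := 6) (by norm_num) T11d.res hA2 h0 h1 hs hct

end Pool.JM.R4
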