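import Pool.Agent.Work.MP_46fa68_76.Std2
import Pool.Agent.Work.MP_46fa68_17.Small5

/-!
# MP_46fa68_co: Q1 for `(n, t) = (3, 1)` and `(5, 2)`

helper76, from the tables of helper17.
-/

set_option autoImplicit false

open Finset Equiv Pool.Col46

namespace Pool.JM.R4

/-- Q1 for `(3, 1)` -/
theorem holds3 : Holds 3 1 := by
  refine frame (m := 2) (by norm_num) ?_ (by norm_num)
  intro A hA' σ0 h0 τ0 h1 hmin hge hle
  have hsum := Perm.sum_cycleType (σ0⁻¹ * τ0)
  have h2 := ct_two (σ0⁻¹ * τ0)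
  have hs : (σ0⁻¹ * τ0).support.card = 2 := by omega
  have hA2 : ∀ σ ∈ A, ∀ τ ∈ A, 3 - 2 ≤ ag σ τ := hA'
  have hct : (σ0⁻¹ * τ0).cycleType = (List.formPerm ([0, 1] : List (Fin 3))).cycleType := by
    rw [ms2 h2 (by rw [hsum]; exact hs)]
    exact (ct_cycle (n := 3) (l := [0, 1]) (by decide) (by decide)).symm
  exact star_of_tab (m := 2) (by norm_num) T3.res hA2 h0 h1 hs hct

/-- Q1 for `(5, 2)` -/
theorem holds5 : Holds 5 2 := by
  refine frame (m := 3) (by norm_num) ?_ (by norm_num)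
  intro A hA' σ0 h0 τ0 h1 hmin hge hle
  have hag := ag_add_support σ0 τ0
  have hsum := Perm.sum_cycleType (σ0⁻¹ * τ0)
  have h2 := ct_two (σ0⁻¹ * τ0)
  rcases Nat.lt_or_ge (σ0⁻¹ * τ0).support.card 3 with hlt | hge3
  · have hs : (σ0⁻¹ * τ0).support.card = 2 := by omega
    have hag3 : ag σ0 τ0 = 3 := by omega
    have hct : (σ0⁻¹ * τ0).cycleType = D5_2.rho.cycleType := by
      rw [ms2 h2 (by rw [hsum]; exact hs)]
      exact (ct_cycle (n := 5) (l := [0, 1]) (by decide) (by decide)).symm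
    have h := card_le_of D5_2.res (fun σ hσ τ hτ => hag3 ▸ hmin σ hσ τ hτ) h0 h1 hct
    have h6 : Nat.factorial 3 = 6 := rfl
    rw [h6]
    exact ⟨by omega, fun h' => by omega⟩
  · have hs : (σ0⁻¹ * τ0).support.card = 3 := by omega
    have hA2 : ∀ σ ∈ A, ∀ τ ∈ A, 5 - 3 ≤ ag σ τ := hA'
    have hct : (σ0⁻¹ * τ0).cycleType = (List.formPerm ([0, 1, 2] : List (Fin 5))).cycleType := by
      rw [ms3 h2 (by rw [hsum]; exact hs)]
      exact (ct_cycle (n := 5) (l := [0, 1, 2]) (by decide) (by decide)).symm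
    exact star_of_tab (m := 3) (by norm_num) T5.res hA2 h0 h1 hs hct

end Pool.JM.R4
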