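import Pool.Agent.Work.MP_46fa68_76.Std
import Pool.Agent.Work.MP_46fa68_17.T7a
import Pool.Agent.Work.MP_46fa68_17.T7b
import Pool.Agent.Work.MP_46fa68_17.T9a
import Pool.Agent.Work.MP_46fa68_17.T9b
import Pool.Agent.Work.MP_46fa68_17.Small7
import Pool.Agent.Work.MP_46fa68_17.Small9

/-!
# MP_46fa68_co: Q1 for `(n, t) = (7, 3)` and `(9, 4)`

helper76, from the tables of helper17.
-/

set_option autoImplicit false

open Finset Equiv Pool.Col46

namespace Pool.JM.R4

/-- Q1 for `(7, 3)` -/
theorem holds7 : Holds 7 3 := by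
  intro A hA
  have hA' : ∀ σ ∈ A, ∀ τ ∈ A, 3 ≤ ag σ τ := hA
  rcases A.eq_empty_or_nonempty with h0 | hne
  · subst h0
    refine ⟨by simp, fun h => ?_⟩
    simp at h
    exact absurd h.symm (Nat.factorial_ne_zero _)
  obtain ⟨σ0, h0, τ0, h1, hmin⟩ := exists_min hne
  have hag := ag_add_support σ0 τ0
  have h3 := hA' σ0 h0 τ0 h1
  have hd : (σ0⁻¹ * τ0).support.card ≤ 4 := by omega
  have hsum := Perm.sum_cycleType (σ0⁻¹ * τ0)
  have h2 := ct_two (σ0⁻¹ * τ0)
  have small : A.card ≤ 7 → A.card ≤ (7 - 3).factorial ∧ (A.card = (7 - 3).factorial →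
        ∃ a b : Fin 3 → Fin 7, Function.Injective a ∧ Function.Injective b ∧
          A = univ.filter (fun σ : Equiv.Perm (Fin 7) => ∀ k : Fin 3, σ (a k) = b k)) := by
    intro h
    have h24 : (7 - 3).factorial = 24 := rfl
    rw [h24]
    exact ⟨by omega, fun h' => by omega⟩
  rcases Nat.lt_or_ge (σ0⁻¹ * τ0).support.card 4 with hlt | hge
  · apply small
    rcases Nat.lt_or_ge (σ0⁻¹ * τ0).support.card 3 with hlt3 | hge3
    · rcases Nat.lt_or_ge (σ0⁻¹ * τ0).support.card 2 with hlt2 | hge2
      · have hag7 : 7 ≤ ag σ0 τ0 := by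
          rcases Nat.lt_or_ge (σ0⁻¹ * τ0).support.card 1 with h | h
          · omega
          · exact (ms1 h2 (by rw [hsum]; omega)).elim
        have : A ⊆ {σ0} := by
          intro σ hσ
          rw [mem_singleton]
          exact ag_eq_n _ _ (le_trans hag7 (hmin σ hσ σ0 h0))
        exact (card_le_card this).trans (by simp)
      · have hag5 : ag σ0 τ0 = 5 := by omega
        have hct : (σ0⁻¹ * τ0).cycleType = D7_2.rho.cycleType := by
          rw [ms2 h2 (by rw [hsum]; omega)]
          exact (ct_cycle (n := 7) (l := [0, 1]) (by decide) (by decide)).symm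
        exact (card_le_of D7_2.res (fun σ hσ τ hτ => hag5 ▸ hmin σ hσ τ hτ) h0 h1 hct).trans
          (by norm_num)
    · have hag4 : ag σ0 τ0 = 4 := by omega
      have hct : (σ0⁻¹ * τ0).cycleType = D7_3.rho.cycleType := by
        rw [ms3 h2 (by rw [hsum]; omega)]
        exact (ct_cycle (n := 7) (l := [0, 1, 2]) (by decide) (by decide)).symm
      exact card_le_of D7_3.res (fun σ hσ τ hτ => hag4 ▸ hmin σ hσ τ hτ) h0 h1 hct
  · have hs : (σ0⁻¹ * τ0).support.card = 4 := by omega
    have hA2 : ∀ σ ∈ A, ∀ τ ∈ A, 7 - 4 ≤ ag σ τ := hA'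
    rcases ms4 h2 (by rw [hsum]; exact hs) with hc | hc
    · have hct : (σ0⁻¹ * τ0).cycleType = T7a.rho.cycleType := by
        rw [hc]
        exact (ct_cycle (n := 7) (l := [0, 1, 2, 3]) (by decide) (by decide)).symm
      exact star_of_tab (m := 4) (by norm_num) T7a.res hA2 h0 h1 hs hct
    · have hct : (σ0⁻¹ * τ0).cycleType = T7b.rho.cycleType := by
        rw [hc]
        exact (ct_two_cycles (n := 7) (l := [0, 1]) (l' := [2, 3]) (by decide) (by decide)
          (by decide) (by decide) (by decide)).symm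
      exact star_of_tab (m := 4) (by norm_num) T7b.res hA2 h0 h1 hs hct

/-- Q1 for `(9, 4)` -/
theorem holds9 : Holds 9 4 := by
  intro A hA
  have hA' : ∀ σ ∈ A, ∀ τ ∈ A, 4 ≤ ag σ τ := hA
  rcases A.eq_empty_or_nonempty with h0 | hne
  · subst h0
    refine ⟨by simp, fun h => ?_⟩
    simp at h
    exact absurd h.symm (Nat.factorial_ne_zero _)
  obtain ⟨σ0, h0, τ0, h1, hmin⟩ := exists_min hne
  have hag := ag_add_support σ0 τ0
  have h3 := hA' σ0 h0 τ0 h1
  have hd : (σ0⁻¹ * τ0).support.card ≤ 5 := by omega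
  have hsum := Perm.sum_cycleType (σ0⁻¹ * τ0)
  have h2 := ct_two (σ0⁻¹ * τ0)
  have small : A.card ≤ 37 → A.card ≤ (9 - 4).factorial ∧ (A.card = (9 - 4).factorial →
        ∃ a b : Fin 4 → Fin 9, Function.Injective a ∧ Function.Injective b ∧
          A = univ.filter (fun σ : Equiv.Perm (Fin 9) => ∀ k : Fin 4, σ (a k) = b k)) := by
    intro h
    have h24 : (9 - 4).factorial = 120 := rfl
    rw [h24]
    exact ⟨by omega, fun h' => by omega⟩
  rcases Nat.lt_or_ge (σ0⁻¹ * τ0).support.card 5 with hlt | hge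
  · apply small
    rcases Nat.lt_or_ge (σ0⁻¹ * τ0).support.card 4 with hlt4 | hge4
    · rcases Nat.lt_or_ge (σ0⁻¹ * τ0).support.card 3 with hlt3 | hge3
      · rcases Nat.lt_or_ge (σ0⁻¹ * τ0).support.card 2 with hlt2 | hge2
        · have hag7 : 9 ≤ ag σ0 τ0 := by
            rcases Nat.lt_or_ge (σ0⁻¹ * τ0).support.card 1 with h | h
            · omega
            · exact (ms1 h2 (by rw [hsum]; omega)).elim
          have : A ⊆ {σ0} := by
            intro σ hσ
            rw [mem_singleton]
            exact ag_eq_n _ _ (le_trans hag7 (hmin σ hσ σ0 h0))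
          exact (card_le_card this).trans (by simp)
        · have hag5 : ag σ0 τ0 = 7 := by omega
          have hct : (σ0⁻¹ * τ0).cycleType = D9_2.rho.cycleType := by
            rw [ms2 h2 (by rw [hsum]; omega)]
            exact (ct_cycle (n := 9) (l := [0, 1]) (by decide) (by decide)).symm
          exact (card_le_of D9_2.res (fun σ hσ τ hτ => hag5 ▸ hmin σ hσ τ hτ) h0 h1 hct).trans
            (by norm_num)
      · have hag4 : ag σ0 τ0 = 6 := by omega
        have hct : (σ0⁻¹ * τ0).cycleType = D9_3.rho.cycleType := by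
          rw [ms3 h2 (by rw [hsum]; omega)]
          exact (ct_cycle (n := 9) (l := [0, 1, 2]) (by decide) (by decide)).symm
        exact (card_le_of D9_3.res (fun σ hσ τ hτ => hag4 ▸ hmin σ hσ τ hτ) h0 h1 hct).trans
          (by norm_num)
    · have hag4 : ag σ0 τ0 = 5 := by omega
      rcases ms4 h2 (by rw [hsum]; omega) with hc | hc
      · have hct : (σ0⁻¹ * τ0).cycleType = D9_4a.rho.cycleType := by
          rw [hc]
          exact (ct_cycle (n := 9) (l := [0, 1, 2, 3]) (by decide) (by decide)).symm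
        exact (card_le_of D9_4a.res (fun σ hσ τ hτ => hag4 ▸ hmin σ hσ τ hτ) h0 h1 hct).trans
          (by norm_num)
      · have hct : (σ0⁻¹ * τ0).cycleType = D9_4b.rho.cycleType := by
          rw [hc]
          exact (ct_two_cycles (n := 9) (l := [0, 1]) (l' := [2, 3]) (by decide) (by decide)
            (by decide) (by decide) (by decide)).symm
        exact card_le_of D9_4b.res (fun σ hσ τ hτ => hag4 ▸ hmin σ hσ τ hτ) h0 h1 hct
  · have hs : (σ0⁻¹ * τ0).support.card = 5 := by omega
    have hA2 : ∀ σ ∈ A, ∀ τ ∈ A, 9 - 5 ≤ ag σ τ := hA'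
    rcases ms5 h2 (by rw [hsum]; exact hs) with hc | hc
    · have hct : (σ0⁻¹ * τ0).cycleType = T9a.rho.cycleType := by
        rw [hc]
        exact (ct_cycle (n := 9) (l := [0, 1, 2, 3, 4]) (by decide) (by decide)).symm
      exact star_of_tab (m := 5) (by norm_num) T9a.res hA2 h0 h1 hs hct
    · have hct : (σ0⁻¹ * τ0).cycleType = T9b.rho.cycleType := by
        rw [hc]
        exact (ct_two_cycles (n := 9) (l := [0, 1]) (l' := [2, 3, 4]) (by decide) (by decide)
          (by decide) (by decide) (by decide)).symm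
      exact star_of_tab (m := 5) (by norm_num) T9b.res hA2 h0 h1 hs hct

end Pool.JM.R4
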