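import Pool.Agent.Work.MP_46fa68_76.EndStmt
import Pool.Agent.Work.MP_46fa68_76.Final35
import Pool.Agent.Work.MP_46fa68_76.Final79
import Pool.Agent.Work.MP_46fa68_76.Final11

/-!
# MP_46fa68_co: the diagonals `m ≤ 6`, without any file of the results folder (helper76)
-/

set_option autoImplicit false

namespace Pool.EG

/-- the diagonals `m ≤ 6` -/
theorem holds_le5' (t : ℕ) (h1 : 1 ≤ t) (h5 : t ≤ 5) : Holds (2 * t + 1) t := by
  interval_cases t
  · exact Pool.JM.R4.holds3
  · exact Pool.JM.R4.holds5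
  · exact Pool.JM.R4.holds7
  · exact Pool.JM.R4.holds9
  · exact Pool.JM.R4.holds11

end Pool.EG
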