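import Pool.Agent.Work.MP_46fa68_76.EndH4
import Pool.Agent.Work.MP_46fa68_40.StepY2

/-! # at most `t + 2` popular cells by helper40's pairs of missed cells (helper76) -/

set_option autoImplicit false

open Finset Equiv

namespace Pool.EG

variable {t : ℕ}

theorem yAny_two {p0 : ℝ} (ht : 3 ≤ t) (hX : Cross1 t) (h : YTop2 t p0) : YAny t p0 :=
  fun A g T hA hF hpop => by
    obtain ⟨ν, h1, h2, h3⟩ := h
    exact step_y2 ht hA hX hF hpop h1 h2 h3

end Pool.EG
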