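import Pool.Agent.Work.MP_46fa68_76.EndH5

/-! # the diagonals `m = 7, 8, 9, 10` from their gaps (helper76)

Levels 0 and 2 only.  The gaps come from the marked certificates (helper62, helper30) or from class functions. -/

set_option autoImplicit false

open Finset Equiv

namespace Pool.EG

/-- `m = 7` -/
theorem holds13_of (hG0 : Gap 13 6 1 (41 / 100) (82 / 100))
    (hG2 : Gap 11 4 (64 / 100) (283 / 1000) (66 / 100))
    (hGs : Gap 11 4 (741 / 1000) (25 / 100) (66 / 100))
    (hLink : Link 6) (hK : ∀ n' t' : ℕ, 2 * t' + 3 ≤ n' → Holds n' t') : Holds 13 6 := by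
  have e : (2 * (82 / 100) - 1 : ℝ) = 64 / 100 := by norm_num
  exact holds_of_gaps (t := 6) (β0 := 41 / 100) (p0 := 82 / 100) (β2 := 283 / 1000)
    (p2 := 66 / 100) (θs := 741 / 1000) (βs := 25 / 100) (ps := 66 / 100)
    (by constructor <;> (try unfold phi) <;> norm_num) (by norm_num) (by norm_num) hG0
    (by rw [e]; exact hG2) hGs (yAny_top (by norm_num) (by unfold YTop; norm_num)) hLink hK

/-- `m = 8` -/
theorem holds15_of (hG0 : Gap 15 7 1 (35 / 100) (838 / 1000))
    (hG2 : Gap 13 5 (676 / 1000) (2495 / 10000) (55 / 100))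
    (hGs : Gap 13 5 (77 / 100) (217 / 1000) (47 / 100))
    (hLink : Link 7) (hK : ∀ n' t' : ℕ, 2 * t' + 3 ≤ n' → Holds n' t') : Holds 15 7 := by
  have e : (2 * (838 / 1000) - 1 : ℝ) = 676 / 1000 := by norm_num
  exact holds_of_gaps (t := 7) (β0 := 35 / 100) (p0 := 838 / 1000) (β2 := 2495 / 10000)
    (p2 := 55 / 100) (θs := 77 / 100) (βs := 217 / 1000) (ps := 47 / 100)
    (by constructor <;> (try unfold phi) <;> norm_num) (by norm_num) (by norm_num) hG0
    (by rw [e]; exact hG2) hGs (yAny_top (by norm_num) (by unfold YTop; norm_num)) hLink hK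

/-- `m = 9` -/
theorem holds17_of (hG0 : Gap 17 8 1 (42 / 100) (8355 / 10000))
    (hG2 : Gap 15 6 (671 / 1000) (2175 / 10000) (64 / 100))
    (hGs : Gap 15 6 (802 / 1000) (192 / 1000) (54 / 100))
    (hLink : Link 8) (hK : ∀ n' t' : ℕ, 2 * t' + 3 ≤ n' → Holds n' t') : Holds 17 8 := by
  have e : (2 * (8355 / 10000) - 1 : ℝ) = 671 / 1000 := by norm_num
  exact holds_of_gaps (t := 8) (β0 := 42 / 100) (p0 := 8355 / 10000) (β2 := 2175 / 10000)
    (p2 := 64 / 100) (θs := 802 / 1000) (βs := 192 / 1000) (ps := 54 / 100)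
    (by constructor <;> (try unfold phi) <;> norm_num) (by norm_num) (by norm_num) hG0
    (by rw [e]; exact hG2) hGs (yAny_top (by norm_num) (by unfold YTop; norm_num)) hLink hK

/-- `m = 9`, with class function tables on level two -/
theorem holds17_of' (hG0 : Gap 17 8 1 (30 / 100) (8325 / 10000))
    (hG2 : Gap 15 6 (665 / 1000) (21 / 100) (46 / 100))
    (hGs : Gap 15 6 (81 / 100) (192 / 1000) (38 / 100))
    (hLink : Link 8) (hK : ∀ n' t' : ℕ, 2 * t' + 3 ≤ n' → Holds n' t') : Holds 17 8 := by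
  have e : (2 * (8325 / 10000) - 1 : ℝ) = 665 / 1000 := by norm_num
  exact holds_of_gaps (t := 8) (β0 := 30 / 100) (p0 := 8325 / 10000) (β2 := 21 / 100)
    (p2 := 46 / 100) (θs := 81 / 100) (βs := 192 / 1000) (ps := 38 / 100)
    (by constructor <;> (try unfold phi) <;> norm_num) (by norm_num) (by norm_num) hG0
    (by rw [e]; exact hG2) hGs (yAny_top (by norm_num) (by unfold YTop; norm_num)) hLink hK

/-- `m = 10`, class functions -/
theorem holds19_of (hG0 : Gap 19 9 1 (25 / 100) (8325 / 10000))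
    (hG2 : Gap 17 7 (665 / 1000) (187 / 1000) (38 / 100))
    (hGs : Gap 17 7 (836 / 1000) (172 / 1000) (31 / 100))
    (hX : Cross1 9)
    (hLink : Link 9) (hK : ∀ n' t' : ℕ, 2 * t' + 3 ≤ n' → Holds n' t') : Holds 19 9 := by
  have e : (2 * (8325 / 10000) - 1 : ℝ) = 665 / 1000 := by norm_num
  exact holds_of_gaps (t := 9) (β0 := 25 / 100) (p0 := 8325 / 10000) (β2 := 187 / 1000)
    (p2 := 38 / 100) (θs := 836 / 1000) (βs := 172 / 1000) (ps := 31 / 100)
    (by constructor <;> (try unfold phi) <;> norm_num) (by norm_num) (by norm_num) hG0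
    (by rw [e]; exact hG2) hGs
    ((yAny_two (by norm_num) hX ytop2_10).mono (by norm_num)) hLink hK

end Pool.EG
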