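import Pool.Agent.Work.MP_46fa68_85.Hold3
import Pool.Agent.Work.MP_46fa68_76.SmallAll
import Pool.Agent.Work.MP_46fa68_fin.M7
import Pool.Agent.Work.MP_46fa68_fin.M8
import Pool.Agent.Work.MP_46fa68_fin.M9
import Pool.Agent.Work.MP_46fa68_fin.M10
import Pool.Agent.Work.MP_46fa68_48t.H11
import Pool.Agent.Work.MP_46fa68_48t.H12
import Pool.Agent.Work.MP_46fa68_48t.H15
import Pool.Agent.Work.MP_46fa68_48t.H19
import Pool.Agent.Work.MP_46fa68_48t.H20
import Pool.Agent.Work.MP_46fa68_18.H22D
import Pool.Agent.Work.MP_46fa68_36.HoldsA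
import Pool.Agent.Work.MP_46fa68_36.HoldsP
import Pool.Agent.Work.MP_46fa68_fin.MLarge

/-!
# MP_46fa68_co: the question for all `n > 2 t` from the diagonals which are still missing (helper76)
-/

set_option autoImplicit false

open Finset Equiv

namespace Pool.EG

/-- bound and uniqueness for all `n ≥ 2 t + 3` -/
theorem hKall : ∀ n' t' : ℕ, 2 * t' + 3 ≤ n' → Holds n' t' := fun n t h => hold3 n t h

/-- the diagonals `m = 7, 8, 9, 10` (marked certificates) -/
theorem holds_marks (t : ℕ) (h1 : 6 ≤ t) (h2 : t ≤ 9) : Holds (2 * t + 1) t := by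
  interval_cases t
  · exact holds_m7 hKall
  · exact holds_m8 hKall
  · exact holds_m9 hKall
  · exact holds_m10 hKall

/-- the diagonals `m = 11, …, 20` (tables of helper12, checked by helper48) -/
theorem holds_mid (t : ℕ) (h1 : 10 ≤ t) (h2 : t ≤ 19) : Holds (2 * t + 1) t := by
  interval_cases t
  · exact Pool.JM.Tab.holds_21 hKall
  · exact Pool.JM.Tab.holds_23 hKall
  · exact Pool.JM.Tab.holds_25 hKall
  · exact Pool.JM.Tab.holds_27 hKall
  · exact Pool.JM.Tab.holds_29 hKall
  · exact Pool.JM.Tab.holds_31 hKall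
  · exact Pool.JM.Tab.holds_33 hKall
  · exact Pool.JM.Tab.holds_35 hKall
  · exact Pool.JM.Tab.holds_37 hKall
  · exact Pool.JM.Tab.holds_39 hKall

/-- the diagonals `m ≥ 22` (one-bead functions) -/
theorem holds_big (t : ℕ) (h1 : 21 ≤ t) : Holds (2 * t + 1) t := by
  rcases Nat.lt_or_ge t 26 with h | h
  · interval_cases t
    · exact Pool.EGD.holds_m22 hKall
    · exact Pool.EGA.holds_22 hKall
    · exact Pool.EGP.holds_23 hKall
    · exact Pool.EGP.holds_24 hKall
    · exact Pool.EGP.holds_25 hKall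
  · exact fin_large_of hKall t h

/-- **the question for all `n > 2 t`** from the missing diagonals -/
theorem frozen_of_rest (h20 : Holds 41 20) :
    ∀ n t : ℕ, 2 * t < n →
      ∀ F : Finset (Perm (Fin n)),
        ((∀ σ ∈ F, ∀ τ ∈ F, t ≤ (univ.filter (fun i : Fin n => σ i = τ i)).card) ∧
          (∀ G : Finset (Perm (Fin n)),
            (∀ σ ∈ G, ∀ τ ∈ G, t ≤ (univ.filter (fun i : Fin n => σ i = τ i)).card) →
              G.card ≤ F.card)) ↔
        ∃ a b : Fin t → Fin n, Function.Injective a ∧ Function.Injective b ∧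
          F = univ.filter (fun σ : Perm (Fin n) => ∀ k : Fin t, σ (a k) = b k) := by
  refine frozen_of_diag fun t ht => ?_
  rcases Nat.lt_or_ge t 6 with h | h
  · exact holds_le5' t ht (by omega)
  rcases Nat.lt_or_ge t 10 with h' | h'
  · exact holds_marks t h (by omega)
  rcases Nat.lt_or_ge t 20 with h'' | h''
  · exact holds_mid t h' (by omega)
  rcases Nat.lt_or_ge t 21 with h3 | h3
  · interval_cases t
    exact h20
  · exact holds_big t h3

end Pool.EG
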