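import Mathlib

/-!
# MP_46fa68_co: the endgame for `n = 2 t + 1`, from density gaps (helper76, after helper99's note 2119)

`F = (t+1)!`, `A` is `t`-intersecting in `S_n`, `n = 2 t + 1`, `|A| ≥ F`.  A cell `(x, y)` is popular if
`|A_(x,y)| ≥ p0 |A|`; by `Gap` all other cells have `|A_(x,y)| ≤ β0 |A|`.

(a) energy: `t |A|² ≤ Σ |A_c|² ≤ β0 n |A|² + y (1 - β0) |A|²`, so there are `y ≥ 2` popular cells.
(b) if `s ∈ A` misses the popular cell `c`: every member of `A_c` has at least `t` agreements with `s`, all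
off the row and the column of `c` (`n - 2` cells of `s`); with the gap in `(n-1, t-1)` at least `t - 1` of these
cells have density `≥ p1` in `A_c`, so density `≥ p0 p1 > β0` in `A`: `y ≥ t`.
(c) no member misses two popular cells `c, c'`: `X = A_(c,c')`, `|X| ≥ (2 p0 - 1) |A|`, gap in `(n-2, t-2)`, `H` =
the cells of `s` with density `≥ p2` in `X`, `h = |H| ≥ t - 1`; for `σ ∈ X` let `j` = number of missed cells of `H`,
`u` = number of other hits with `s`, `u ≥ t - h + j`.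
`h = t - 1`: `Σ u ≤ β2 t |X|` and `Σ u ≥ 2 |X| - t!`; `h = t`: `Σ u ≤ β2 (t-1) |X|` and
`Σ u ≥ 2 |X| - 2 (t-1)! - t (t-1) (t-1)!/2`; `h ≥ t + 1` (take `t + 1` of them): `Σ j ≤ (t+1)(1-p2)|X|`,
`Σ j ≥ 2 |X| - 2 (t-2)! - (t+1) (t-1)!`.
(d) so every member misses at most one popular cell; `y ≥ t + 1`: `Link`.  Nobody misses: `A` in a star of
`y ≥ 2` cells and the theorem for `n ≥ 2 t + 3`.
(e) `y = t` and `s` misses `c`: `A_0` = members containing all popular cells; `|A_0| ≥ (2 - β1 t) |A_c|` as in (b);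
`|A_0| ≤ F (4t+1)/(6(t+1))` (must hit `s` in one of `t` cells, Bonferroni); for each popular `c'` the members missing
exactly `c'` are at most `b F` by `Edge`.
-/

set_option autoImplicit false

open Finset Equiv

namespace Pool.EG

variable {n : ℕ}

/-- number of agreements -/
def ag (σ τ : Perm (Fin n)) : ℕ := (univ.filter (fun i : Fin n => σ i = τ i)).card

/-- `t`-intersecting -/
def TInt (t : ℕ) (A : Finset (Perm (Fin n))) : Prop := ∀ σ ∈ A, ∀ τ ∈ A, t ≤ ag σ τ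

/-- the members through the cell `(x, y)` -/
def thr (A : Finset (Perm (Fin n))) (x y : Fin n) : Finset (Perm (Fin n)) :=
  A.filter (fun σ => σ x = y)

/-- Q1 for one pair -/
def Holds (n t : ℕ) : Prop :=
  ∀ A : Finset (Perm (Fin n)),
    (∀ σ ∈ A, ∀ τ ∈ A, t ≤ (univ.filter (fun i : Fin n => σ i = τ i)).card) →
    A.card ≤ (n - t).factorial ∧
      (A.card = (n - t).factorial →
        ∃ a b : Fin t → Fin n, Function.Injective a ∧ Function.Injective b ∧
          A = univ.filter (fun σ : Perm (Fin n) => ∀ k : Fin t, σ (a k) = b k))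

/-- density gap at `(n, t)` for families with at least `θ (n-t)!` members -/
def Gap (n t : ℕ) (θ β p : ℝ) : Prop :=
  ∀ A : Finset (Perm (Fin n)), TInt t A → θ * ((n - t).factorial : ℝ) ≤ (A.card : ℝ) →
    ∀ x y : Fin n, ((thr A x y).card : ℝ) ≤ β * A.card ∨ p * A.card ≤ ((thr A x y).card : ℝ)

/-- the members off a cell with many members through it, intersecting families of `N` points -/
def Edge (N : ℕ) (a b : ℝ) : Prop :=
  ∀ A : Finset (Perm (Fin N)), TInt 1 A → ∀ x y : Fin N,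
    a * ((N - 1).factorial : ℝ) ≤ ((thr A x y).card : ℝ) →
      ((A.filter (fun σ => σ x ≠ y)).card : ℝ) ≤ b * ((N - 1).factorial : ℝ)

/-- helper99's link lemma with uniqueness -/
def Link (t : ℕ) : Prop :=
  ∀ (A : Finset (Perm (Fin (2 * t + 1)))) (g : Perm (Fin (2 * t + 1))) (T : Finset (Fin (2 * t + 1))),
    T.card = t + 1 → TInt t A → (∀ σ ∈ A, t ≤ (T.filter (fun i => σ i = g i)).card) →
    A.card ≤ (t + 1).factorial ∧
      (A.card = (t + 1).factorial → ∃ x ∈ T, ∀ σ ∈ A, ∀ i ∈ T.erase x, σ i = g i)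

/-- the inequalities -/
structure Num (t : ℕ) (β0 p0 β1 p1 β2 p2 b : ℝ) : Prop where
  ht : 3 ≤ t
  hb0 : 0 ≤ β0
  hb1 : 0 ≤ β1
  hb2 : 0 ≤ β2
  hb : 0 ≤ b
  hp0 : 1 / 2 < p0
  hp1 : p0 ≤ 1
  ha : β0 * (2 * t) < t - 1
  hB1 : β1 * (t + 1) < 2
  hB2 : β0 < p0 * p1
  hC1 : β2 * (t + 1) < 2
  hC2 : 1 < (2 - β2 * t) * (2 * p0 - 1) * (t + 1)
  hC3 : 2 + (t : ℝ) * (t - 1) / 2 < (2 - β2 * (t - 1)) * (2 * p0 - 1) * (t * (t + 1))
  hC4 : 2 + ((t : ℝ) + 1) * (t - 1) <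
    (2 - (t + 1) * (1 - p2)) * (2 * p0 - 1) * ((t + 1) * t * (t - 1))
  hE : (4 * (t : ℝ) + 1) / (6 * (t + 1)) + t * b < 1

/-- the endgame -/
def Endgame : Prop :=
  ∀ (t : ℕ) (β0 p0 β1 p1 β2 p2 b : ℝ), Num t β0 p0 β1 p1 β2 p2 b →
    Gap (2 * t + 1) t 1 β0 p0 → Gap (2 * t) (t - 1) p0 β1 p1 →
    Gap (2 * t - 1) (t - 2) (2 * p0 - 1) β2 p2 →
    Edge (t + 2) ((2 - β1 * t) * p0) b → Link t →
    (∀ n' t' : ℕ, 2 * t' + 3 ≤ n' → Holds n' t') → Holds (2 * t + 1) t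

end Pool.EG
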