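import Pool.Agent.Work.MP_46fa68_76.EndStmt

/-! # endgame: removing common cells, and counting (helper76) -/

set_option autoImplicit false

open Finset Equiv

namespace Pool.EG

variable {n : ℕ}

theorem ap_inv (g : Perm (Fin n)) (x : Fin n) : g (g⁻¹ x) = x := g.apply_symm_apply x

/-- removing the rows of `T` from the star of `g` on `T` -/
theorem exists_red (g : Perm (Fin n)) (T : Finset (Fin n)) {k : ℕ} (hk : T.card = k) :
    ∃ (φ : Perm (Fin (n - k)) → Perm (Fin n)) (r : Fin (n - k) → Fin n),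
      Function.Injective φ ∧ Function.Injective r ∧ (∀ i, r i ∉ T) ∧ (∀ x, x ∉ T → ∃ i, r i = x) ∧
      (∀ ρ, ∀ i ∈ T, φ ρ i = g i) ∧ (∀ ρ i, φ ρ (r i) = g (r (ρ i))) ∧
      (∀ σ : Perm (Fin n), (∀ i ∈ T, σ i = g i) → ∃ ρ, φ ρ = σ) := by
  classical
  have hc : Fintype.card (Fin (n - k)) = Fintype.card {i : Fin n // i ∉ T} := by
    rw [Fintype.card_fin, Fintype.card_subtype_compl, Fintype.card_fin, Fintype.card_coe, hk]
  let e : Fin (n - k) ≃ {i : Fin n // i ∉ T} := Fintype.equivOfCardEq hc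
  have hφ1 : ∀ (ρ : Perm (Fin (n - k))) (i : Fin n), i ∈ T → (g * ρ.extendDomain e) i = g i := by
    intro ρ i hi
    rw [Perm.mul_apply, Perm.extendDomain_apply_not_subtype ρ e (not_not.2 hi)]
  have hφ2 : ∀ (ρ : Perm (Fin (n - k))) (i : Fin (n - k)),
      (g * ρ.extendDomain e) (e i : Fin n) = g (e (ρ i) : Fin n) := by
    intro ρ i
    rw [Perm.mul_apply, Perm.extendDomain_apply_image]
  have hr : Function.Injective (fun i => (e i : Fin n)) :=
    Subtype.val_injective.comp e.injective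
  have hr2 : ∀ x, x ∉ T → ∃ i, (e i : Fin n) = x := by
    intro x hx
    exact ⟨e.symm ⟨x, hx⟩, by rw [Equiv.apply_symm_apply]⟩
  refine ⟨fun ρ => g * ρ.extendDomain e, fun i => (e i : Fin n), ?_, hr, fun i => (e i).2, hr2,
    fun ρ i hi => hφ1 ρ i hi, fun ρ i => hφ2 ρ i, ?_⟩
  · intro ρ τ h
    ext i
    have h1 : (g * ρ.extendDomain e) (e i : Fin n) = (g * τ.extendDomain e) (e i : Fin n) := by
      have h0 : g * ρ.extendDomain e = g * τ.extendDomain e := h
      rw [h0]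
    rw [hφ2, hφ2] at h1
    exact congrArg Fin.val (hr (g.injective h1))
  · intro σ hσ
    have hstab : ∀ x, x ∉ T → g⁻¹ (σ x) ∉ T := by
      intro x hx hmem
      have h1 := hσ _ hmem
      rw [ap_inv] at h1
      have h2 := σ.injective h1
      rw [h2] at hmem
      exact hx hmem
    let f : Fin (n - k) → Fin (n - k) := fun i => e.symm ⟨g⁻¹ (σ (e i)), hstab _ (e i).2⟩
    have hf : ∀ i, ((e (f i) : {i : Fin n // i ∉ T}) : Fin n) = g⁻¹ (σ (e i)) := by
      intro i
      change ((e (e.symm ⟨g⁻¹ (σ (e i)), hstab _ (e i).2⟩) : {i : Fin n // i ∉ T}) : Fin n) = _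
      rw [Equiv.apply_symm_apply]
    have hfi : Function.Injective f := by
      intro i j hij
      have h1 : g⁻¹ (σ (e i)) = g⁻¹ (σ (e j)) := by rw [← hf i, ← hf j, hij]
      exact hr (σ.injective ((g⁻¹).injective h1))
    let F : Perm (Fin (n - k)) := Equiv.ofBijective f (Finite.injective_iff_bijective.1 hfi)
    refine ⟨F, ?_⟩
    apply Equiv.ext
    intro x
    by_cases hx : x ∈ T
    · rw [hσ x hx]
      exact hφ1 _ x hx
    · obtain ⟨i, rfl⟩ := hr2 x hx
      change (g * F.extendDomain e) (e i : Fin n) = σ (e i : Fin n)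
      rw [hφ2]
      change g ((e (f i) : {i : Fin n // i ∉ T}) : Fin n) = σ (e i : Fin n)
      rw [hf i, ap_inv]

/-- agreements after removing `k` common rows -/
theorem ag_red {g : Perm (Fin n)} {T : Finset (Fin n)} {k : ℕ} (hk : T.card = k)
    {φ : Perm (Fin (n - k)) → Perm (Fin n)} {r : Fin (n - k) → Fin n}
    (hr : Function.Injective r) (hrT : ∀ i, r i ∉ T) (hrs : ∀ x, x ∉ T → ∃ i, r i = x)
    (h1 : ∀ ρ, ∀ i ∈ T, φ ρ i = g i) (h2 : ∀ ρ i, φ ρ (r i) = g (r (ρ i)))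
    (ρ τ : Perm (Fin (n - k))) : ag (φ ρ) (φ τ) = ag ρ τ + k := by
  classical
  have h3 : (univ.filter (fun i : Fin n => φ ρ i = φ τ i)) =
      ((univ.filter (fun i : Fin (n - k) => ρ i = τ i)).map ⟨r, hr⟩) ∪ T := by
    ext x
    rw [mem_union, mem_map, mem_filter]
    constructor
    · intro hx
      by_cases hxT : x ∈ T
      · exact Or.inr hxT
      · left
        obtain ⟨i, rfl⟩ := hrs x hxT
        refine ⟨i, mem_filter.2 ⟨mem_univ _, ?_⟩, rfl⟩
        have h4 := hx.2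
        rw [h2, h2] at h4
        exact hr (g.injective h4)
    · rintro (⟨i, hi, rfl⟩ | hx)
      · refine ⟨mem_univ _, ?_⟩
        change φ ρ (r i) = φ τ (r i)
        rw [h2, h2, (mem_filter.1 hi).2]
      · exact ⟨mem_univ _, by rw [h1 ρ x hx, h1 τ x hx]⟩
  have h4 : Disjoint ((univ.filter (fun i : Fin (n - k) => ρ i = τ i)).map ⟨r, hr⟩) T := by
    rw [disjoint_left]
    intro x hx hxT
    rw [mem_map] at hx
    obtain ⟨i, _, rfl⟩ := hx
    exact hrT i hxT
  unfold ag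
  rw [h3, card_union_of_disjoint h4, card_map, hk]

/-- the gap for families in a star -/
theorem gap_star {n' t' : ℕ} {θ β p : ℝ} (hG : Gap n' t' θ β p) (hβ : 0 ≤ β)
    {t k : ℕ} (hn : n' = n - k) (ht : t' = t - k) (hkt : k ≤ t) (htn : t ≤ n)
    {g : Perm (Fin n)} {T : Finset (Fin n)} (hk : T.card = k) {A : Finset (Perm (Fin n))}
    (hA : TInt t A) (hT : ∀ σ ∈ A, ∀ i ∈ T, σ i = g i)
    (hc : θ * ((n - t).factorial : ℝ) ≤ (A.card : ℝ)) (x y : Fin n) (hx : x ∉ T) :
    ((thr A x y).card : ℝ) ≤ β * A.card ∨ p * A.card ≤ ((thr A x y).card : ℝ) := by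
  classical
  subst hn ht
  obtain ⟨φ, r, hφ, hr, hrT, hrs, h1, h2, h3⟩ := exists_red g T hk
  set A' : Finset (Perm (Fin (n - k))) := univ.filter (fun ρ => φ ρ ∈ A) with hA'
  have hAA : A = A'.map ⟨φ, hφ⟩ := by
    ext σ
    rw [mem_map]
    constructor
    · intro hσ
      obtain ⟨ρ, rfl⟩ := h3 σ (hT σ hσ)
      exact ⟨ρ, mem_filter.2 ⟨mem_univ _, hσ⟩, rfl⟩
    · rintro ⟨ρ, hρ, rfl⟩
      exact (mem_filter.1 hρ).2
  have hcard : A.card = A'.card := by rw [hAA, card_map]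
  have hint : TInt (t - k) A' := by
    intro ρ hρ τ hτ
    have h4 := hA _ (mem_filter.1 hρ).2 _ (mem_filter.1 hτ).2
    rw [ag_red hk hr hrT hrs h1 h2] at h4
    omega
  have hnk : n - k - (t - k) = n - t := by omega
  by_cases hy : ∃ j, g (r j) = y
  · obtain ⟨j, rfl⟩ := hy
    obtain ⟨i, rfl⟩ := hrs x hx
    have hth : thr A (r i) (g (r j)) = (thr A' i j).map ⟨φ, hφ⟩ := by
      ext σ
      unfold thr
      rw [mem_filter, mem_map]
      constructor
      · rintro ⟨hσ, hσ2⟩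
        obtain ⟨ρ, rfl⟩ := h3 σ (hT σ hσ)
        refine ⟨ρ, mem_filter.2 ⟨mem_filter.2 ⟨mem_univ _, hσ⟩, ?_⟩, rfl⟩
        rw [h2] at hσ2
        exact hr (g.injective hσ2)
      · rintro ⟨ρ, hρ, rfl⟩
        rw [mem_filter] at hρ
        refine ⟨(mem_filter.1 hρ.1).2, ?_⟩
        change φ ρ (r i) = g (r j)
        rw [h2, hρ.2]
    rw [hth, card_map, hcard]
    refine hG A' hint ?_ i j
    rw [hnk, ← hcard]
    exact hc
  · left
    have hth : thr A x y = ∅ := by
      rw [eq_empty_iff_forall_notMem]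
      intro σ hσ
      unfold thr at hσ
      rw [mem_filter] at hσ
      apply hy
      obtain ⟨ρ, rfl⟩ := h3 σ (hT σ hσ.1)
      obtain ⟨i, rfl⟩ := hrs x hx
      exact ⟨ρ i, by rw [← hσ.2, h2]⟩
    rw [hth, card_empty, Nat.cast_zero]
    exact mul_nonneg hβ (Nat.cast_nonneg _)

/-- `Edge` for families in a star of `k` rows -/
theorem edge_star {N : ℕ} {a b : ℝ} (hE : Edge N a b) {k : ℕ} (hn : N = n - k)
    {g : Perm (Fin n)} {T : Finset (Fin n)} (hk : T.card = k) {A : Finset (Perm (Fin n))}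
    (hA : TInt (k + 1) A) (hT : ∀ σ ∈ A, ∀ i ∈ T, σ i = g i) (x : Fin n) (hx : x ∉ T)
    (hc : a * ((n - k - 1).factorial : ℝ) ≤ ((thr A x (g x)).card : ℝ)) :
    ((A.filter (fun σ => σ x ≠ g x)).card : ℝ) ≤ b * ((n - k - 1).factorial : ℝ) := by
  classical
  subst hn
  obtain ⟨φ, r, hφ, hr, hrT, hrs, h1, h2, h3⟩ := exists_red g T hk
  set A' : Finset (Perm (Fin (n - k))) := univ.filter (fun ρ => φ ρ ∈ A) with hA'
  have hint : TInt 1 A' := by
    intro ρ hρ τ hτ
    have h4 := hA _ (mem_filter.1 hρ).2 _ (mem_filter.1 hτ).2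
    rw [ag_red hk hr hrT hrs h1 h2] at h4
    omega
  obtain ⟨i, rfl⟩ := hrs x hx
  have hth : thr A (r i) (g (r i)) = (thr A' i i).map ⟨φ, hφ⟩ := by
    ext σ
    unfold thr
    rw [mem_filter, mem_map]
    constructor
    · rintro ⟨hσ, hσ2⟩
      obtain ⟨ρ, rfl⟩ := h3 σ (hT σ hσ)
      refine ⟨ρ, mem_filter.2 ⟨mem_filter.2 ⟨mem_univ _, hσ⟩, ?_⟩, rfl⟩
      rw [h2] at hσ2
      exact hr (g.injective hσ2)
    · rintro ⟨ρ, hρ, rfl⟩
      rw [mem_filter] at hρ
      refine ⟨(mem_filter.1 hρ.1).2, ?_⟩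
      change φ ρ (r i) = g (r i)
      rw [h2, hρ.2]
  have hth2 : A.filter (fun σ => σ (r i) ≠ g (r i)) =
      (A'.filter (fun ρ => ρ i ≠ i)).map ⟨φ, hφ⟩ := by
    ext σ
    rw [mem_filter, mem_map]
    constructor
    · rintro ⟨hσ, hσ2⟩
      obtain ⟨ρ, rfl⟩ := h3 σ (hT σ hσ)
      refine ⟨ρ, mem_filter.2 ⟨mem_filter.2 ⟨mem_univ _, hσ⟩, ?_⟩, rfl⟩
      intro h4
      apply hσ2
      rw [h2, h4]
    · rintro ⟨ρ, hρ, rfl⟩
      rw [mem_filter] at hρ
      refine ⟨(mem_filter.1 hρ.1).2, ?_⟩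
      intro h4
      apply hρ.2
      have h5 : φ ρ (r i) = g (r i) := h4
      rw [h2] at h5
      exact hr (g.injective h5)
  rw [hth, card_map] at hc
  rw [hth2, card_map]
  exact hE A' hint i i hc

/-- `Holds` for families in a star -/
theorem holds_star {n' t' : ℕ} (hH : Holds n' t') {t k : ℕ} (hn : n' = n - k) (ht : t' = t - k)
    (hkt : k ≤ t) (htn : t ≤ n) {g : Perm (Fin n)} {T : Finset (Fin n)} (hk : T.card = k)
    {A : Finset (Perm (Fin n))} (hA : TInt t A) (hT : ∀ σ ∈ A, ∀ i ∈ T, σ i = g i) :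
    A.card ≤ (n - t).factorial ∧
      (A.card = (n - t).factorial → ∃ (g' : Perm (Fin n)) (U : Finset (Fin n)), U.card = t ∧
        ∀ σ ∈ A, ∀ i ∈ U, σ i = g' i) := by
  classical
  subst hn ht
  obtain ⟨φ, r, hφ, hr, hrT, hrs, h1, h2, h3⟩ := exists_red g T hk
  set A' : Finset (Perm (Fin (n - k))) := univ.filter (fun ρ => φ ρ ∈ A) with hA'
  have hAA : A = A'.map ⟨φ, hφ⟩ := by
    ext σ
    rw [mem_map]
    constructor
    · intro hσ
      obtain ⟨ρ, rfl⟩ := h3 σ (hT σ hσ)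
      exact ⟨ρ, mem_filter.2 ⟨mem_univ _, hσ⟩, rfl⟩
    · rintro ⟨ρ, hρ, rfl⟩
      exact (mem_filter.1 hρ).2
  have hcard : A.card = A'.card := by rw [hAA, card_map]
  have hint : TInt (t - k) A' := by
    intro ρ hρ τ hτ
    have h4 := hA _ (mem_filter.1 hρ).2 _ (mem_filter.1 hτ).2
    rw [ag_red hk hr hrT hrs h1 h2] at h4
    omega
  have hnk : n - k - (t - k) = n - t := by omega
  obtain ⟨h4, h5⟩ := hH A' hint
  rw [hnk] at h4 h5
  rw [hcard]
  refine ⟨h4, fun heq => ?_⟩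
  obtain ⟨a, b, ha, hb, hab⟩ := h5 heq
  have hpos : 0 < A'.card := by rw [heq]; exact Nat.factorial_pos _
  obtain ⟨ρ0, hρ0⟩ := card_pos.1 hpos
  have hmem : ∀ ρ, ρ ∈ A' ↔ ∀ k, ρ (a k) = b k := fun ρ => by rw [hab]; simp
  refine ⟨φ ρ0, T ∪ (univ.map ⟨a, ha⟩).map ⟨r, hr⟩, ?_, ?_⟩
  · rw [card_union_of_disjoint, card_map, card_map, hk, card_univ, Fintype.card_fin]
    · omega
    · rw [disjoint_left]
      intro x hx hx2
      rw [mem_map] at hx2
      obtain ⟨i, _, rfl⟩ := hx2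
      exact hrT i hx
  · intro σ hσ i hi
    rw [mem_union] at hi
    rcases hi with hi | hi
    · rw [hT σ hσ i hi, h1 ρ0 i hi]
    · rw [mem_map] at hi
      obtain ⟨j, hj, rfl⟩ := hi
      rw [mem_map] at hj
      obtain ⟨l, _, rfl⟩ := hj
      obtain ⟨ρ, rfl⟩ := h3 σ (hT σ hσ)
      have hρ : ρ ∈ A' := mem_filter.2 ⟨mem_univ _, hσ⟩
      change φ ρ (r (a l)) = φ ρ0 (r (a l))
      rw [h2, h2, (hmem ρ).1 hρ l, (hmem ρ0).1 hρ0 l]

/-- the star of `g` on `T` -/
def star (g : Perm (Fin n)) (T : Finset (Fin n)) : Finset (Perm (Fin n)) :=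
  univ.filter (fun σ => ∀ i ∈ T, σ i = g i)

theorem mem_star {g : Perm (Fin n)} {T : Finset (Fin n)} {σ : Perm (Fin n)} :
    σ ∈ star g T ↔ ∀ i ∈ T, σ i = g i := by
  unfold star
  rw [mem_filter]
  exact ⟨fun h => h.2, fun h => ⟨mem_univ _, h⟩⟩

theorem card_star (g : Perm (Fin n)) (T : Finset (Fin n)) :
    (star g T).card = (n - T.card).factorial := by
  classical
  obtain ⟨φ, r, hφ, hr, hrT, hrs, h1, h2, h3⟩ := exists_red g T rfl
  have h4 : star g T = univ.map ⟨φ, hφ⟩ := by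
    ext σ
    rw [mem_star, mem_map]
    constructor
    · intro h
      obtain ⟨ρ, hρ⟩ := h3 σ h
      exact ⟨ρ, mem_univ _, hρ⟩
    · rintro ⟨ρ, _, rfl⟩ i hi
      exact h1 ρ i hi
  rw [h4, card_map, card_univ, Fintype.card_perm, Fintype.card_fin]

/-- extension of a function which is injective on a set of rows -/
theorem exists_ext (U : Finset (Fin n)) (f : Fin n → Fin n) (hf : Set.InjOn f U) :
    ∃ g : Perm (Fin n), ∀ i ∈ U, g i = f i := by
  classical
  obtain ⟨g, hg⟩ := Finset.exists_equiv_extend_of_card_eq (t := (univ : Finset (Fin n)))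
    (by rw [card_univ]) (s := U) (f := f) (subset_univ _) hf
  let e : Perm (Fin n) := g.trans (Equiv.subtypeUnivEquiv (fun x => mem_univ x))
  exact ⟨e, fun i hi => hg i hi⟩

/-- permutations agreeing with `g` on `T` and with `s` on `S` -/
theorem card_two {g s : Perm (Fin n)} {T S : Finset (Fin n)} (hTS : Disjoint T S)
    (hc : ∀ i ∈ S, ∀ j ∈ T, s i ≠ g j) :
    ((star g T).filter (fun σ => ∀ i ∈ S, σ i = s i)).card = (n - (T.card + S.card)).factorial := by
  classical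
  obtain ⟨g', hg'⟩ := exists_ext (T ∪ S) (fun i => if i ∈ T then g i else s i) (by
    intro i hi j hj hij
    have hi' := mem_union.1 (mem_coe.1 hi)
    have hj' := mem_union.1 (mem_coe.1 hj)
    simp only at hij
    split_ifs at hij with h1 h2 h2
    · exact g.injective hij
    · exact absurd hij.symm (hc j (hj'.resolve_left h2) i h1)
    · exact absurd hij (hc i (hi'.resolve_left h1) j h2)
    · exact s.injective hij)
  have h1 : ∀ i ∈ T, g' i = g i := fun i hi => by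
    rw [hg' i (mem_union_left _ hi), if_pos hi]
  have h2 : ∀ i ∈ S, g' i = s i := fun i hi => by
    rw [hg' i (mem_union_right _ hi), if_neg (fun h => disjoint_left.1 hTS h hi)]
  have h3 : (star g T).filter (fun σ => ∀ i ∈ S, σ i = s i) = star g' (T ∪ S) := by
    ext σ
    rw [mem_filter, mem_star, mem_star]
    constructor
    · rintro ⟨h4, h5⟩ i hi
      rcases mem_union.1 hi with hi | hi
      · rw [h4 i hi, h1 i hi]
      · rw [h5 i hi, h2 i hi]
    · intro h4
      exact ⟨fun i hi => by rw [h4 i (mem_union_left _ hi), h1 i hi],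
        fun i hi => by rw [h4 i (mem_union_right _ hi), h2 i hi]⟩
  rw [h3, card_star, card_union_of_disjoint hTS]

/-- binomial moments of the number of hits -/
theorem sum_choose {g s : Perm (Fin n)} {T R : Finset (Fin n)} (hTR : Disjoint T R)
    (hc : ∀ i ∈ R, ∀ j ∈ T, s i ≠ g j) (j : ℕ) :
    ∑ σ ∈ star g T, ((R.filter (fun i => σ i = s i)).card).choose j =
      R.card.choose j * (n - (T.card + j)).factorial := by
  classical
  have h1 : ∀ σ ∈ star g T, ((R.filter (fun i => σ i = s i)).card).choose j =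
      ∑ S ∈ R.powersetCard j, if (∀ i ∈ S, σ i = s i) then 1 else 0 := by
    intro σ _
    rw [← card_powersetCard, ← card_filter]
    congr 1
    ext S
    rw [mem_filter, mem_powersetCard, mem_powersetCard]
    constructor
    · rintro ⟨h2, h3⟩
      exact ⟨⟨fun i hi => (mem_filter.1 (h2 hi)).1, h3⟩, fun i hi => (mem_filter.1 (h2 hi)).2⟩
    · rintro ⟨⟨h2, h3⟩, h4⟩
      exact ⟨fun i hi => mem_filter.2 ⟨h2 hi, h4 i hi⟩, h3⟩
  rw [sum_congr rfl h1, sum_comm]
  have h2 : ∀ S ∈ R.powersetCard j, (∑ σ ∈ star g T, if (∀ i ∈ S, σ i = s i) then 1 else 0) =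
      (n - (T.card + j)).factorial := by
    intro S hS
    rw [mem_powersetCard] at hS
    rw [← card_filter, card_two (disjoint_of_subset_right hS.1 hTR)
      (fun i hi j hj => hc i (hS.1 hi) j hj), hS.2]
  rw [sum_congr rfl h2, sum_const, card_powersetCard, smul_eq_mul]

end Pool.EG
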