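import Pool.Agent.Work.MP_46fa68_76.EndA

/-! # endgame: energy, popular cells, the core lemma (helper76) -/

set_option autoImplicit false

open Finset Equiv

namespace Pool.EG

variable {n : ℕ}

/-! ### sums -/

theorem sum_thr_row (A : Finset (Perm (Fin n))) (x : Fin n) :
    ∑ y, (thr A x y).card = A.card := by
  classical
  unfold thr
  exact (card_eq_sum_card_fiberwise (f := fun σ : Perm (Fin n) => σ x) (s := A)
    (t := (univ : Finset (Fin n))) (fun σ _ => mem_coe.2 (mem_univ _))).symm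

theorem sum_thr_hits (X : Finset (Perm (Fin n))) (s : Perm (Fin n)) (R : Finset (Fin n)) :
    ∑ i ∈ R, (thr X i (s i)).card = ∑ σ ∈ X, (R.filter (fun i => σ i = s i)).card := by
  classical
  have h1 : ∀ i ∈ R, (thr X i (s i)).card = ∑ σ ∈ X, if σ i = s i then 1 else 0 := by
    intro i _
    unfold thr
    rw [card_filter]
  have h2 : ∀ σ ∈ X, (R.filter (fun i => σ i = s i)).card = ∑ i ∈ R, if σ i = s i then 1 else 0 := by
    intro σ _
    rw [card_filter]
  rw [sum_congr rfl h1, sum_congr rfl h2, sum_comm]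

theorem energy {t : ℕ} {A : Finset (Perm (Fin n))} (hA : TInt t A) :
    t * A.card ^ 2 ≤ ∑ x, ∑ y, (thr A x y).card ^ 2 := by
  classical
  have h1 : ∀ x, ∑ y, (thr A x y).card ^ 2 = ∑ τ ∈ A, (thr A x (τ x)).card := by
    intro x
    have h2 : ∀ y, (thr A x y).card ^ 2 = ∑ τ ∈ A.filter (fun τ : Perm (Fin n) => τ x = y),
        (thr A x (τ x)).card := by
      intro y
      have h3 : ∀ τ ∈ A.filter (fun τ : Perm (Fin n) => τ x = y),
          (thr A x (τ x)).card = (thr A x y).card := by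
        intro τ hτ
        rw [(mem_filter.1 hτ).2]
      rw [sum_congr rfl h3, sum_const, smul_eq_mul, sq]
      rfl
    rw [sum_congr rfl (fun y _ => h2 y)]
    exact sum_fiberwise_of_maps_to (g := fun τ : Perm (Fin n) => τ x)
      (fun τ _ => mem_univ _) (fun τ => (thr A x (τ x)).card)
  rw [sum_congr rfl (fun x _ => h1 x), sum_comm]
  have h4 : ∀ τ ∈ A, t * A.card ≤ ∑ x, (thr A x (τ x)).card := by
    intro τ hτ
    rw [sum_thr_hits A τ univ]
    have h5 : ∀ σ ∈ A, t ≤ (univ.filter (fun i => σ i = τ i)).card := fun σ hσ => hA σ hσ τ hτ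
    calc t * A.card = ∑ σ ∈ A, t := by rw [sum_const, smul_eq_mul, mul_comm]
      _ ≤ _ := sum_le_sum h5
  calc t * A.card ^ 2 = ∑ τ ∈ A, t * A.card := by rw [sum_const, smul_eq_mul]; ring
    _ ≤ _ := sum_le_sum h4

theorem thr_le (A : Finset (Perm (Fin n))) (x y : Fin n) : (thr A x y).card ≤ A.card :=
  card_filter_le _ _

/-- popular cells from energy -/
theorem pop_ge {t : ℕ} {A : Finset (Perm (Fin n))} (hA : TInt t A) (hne : A.Nonempty)
    {β p : ℝ} (hβ1 : β ≤ 1)
    (hgap : ∀ x y, ((thr A x y).card : ℝ) ≤ β * A.card ∨ p * A.card ≤ ((thr A x y).card : ℝ)) :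
    (t : ℝ) ≤ β * n + (1 - β) * ((univ.filter (fun c : Fin n × Fin n =>
      p * A.card ≤ ((thr A c.1 c.2).card : ℝ))).card : ℝ) := by
  classical
  set a : ℝ := (A.card : ℝ) with ha
  have ha0 : 0 < a := by rw [ha]; exact_mod_cast card_pos.2 hne
  set P := univ.filter (fun c : Fin n × Fin n => p * a ≤ ((thr A c.1 c.2).card : ℝ)) with hP
  have h1 : (t : ℝ) * a ^ 2 ≤ ∑ x, ∑ y, ((thr A x y).card : ℝ) ^ 2 := by
    have := energy hA
    rw [ha]
    exact_mod_cast this
  have h2 : ∀ x y, ((thr A x y).card : ℝ) ^ 2 ≤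
      β * a * ((thr A x y).card : ℝ) + if (x, y) ∈ P then (1 - β) * a ^ 2 else 0 := by
    intro x y
    set v : ℝ := ((thr A x y).card : ℝ) with hv
    have hv0 : 0 ≤ v := Nat.cast_nonneg _
    have hva : v ≤ a := by rw [hv, ha]; exact_mod_cast thr_le A x y
    split_ifs with h3
    · nlinarith [mul_nonneg hv0 (sub_nonneg.2 hva), mul_nonneg (sub_nonneg.2 hβ1) (mul_nonneg ha0.le (sub_nonneg.2 hva))]
    · rcases hgap x y with h4 | h4
      · nlinarith
      · exfalso
        apply h3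
        rw [hP, mem_filter]
        exact ⟨mem_univ _, h4⟩
  have h3 : ∑ x, ∑ y, ((thr A x y).card : ℝ) ^ 2 ≤
      ∑ x, ∑ y, (β * a * ((thr A x y).card : ℝ) + if (x, y) ∈ P then (1 - β) * a ^ 2 else 0) :=
    sum_le_sum fun x _ => sum_le_sum fun y _ => h2 x y
  have h4 : ∑ x : Fin n, ∑ y : Fin n, (β * a * ((thr A x y).card : ℝ) +
      if (x, y) ∈ P then (1 - β) * a ^ 2 else 0) = β * a * (n * a) + P.card * ((1 - β) * a ^ 2) := by
    have h5 : ∀ x : Fin n, ∑ y : Fin n, (β * a * ((thr A x y).card : ℝ) +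
      if (x, y) ∈ P then (1 - β) * a ^ 2 else 0) = β * a * a +
        ∑ y : Fin n, if (x, y) ∈ P then (1 - β) * a ^ 2 else 0 := by
      intro x
      rw [sum_add_distrib, ← mul_sum]
      congr 2
      rw [ha, ← sum_thr_row A x]
      push_cast
      rfl
    rw [sum_congr rfl (fun x _ => h5 x), sum_add_distrib, sum_const, card_univ, Fintype.card_fin,
      nsmul_eq_mul]
    have h6 : ∑ x : Fin n, ∑ y : Fin n, (if (x, y) ∈ P then (1 - β) * a ^ 2 else 0) =
        ∑ c : Fin n × Fin n, (if c ∈ P then (1 - β) * a ^ 2 else 0) := by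
      rw [Fintype.sum_prod_type]
    rw [h6, sum_ite_mem, univ_inter, sum_const, nsmul_eq_mul]
    ring
  have h5 : (t : ℝ) * a ^ 2 ≤ (β * n + (1 - β) * P.card) * a ^ 2 := by
    calc (t : ℝ) * a ^ 2 ≤ _ := h1
      _ ≤ _ := h3
      _ = _ := by rw [h4]; ring
  exact le_of_mul_le_mul_right h5 (by positivity)

/-- popular cells form a partial permutation -/
theorem exists_pop {A : Finset (Perm (Fin n))} (hne : A.Nonempty) {p : ℝ} (hp : 1 / 2 < p) :
    ∃ (g : Perm (Fin n)) (T : Finset (Fin n)),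
      (∀ x y, p * A.card ≤ ((thr A x y).card : ℝ) ↔ (x ∈ T ∧ y = g x)) ∧
      (univ.filter (fun c : Fin n × Fin n => p * A.card ≤ ((thr A c.1 c.2).card : ℝ))).card =
        T.card := by
  classical
  set a : ℝ := (A.card : ℝ) with ha
  have ha0 : 0 < a := by rw [ha]; exact_mod_cast card_pos.2 hne
  -- two popular cells have a common member
  have h1 : ∀ x y x' y', p * a ≤ ((thr A x y).card : ℝ) → p * a ≤ ((thr A x' y').card : ℝ) →
      ∃ σ ∈ A, σ x = y ∧ σ x' = y' := by
    intro x y x' y' h h'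
    by_contra hcon
    push Not at hcon
    have hd : Disjoint (thr A x y) (thr A x' y') := by
      rw [disjoint_left]
      intro σ h2 h3
      unfold thr at h2 h3
      rw [mem_filter] at h2 h3
      exact hcon σ h2.1 h2.2 h3.2
    have h2 : (thr A x y ∪ thr A x' y').card ≤ A.card :=
      card_le_card (union_subset (filter_subset _ _) (filter_subset _ _))
    rw [card_union_of_disjoint hd] at h2
    have h3 : ((thr A x y).card : ℝ) + ((thr A x' y').card : ℝ) ≤ a := by
      rw [ha]; exact_mod_cast h2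
    nlinarith
  set T := univ.filter (fun x : Fin n => ∃ y, p * a ≤ ((thr A x y).card : ℝ)) with hT
  have hch : ∀ x : Fin n, ∃ y, x ∈ T → p * a ≤ ((thr A x y).card : ℝ) := by
    intro x
    by_cases hx : x ∈ T
    · obtain ⟨y, hy⟩ := (mem_filter.1 hx).2
      exact ⟨y, fun _ => hy⟩
    · exact ⟨x, fun h => absurd h hx⟩
  choose f hf using hch
  have hinj : Set.InjOn f T := by
    intro x hx x' hx' hxx
    obtain ⟨σ, _, h2, h3⟩ := h1 _ _ _ _ (hf x hx) (hf x' hx')
    exact σ.injective (by rw [h2, h3, hxx])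
  obtain ⟨g, hg⟩ := exists_ext T f hinj
  have hiff : ∀ x y, p * a ≤ ((thr A x y).card : ℝ) ↔ (x ∈ T ∧ y = g x) := by
    intro x y
    constructor
    · intro h
      have hx : x ∈ T := mem_filter.2 ⟨mem_univ _, ⟨y, h⟩⟩
      refine ⟨hx, ?_⟩
      obtain ⟨σ, _, h2, h3⟩ := h1 _ _ _ _ h (hf x hx)
      rw [hg x hx, ← h2, ← h3]
    · rintro ⟨hx, rfl⟩
      rw [hg x hx]
      exact hf x hx
  refine ⟨g, T, hiff, ?_⟩
  have h2 : univ.filter (fun c : Fin n × Fin n => p * a ≤ ((thr A c.1 c.2).card : ℝ)) =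
      T.image (fun x => (x, g x)) := by
    ext ⟨x, y⟩
    rw [mem_filter, mem_image]
    constructor
    · rintro ⟨_, h⟩
      obtain ⟨hx, hy⟩ := (hiff x y).1 h
      exact ⟨x, hx, by rw [hy]⟩
    · rintro ⟨x', hx', h⟩
      obtain ⟨rfl, rfl⟩ := Prod.mk.inj h
      exact ⟨mem_univ _, (hiff _ _).2 ⟨hx', rfl⟩⟩
  rw [h2, card_image_of_injective]
  intro x x' h
  exact (Prod.mk.inj h).1

/-! ### the core lemma -/

theorem core {X : Finset (Perm (Fin n))} {s : Perm (Fin n)} {R : Finset (Fin n)} {t : ℕ} {β p : ℝ}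
    (hR : R.card ≤ 2 * t - 1) (ht : 1 ≤ t)
    (hX : ∀ σ ∈ X, t ≤ (R.filter (fun i => σ i = s i)).card)
    (hgap : ∀ i ∈ R, ((thr X i (s i)).card : ℝ) ≤ β * X.card ∨
      p * X.card ≤ ((thr X i (s i)).card : ℝ))
    (hβ : 0 ≤ β) (hβ2 : β * (t + 1) < 2) (hne : X.Nonempty) :
    t ≤ (R.filter (fun i => p * X.card ≤ ((thr X i (s i)).card : ℝ))).card + 1 := by
  classical
  set a : ℝ := (X.card : ℝ) with ha
  have ha0 : 0 < a := by rw [ha]; exact_mod_cast card_pos.2 hne
  set H := R.filter (fun i => p * a ≤ ((thr X i (s i)).card : ℝ)) with hH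
  have h1 : (t : ℝ) * a ≤ ∑ i ∈ R, ((thr X i (s i)).card : ℝ) := by
    have h2 : t * X.card ≤ ∑ i ∈ R, (thr X i (s i)).card := by
      rw [sum_thr_hits]
      calc t * X.card = ∑ σ ∈ X, t := by rw [sum_const, smul_eq_mul, mul_comm]
        _ ≤ _ := sum_le_sum hX
    rw [ha]
    exact_mod_cast h2
  have h2 : ∑ i ∈ R, ((thr X i (s i)).card : ℝ) ≤ ∑ i ∈ R, (β * a + if i ∈ H then (1 - β) * a else 0) := by
    refine sum_le_sum fun i hi => ?_
    split_ifs with h3
    · have : ((thr X i (s i)).card : ℝ) ≤ a := by rw [ha]; exact_mod_cast thr_le X i (s i)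
      linarith
    · rcases hgap i hi with h4 | h4
      · linarith
      · exact absurd (mem_filter.2 ⟨hi, h4⟩) h3
  have h3 : ∑ i ∈ R, (β * a + if i ∈ H then (1 - β) * a else 0) =
      R.card * (β * a) + H.card * ((1 - β) * a) := by
    rw [sum_add_distrib, sum_const, nsmul_eq_mul, sum_ite_mem,
      inter_eq_right.2 (filter_subset _ R), sum_const, nsmul_eq_mul]
  have h4 : (t : ℝ) ≤ R.card * β + H.card * (1 - β) := by
    have h5 : (t : ℝ) * a ≤ (R.card * β + H.card * (1 - β)) * a := by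
      calc (t : ℝ) * a ≤ _ := h1
        _ ≤ _ := h2
        _ = _ := by rw [h3]; ring
    exact le_of_mul_le_mul_right h5 ha0
  by_contra hcon
  push Not at hcon
  have h5 : (H.card : ℝ) + 2 ≤ t := by exact_mod_cast hcon
  have h6 : (R.card : ℝ) ≤ 2 * t - 1 := by
    have : R.card + 1 ≤ 2 * t := by omega
    have : (R.card : ℝ) + 1 ≤ 2 * t := by exact_mod_cast this
    linarith
  have ht2 : (1 : ℝ) ≤ t := by exact_mod_cast ht
  have hβ1 : β ≤ 1 := by nlinarith
  nlinarith [mul_le_mul_of_nonneg_right h6 hβ, mul_le_mul_of_nonneg_right h5 (sub_nonneg.2 hβ1)]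

/-- exactly `t - 1` popular cells on `s`: most members contain them all -/
theorem core_eq {X : Finset (Perm (Fin n))} {s : Perm (Fin n)} {R H : Finset (Fin n)} {t : ℕ} {β : ℝ}
    (hR : R.card ≤ 2 * t - 1) (hHR : H ⊆ R) (hH : H.card + 1 = t)
    (hX : ∀ σ ∈ X, t ≤ (R.filter (fun i => σ i = s i)).card)
    (hgap : ∀ i ∈ R, i ∉ H → ((thr X i (s i)).card : ℝ) ≤ β * X.card)
    (hβ : 0 ≤ β) :
    (2 - β * t) * X.card ≤ ((X.filter (fun σ => ∀ i ∈ H, σ i = s i)).card : ℝ) := by
  classical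
  set a : ℝ := (X.card : ℝ) with ha
  have h1 : ∑ σ ∈ X, (((R \ H).filter (fun i => σ i = s i)).card : ℝ) ≤ t * (β * a) := by
    have h2 : ∑ σ ∈ X, (((R \ H).filter (fun i => σ i = s i)).card : ℝ) =
        ∑ i ∈ R \ H, ((thr X i (s i)).card : ℝ) := by
      have := sum_thr_hits X s (R \ H)
      exact_mod_cast this.symm
    rw [h2]
    calc ∑ i ∈ R \ H, ((thr X i (s i)).card : ℝ) ≤ ∑ i ∈ R \ H, β * a :=
          sum_le_sum fun i hi => hgap i (mem_sdiff.1 hi).1 (mem_sdiff.1 hi).2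
      _ = (R \ H).card * (β * a) := by rw [sum_const, nsmul_eq_mul]
      _ ≤ t * (β * a) := by
          have h3 : (R \ H).card ≤ t := by
            rw [card_sdiff_of_subset hHR]
            omega
          have h4 : ((R \ H).card : ℝ) ≤ t := by exact_mod_cast h3
          exact mul_le_mul_of_nonneg_right h4 (mul_nonneg hβ (by rw [ha]; positivity))
  have h2 : ∀ σ ∈ X, (2 : ℝ) - (if (∀ i ∈ H, σ i = s i) then 1 else 0) ≤
      (((R \ H).filter (fun i => σ i = s i)).card : ℝ) := by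
    intro σ hσ
    have h3 : (R.filter (fun i => σ i = s i)).card =
        (H.filter (fun i => σ i = s i)).card + ((R \ H).filter (fun i => σ i = s i)).card := by
      rw [← card_union_of_disjoint (disjoint_filter_filter disjoint_sdiff), ← filter_union,
        union_sdiff_of_subset hHR]
    have h4 := hX σ hσ
    split_ifs with h5
    · have h6 : (H.filter (fun i => σ i = s i)).card ≤ H.card := card_filter_le _ _
      have h7 : 1 ≤ ((R \ H).filter (fun i => σ i = s i)).card := by omega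
      have h8 : (1 : ℝ) ≤ (((R \ H).filter (fun i => σ i = s i)).card : ℝ) := by exact_mod_cast h7
      linarith
    · have h6 : (H.filter (fun i => σ i = s i)).card < H.card := by
        apply card_lt_card
        refine (filter_subset _ _).ssubset_of_ne ?_
        intro h7
        exact h5 fun i hi => by
          rw [← h7] at hi
          exact (mem_filter.1 hi).2
      have h7 : 2 ≤ ((R \ H).filter (fun i => σ i = s i)).card := by omega
      have h8 : (2 : ℝ) ≤ (((R \ H).filter (fun i => σ i = s i)).card : ℝ) := by exact_mod_cast h7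
      linarith
  have h3 : ∑ σ ∈ X, ((2 : ℝ) - (if (∀ i ∈ H, σ i = s i) then 1 else 0)) =
      2 * a - ((X.filter (fun σ => ∀ i ∈ H, σ i = s i)).card : ℝ) := by
    rw [sum_sub_distrib, sum_const, nsmul_eq_mul, sum_boole]
    ring
  have h4 := sum_le_sum h2
  rw [h3] at h4
  linarith

/-! ### good families -/

/-- the conclusion for one family -/
def Good (t : ℕ) (A : Finset (Perm (Fin n))) : Prop :=
  A.card ≤ (n - t).factorial ∧
    (A.card = (n - t).factorial → ∃ (g : Perm (Fin n)) (U : Finset (Fin n)), U.card = t ∧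
      ∀ σ ∈ A, ∀ i ∈ U, σ i = g i)

theorem good_of_lt {t : ℕ} {A : Finset (Perm (Fin n))} (h : A.card < (n - t).factorial) :
    Good t A := ⟨h.le, fun h2 => absurd h2 h.ne⟩

theorem holds_of_good {t : ℕ} (h : ∀ A : Finset (Perm (Fin n)), TInt t A → Good t A) :
    Holds n t := by
  classical
  intro A hA
  obtain ⟨h1, h2⟩ := h A hA
  refine ⟨h1, fun heq => ?_⟩
  obtain ⟨g, U, hU, hAU⟩ := h2 heq
  have h3 : A = star g U := by
    apply eq_of_subset_of_card_le
    · intro σ hσ
      exact mem_star.2 (hAU σ hσ)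
    · rw [card_star, hU, heq]
  refine ⟨fun k => U.orderEmbOfFin hU k, fun k => g (U.orderEmbOfFin hU k),
    (U.orderEmbOfFin hU).injective, g.injective.comp (U.orderEmbOfFin hU).injective, ?_⟩
  rw [h3]
  ext σ
  rw [mem_star, mem_filter]
  constructor
  · intro h4
    exact ⟨mem_univ _, fun k => h4 _ (U.orderEmbOfFin_mem hU k)⟩
  · rintro ⟨_, h4⟩ i hi
    have h5 : i ∈ Set.range (U.orderEmbOfFin hU) := by
      rw [range_orderEmbOfFin]
      exact mem_coe.2 hi
    obtain ⟨k, rfl⟩ := h5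
    exact h4 k

/-- a star of at least two cells -/
theorem good_of_star {t : ℕ} (hn : n = 2 * t + 1)
    (hK : ∀ n' t' : ℕ, 2 * t' + 3 ≤ n' → Holds n' t') {g : Perm (Fin n)} {T : Finset (Fin n)}
    (hT : 2 ≤ T.card) {A : Finset (Perm (Fin n))} (hA : TInt t A)
    (hAT : ∀ σ ∈ A, ∀ i ∈ T, σ i = g i) : Good t A := by
  classical
  rcases Nat.lt_or_ge T.card t with h | h
  · exact holds_star (hK (n - T.card) (t - T.card) (by omega)) rfl rfl h.le (by omega) rfl hA hAT
  · obtain ⟨U, hUT, hU⟩ := exists_subset_card_eq h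
    refine ⟨?_, fun _ => ⟨g, U, hU, fun σ hσ i hi => hAT σ hσ i (hUT hi)⟩⟩
    calc A.card ≤ (star g U).card := card_le_card fun σ hσ =>
          mem_star.2 fun i hi => hAT σ hσ i (hUT hi)
      _ = _ := by rw [card_star, hU]

end Pool.EG
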