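import Pool.Agent.Work.MP_46fa68_76.EndC

/-! # endgame: assembly (helper76) -/

set_option autoImplicit false

open Finset Equiv

namespace Pool.EG

variable {t : ℕ}

theorem sub_eq (t : ℕ) : 2 * t + 1 - t = t + 1 := by omega

/-- (b) -/
theorem step_b (ht : 1 ≤ t) {A : Finset (Perm (Fin (2 * t + 1)))} (hA : TInt t A)
    {β0 p0 β1 p1 : ℝ} (hF : ((t + 1).factorial : ℝ) ≤ A.card) (hb0 : 0 ≤ β0) (hb1 : 0 ≤ β1)
    (hp0 : 1 / 2 < p0) (hB1 : β1 * (t + 1) < 2) (hB2 : β0 < p0 * p1)
    (hgap : ∀ x y, ((thr A x y).card : ℝ) ≤ β0 * A.card ∨ p0 * A.card ≤ ((thr A x y).card : ℝ))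
    (hG1 : Gap (2 * t) (t - 1) p0 β1 p1)
    {g : Perm (Fin (2 * t + 1))} {T : Finset (Fin (2 * t + 1))}
    (hpop : ∀ x y, p0 * A.card ≤ ((thr A x y).card : ℝ) ↔ (x ∈ T ∧ y = g x))
    {s : Perm (Fin (2 * t + 1))} (hs : s ∈ A) {x : Fin (2 * t + 1)} (hx : x ∈ T)
    (hsx : s x ≠ g x) :
    ∃ H : Finset (Fin (2 * t + 1)), H ⊆ T.erase x ∧ t ≤ H.card + 1 ∧
      (H.card + 1 = t → (2 - β1 * t) * ((thr A x (g x)).card : ℝ) ≤
        (((thr A x (g x)).filter (fun σ => ∀ i ∈ H, σ i = g i)).card : ℝ)) := by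
  classical
  set X := thr A x (g x) with hXdef
  have hfac : (0 : ℝ) < ((t + 1).factorial : ℝ) := by exact_mod_cast Nat.factorial_pos _
  have ha0 : (0 : ℝ) < (A.card : ℝ) := lt_of_lt_of_le hfac hF
  have hXc : p0 * A.card ≤ (X.card : ℝ) := (hpop x (g x)).2 ⟨hx, rfl⟩
  have hX0 : (0 : ℝ) < (X.card : ℝ) := lt_of_lt_of_le (by nlinarith) hXc
  have hXne : X.Nonempty := by
    rw [← card_pos]
    exact_mod_cast hX0
  have hXA : ∀ σ ∈ X, σ ∈ A ∧ σ x = g x := fun σ hσ => mem_filter.1 hσ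
  set R : Finset (Fin (2 * t + 1)) := (univ.erase x).erase (s⁻¹ (g x)) with hR
  have hne : s⁻¹ (g x) ≠ x := by
    intro h
    apply hsx
    rw [← h, ap_inv, h]
  have hRc : R.card ≤ 2 * t - 1 := by
    rw [hR, card_erase_of_mem (mem_erase.2 ⟨hne, mem_univ _⟩), card_erase_of_mem (mem_univ _),
      card_univ, Fintype.card_fin]
    omega
  have hXR : ∀ σ ∈ X, t ≤ (R.filter (fun i => σ i = s i)).card := by
    intro σ hσ
    refine le_trans (hA σ (hXA σ hσ).1 s hs) ?_
    unfold ag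
    apply card_le_card
    intro i hi
    have hi2 := (mem_filter.1 hi).2
    refine mem_filter.2 ⟨mem_erase.2 ⟨?_, mem_erase.2 ⟨?_, mem_univ _⟩⟩, hi2⟩
    · intro h
      have h1 : s i = g x := by rw [h, ap_inv]
      have h2 : σ i = σ x := by rw [hi2, h1, (hXA σ hσ).2]
      have h3 := σ.injective h2
      apply hsx
      rw [← h1, h3]
    · rintro rfl
      apply hsx
      rw [← hi2, (hXA σ hσ).2]
  have hTX : TInt t X := fun σ hσ τ hτ => hA σ (hXA σ hσ).1 τ (hXA τ hτ).1
  have hgX : ∀ i ∈ R, ((thr X i (s i)).card : ℝ) ≤ β1 * X.card ∨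
      p1 * X.card ≤ ((thr X i (s i)).card : ℝ) := by
    intro i hi
    refine gap_star hG1 hb1 (t := t) (k := 1) (by omega) rfl ht (by omega) (g := g) (T := {x})
      (card_singleton x) hTX ?_ ?_ i (s i) ?_
    · intro σ hσ j hj
      rw [mem_singleton] at hj
      rw [hj]
      exact (hXA σ hσ).2
    · rw [sub_eq]
      calc p0 * ((t + 1).factorial : ℝ) ≤ p0 * A.card :=
            mul_le_mul_of_nonneg_left hF (by linarith)
        _ ≤ _ := hXc
    · rw [mem_singleton]
      exact (mem_erase.1 (mem_erase.1 hi).2).1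
  have hcore := core hRc ht hXR hgX hb1 hB1 hXne
  set H := R.filter (fun i => p1 * X.card ≤ ((thr X i (s i)).card : ℝ)) with hH
  have hp1 : 0 < p1 := by
    by_contra hcon
    push Not at hcon
    nlinarith
  have hHpop : ∀ i ∈ H, i ∈ T ∧ s i = g i := by
    intro i hi
    have h1 := (mem_filter.1 hi).2
    have h2 : ((thr X i (s i)).card : ℝ) ≤ ((thr A i (s i)).card : ℝ) := by
      have : (thr X i (s i)).card ≤ (thr A i (s i)).card := by
        apply card_le_card
        intro σ hσ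
        obtain ⟨h3, h4⟩ := mem_filter.1 hσ
        exact mem_filter.2 ⟨(hXA σ h3).1, h4⟩
      exact_mod_cast this
    have h3 : β0 * A.card < ((thr A i (s i)).card : ℝ) := by
      calc β0 * A.card < p0 * p1 * A.card := mul_lt_mul_of_pos_right hB2 ha0
        _ = p1 * (p0 * A.card) := by ring
        _ ≤ p1 * X.card := mul_le_mul_of_nonneg_left hXc hp1.le
        _ ≤ _ := h1
        _ ≤ _ := h2
    rcases hgap i (s i) with h4 | h4
    · exact absurd h4 (not_le.2 h3)
    · exact (hpop i (s i)).1 h4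
  refine ⟨H, ?_, hcore, ?_⟩
  · intro i hi
    refine mem_erase.2 ⟨?_, (hHpop i hi).1⟩
    exact (mem_erase.1 (mem_erase.1 (mem_filter.1 hi).1).2).1
  · intro hcard
    have h1 := core_eq hRc (filter_subset _ R) hcard hXR (fun i hi hiH => by
      rcases hgX i hi with h | h
      · exact h
      · exact absurd (mem_filter.2 ⟨hi, h⟩) hiH) hb1
    have h2 : X.filter (fun σ => ∀ i ∈ H, σ i = s i) = X.filter (fun σ => ∀ i ∈ H, σ i = g i) := by
      apply filter_congr
      intro σ _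
      constructor
      · intro h i hi
        rw [h i hi, (hHpop i hi).2]
      · intro h i hi
        rw [h i hi, (hHpop i hi).2]
    rw [← h2]
    exact h1

/-- factorials -/
theorem fac3 (ht : 2 ≤ t) :
    ((t + 1).factorial : ℝ) = (t + 1) * t * (t - 1) * ((t - 2).factorial : ℝ) ∧
    (t.factorial : ℝ) = t * (t - 1) * ((t - 2).factorial : ℝ) ∧
    ((t - 1).factorial : ℝ) = (t - 1) * ((t - 2).factorial : ℝ) := by
  obtain ⟨h1, h2⟩ := fact_two ht
  refine ⟨?_, h2, h1⟩
  rw [Nat.factorial_succ, Nat.cast_mul, h2]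
  push_cast
  ring

/-- (c) -/
theorem step_c (ht : 3 ≤ t) {A : Finset (Perm (Fin (2 * t + 1)))} (hA : TInt t A)
    {p0 β2 p2 : ℝ} (hF : ((t + 1).factorial : ℝ) ≤ A.card) (hb2 : 0 ≤ β2)
    (hp0 : 1 / 2 < p0) (hC1 : β2 * (t + 1) < 2)
    (hC2 : 1 < (2 - β2 * t) * (2 * p0 - 1) * (t + 1))
    (hC3 : 2 + (t : ℝ) * (t - 1) / 2 < (2 - β2 * (t - 1)) * (2 * p0 - 1) * (t * (t + 1)))
    (hC4 : 2 + ((t : ℝ) + 1) * (t - 1) <
      (2 - (t + 1) * (1 - p2)) * (2 * p0 - 1) * ((t + 1) * t * (t - 1)))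
    (hG2 : Gap (2 * t - 1) (t - 2) (2 * p0 - 1) β2 p2)
    {g : Perm (Fin (2 * t + 1))} {x x' : Fin (2 * t + 1)} (hxx : x ≠ x')
    (hx : p0 * A.card ≤ ((thr A x (g x)).card : ℝ))
    (hx' : p0 * A.card ≤ ((thr A x' (g x')).card : ℝ))
    {s : Perm (Fin (2 * t + 1))} (hs : s ∈ A) (hsx : s x ≠ g x) (hsx' : s x' ≠ g x') : False := by
  classical
  set X := thr A x (g x) ∩ thr A x' (g x') with hXdef
  have hfac : (0 : ℝ) < ((t + 1).factorial : ℝ) := by exact_mod_cast Nat.factorial_pos _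
  have ha0 : (0 : ℝ) < (A.card : ℝ) := lt_of_lt_of_le hfac hF
  have hθ : 0 < 2 * p0 - 1 := by linarith
  have hXc : (2 * p0 - 1) * A.card ≤ (X.card : ℝ) := by
    have h1 := card_union_add_card_inter (thr A x (g x)) (thr A x' (g x'))
    have h2 : (thr A x (g x) ∪ thr A x' (g x')).card ≤ A.card :=
      card_le_card (union_subset (filter_subset _ _) (filter_subset _ _))
    rw [← hXdef] at h1
    have h3 : (thr A x (g x)).card + (thr A x' (g x')).card ≤ A.card + X.card := by omega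
    have h4 : ((thr A x (g x)).card : ℝ) + ((thr A x' (g x')).card : ℝ) ≤ A.card + X.card := by
      exact_mod_cast h3
    linarith
  have hXF : (2 * p0 - 1) * ((t + 1).factorial : ℝ) ≤ (X.card : ℝ) :=
    le_trans (mul_le_mul_of_nonneg_left hF hθ.le) hXc
  have hX0 : (0 : ℝ) < (X.card : ℝ) := lt_of_lt_of_le (mul_pos hθ hfac) hXF
  have hXne : X.Nonempty := by
    rw [← card_pos]
    exact_mod_cast hX0
  have hXA : ∀ σ ∈ X, σ ∈ A ∧ σ x = g x ∧ σ x' = g x' := by
    intro σ hσ
    obtain ⟨h1, h2⟩ := mem_inter.1 hσ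
    exact ⟨(mem_filter.1 h1).1, (mem_filter.1 h1).2, (mem_filter.1 h2).2⟩
  set Z : Finset (Fin (2 * t + 1)) := {x, x'} with hZ
  have hZc : Z.card = 2 := card_pair hxx
  have hXZ : ∀ σ ∈ X, ∀ i ∈ Z, σ i = g i := by
    intro σ hσ i hi
    rw [hZ, mem_insert, mem_singleton] at hi
    rcases hi with rfl | rfl
    · exact (hXA σ hσ).2.1
    · exact (hXA σ hσ).2.2
  set R : Finset (Fin (2 * t + 1)) := Zᶜ.filter (fun i => ∀ j ∈ Z, s i ≠ g j) with hR
  have hZR : Disjoint Z R := by
    rw [disjoint_left]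
    intro i hi hi2
    exact (mem_compl.1 (mem_filter.1 hi2).1) hi
  have hcR : ∀ i ∈ R, ∀ j ∈ Z, s i ≠ g j := fun i hi => (mem_filter.1 hi).2
  have hRc : R.card ≤ 2 * t - 1 := by
    refine le_trans (card_filter_le _ _) ?_
    rw [card_compl, hZc, Fintype.card_fin]
    omega
  have hsZ : ∀ j ∈ Z, s j ≠ g j := by
    intro j hj
    rw [hZ, mem_insert, mem_singleton] at hj
    rcases hj with rfl | rfl
    · exact hsx
    · exact hsx'
  have hXR : ∀ σ ∈ X, t ≤ (R.filter (fun i => σ i = s i)).card := by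
    intro σ hσ
    refine le_trans (hA σ (hXA σ hσ).1 s hs) ?_
    unfold ag
    apply card_le_card
    intro i hi
    have hi2 := (mem_filter.1 hi).2
    refine mem_filter.2 ⟨mem_filter.2 ⟨mem_compl.2 ?_, ?_⟩, hi2⟩
    · intro h
      exact hsZ i h (by rw [← hi2, hXZ σ hσ i h])
    · intro j hj h
      have h1 : σ i = σ j := by rw [hi2, h, hXZ σ hσ j hj]
      have h2 := σ.injective h1
      exact hsZ j hj (by rw [← h, h2])
  have hTX : TInt t X := fun σ hσ τ hτ => hA σ (hXA σ hσ).1 τ (hXA τ hτ).1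
  have hgX : ∀ i ∈ R, ((thr X i (s i)).card : ℝ) ≤ β2 * X.card ∨
      p2 * X.card ≤ ((thr X i (s i)).card : ℝ) := by
    intro i hi
    refine gap_star hG2 hb2 (t := t) (k := 2) (by omega) rfl (by omega) (by omega) (g := g)
      (T := Z) hZc hTX hXZ ?_ i (s i) ?_
    · rw [sub_eq]
      exact hXF
    · exact mem_compl.1 (mem_filter.1 hi).1
  have hcore := core hRc (by omega) hXR hgX hb2 hC1 hXne
  set H := R.filter (fun i => p2 * X.card ≤ ((thr X i (s i)).card : ℝ)) with hH
  have hHR : H ⊆ R := filter_subset _ _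
  have hgH : ∀ i ∈ R, i ∉ H → ((thr X i (s i)).card : ℝ) ≤ β2 * X.card := by
    intro i hi hiH
    rcases hgX i hi with h | h
    · exact h
    · exact absurd (mem_filter.2 ⟨hi, h⟩) hiH
  obtain ⟨hf1, hf2, hf3⟩ := fac3 (t := t) (by omega)
  have hff : (0 : ℝ) < ((t - 2).factorial : ℝ) := by exact_mod_cast Nat.factorial_pos _
  have htR : (3 : ℝ) ≤ t := by exact_mod_cast ht
  rcases Nat.lt_or_ge H.card t with h | h
  · -- h = t - 1
    have hcard : H.card + 1 = t := by omega
    have h1 := core_eq hRc hHR hcard hXR hgH hb2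
    have h2 : (X.filter (fun σ => ∀ i ∈ H, σ i = s i)).card ≤ t.factorial := by
      calc (X.filter (fun σ => ∀ i ∈ H, σ i = s i)).card
          ≤ ((star g Z).filter (fun σ => ∀ i ∈ H, σ i = s i)).card := by
            apply card_le_card
            intro σ hσ
            rw [mem_filter] at hσ ⊢
            exact ⟨mem_star.2 (hXZ σ hσ.1), hσ.2⟩
        _ = (2 * t + 1 - (Z.card + H.card)).factorial :=
            card_two (disjoint_of_subset_right hHR hZR) (fun i hi j hj => hcR i (hHR hi) j hj)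
        _ = t.factorial := by
            rw [hZc]
            congr 1
            omega
    have h3 : ((X.filter (fun σ => ∀ i ∈ H, σ i = s i)).card : ℝ) ≤ (t.factorial : ℝ) := by
      exact_mod_cast h2
    have h4 : 0 ≤ 2 - β2 * t := by nlinarith
    have h5 : (2 - β2 * t) * ((2 * p0 - 1) * ((t + 1).factorial : ℝ)) ≤ (2 - β2 * t) * X.card :=
      mul_le_mul_of_nonneg_left hXF h4
    have h6 : (t.factorial : ℝ) * 1 <
        (t.factorial : ℝ) * ((2 - β2 * t) * (2 * p0 - 1) * (t + 1)) :=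
      mul_lt_mul_of_pos_left hC2 (by exact_mod_cast Nat.factorial_pos _)
    have h7 : ((t + 1).factorial : ℝ) = (t + 1) * (t.factorial : ℝ) := by
      rw [Nat.factorial_succ]
      push_cast
      ring
    rw [h7] at h5
    nlinarith
  · rcases Nat.eq_or_lt_of_le h with h | h
    · -- h = t
      have h1 := core_t rfl ht hZc hXZ hZR hcR hRc hHR h.symm hXR hgH hb2
      have h4 : 0 ≤ 2 - β2 * (t - 1) := by nlinarith
      have h5 : (2 - β2 * (t - 1)) * ((2 * p0 - 1) * ((t + 1).factorial : ℝ)) ≤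
          (2 - β2 * (t - 1)) * X.card := mul_le_mul_of_nonneg_left hXF h4
      have hff1 : (0 : ℝ) < (t - 1) * ((t - 2).factorial : ℝ) := by
        apply mul_pos _ hff
        linarith
      have h6 := mul_lt_mul_of_pos_left hC3 hff1
      rw [hf1] at h5
      rw [hf3] at h1
      have h7 : (t - 1) * ((t - 2).factorial : ℝ) * ((2 - β2 * (t - 1)) * (2 * p0 - 1) * (t * (t + 1)))
          = (2 - β2 * (t - 1)) * ((2 * p0 - 1) * ((t + 1) * t * (t - 1) * ((t - 2).factorial : ℝ))) := by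
        ring
      have h8 : 2 * ((t - 1) * ((t - 2).factorial : ℝ)) +
          t * (t - 1) * ((t - 1) * ((t - 2).factorial : ℝ)) / 2 =
          (t - 1) * ((t - 2).factorial : ℝ) * (2 + (t : ℝ) * (t - 1) / 2) := by ring
      rw [h7] at h6
      rw [h8] at h1
      linarith
    · -- h ≥ t + 1
      obtain ⟨H', hH', hH'c⟩ := exists_subset_card_eq (show t + 1 ≤ H.card from h)
      have h1 := core_t1 (p := p2) rfl (by omega) hZc hXZ
        (disjoint_of_subset_right (hH'.trans hHR) hZR)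
        (fun i hi j hj => hcR i (hHR (hH' hi)) j hj) hH'c
        (fun i hi => (mem_filter.1 (hH' hi)).2)
      have hpos : 0 < (2 - ((t : ℝ) + 1) * (1 - p2)) := by
        by_contra hcon
        push Not at hcon
        have h2 : (0 : ℝ) < ((t : ℝ) + 1) * t * (t - 1) := by
          have : (0 : ℝ) < t - 1 := by linarith
          positivity
        have h3 : (2 - ((t : ℝ) + 1) * (1 - p2)) * (2 * p0 - 1) * ((t + 1) * t * (t - 1)) ≤ 0 :=
          mul_nonpos_of_nonpos_of_nonneg (mul_nonpos_of_nonpos_of_nonneg hcon hθ.le) h2.le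
        nlinarith
      have h5 : (2 - ((t : ℝ) + 1) * (1 - p2)) * ((2 * p0 - 1) * ((t + 1).factorial : ℝ)) ≤
          (2 - ((t : ℝ) + 1) * (1 - p2)) * X.card := mul_le_mul_of_nonneg_left hXF hpos.le
      have h6 := mul_lt_mul_of_pos_left hC4 hff
      rw [hf1] at h5
      rw [hf3] at h1
      have h7 : ((t - 2).factorial : ℝ) * ((2 - ((t : ℝ) + 1) * (1 - p2)) * (2 * p0 - 1) *
          ((t + 1) * t * (t - 1)))
          = (2 - ((t : ℝ) + 1) * (1 - p2)) * ((2 * p0 - 1) *
            ((t + 1) * t * (t - 1) * ((t - 2).factorial : ℝ))) := by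
        ring
      have h8 : 2 * ((t - 2).factorial : ℝ) + ((t : ℝ) + 1) * ((t - 1) * ((t - 2).factorial : ℝ)) =
          ((t - 2).factorial : ℝ) * (2 + ((t : ℝ) + 1) * (t - 1)) := by ring
      rw [h7] at h6
      rw [h8] at h1
      linarith

/-- (e): the members containing all popular cells -/
theorem step_e (ht : 3 ≤ t) {A : Finset (Perm (Fin (2 * t + 1)))} (hA : TInt t A)
    {g s : Perm (Fin (2 * t + 1))} {T : Finset (Fin (2 * t + 1))} (hT : T.card = t)
    (hs : s ∈ A) {x : Fin (2 * t + 1)} (hx : x ∈ T) (hsx : s x ≠ g x)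
    (hsT : ∀ i ∈ T.erase x, s i = g i) :
    ((A.filter (fun σ => ∀ i ∈ T, σ i = g i)).card : ℝ) ≤
      (4 * (t : ℝ) + 1) / (6 * (t + 1)) * ((t + 1).factorial : ℝ) := by
  classical
  set A0 := A.filter (fun σ => ∀ i ∈ T, σ i = g i) with hA0
  set R : Finset (Fin (2 * t + 1)) := Tᶜ.erase (s⁻¹ (g x)) with hR
  have hnot : s⁻¹ (g x) ∈ Tᶜ := by
    rw [mem_compl]
    intro h
    by_cases h1 : s⁻¹ (g x) = x
    · apply hsx
      rw [← h1, ap_inv, h1]
    · have h2 := hsT _ (mem_erase.2 ⟨h1, h⟩)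
      rw [ap_inv] at h2
      exact h1 (g.injective h2).symm
  have hRc : R.card = t := by
    rw [hR, card_erase_of_mem hnot, card_compl, hT, Fintype.card_fin]
    omega
  have hTR : Disjoint T R := by
    rw [disjoint_left]
    intro i hi hi2
    exact (mem_compl.1 (mem_erase.1 hi2).2) hi
  have hcR : ∀ i ∈ R, ∀ j ∈ T, s i ≠ g j := by
    intro i hi j hj h
    by_cases hjx : j = x
    · subst hjx
      apply (mem_erase.1 hi).1
      rw [← h]
      exact (s.symm_apply_apply i).symm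
    · rw [← hsT j (mem_erase.2 ⟨hjx, hj⟩)] at h
      have := s.injective h
      subst this
      exact disjoint_left.1 hTR hj hi
  have hsub : A0 ⊆ (star g T).filter (fun σ => ∃ i ∈ R, σ i = s i) := by
    intro σ hσ
    obtain ⟨hσA, hσT⟩ := mem_filter.1 hσ
    refine mem_filter.2 ⟨mem_star.2 hσT, ?_⟩
    by_contra hcon
    push Not at hcon
    have h1 := hA σ hσA s hs
    have h2 : ag σ s ≤ (T.erase x).card := by
      unfold ag
      apply card_le_card
      intro i hi
      have hi2 := (mem_filter.1 hi).2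
      have hiT : i ∈ T := by
        by_contra hiT
        refine hcon i (mem_erase.2 ⟨?_, mem_compl.2 hiT⟩) hi2
        intro h
        have h3 : s i = g x := by rw [h, ap_inv]
        have h4 : σ i = σ x := by rw [hi2, h3, hσT x hx]
        have := σ.injective h4
        subst this
        exact hiT hx
      refine mem_erase.2 ⟨?_, hiT⟩
      rintro rfl
      exact hsx (by rw [← hi2, hσT i hx])
    rw [card_erase_of_mem hx, hT] at h2
    omega
  have h1 := hit_le hTR hcR
  have h2 := card_le_card hsub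
  rw [hT, hRc, show 2 * t + 1 - (t + 2) = t - 1 by omega, show 2 * t + 1 - (t + 1) = t by omega,
    show 2 * t + 1 - (t + 3) = t - 2 by omega] at h1
  have h3 : (A0.card : ℝ) + (t.choose 2 : ℝ) * ((t - 1).factorial : ℝ) ≤
      t * (t.factorial : ℝ) + (t.choose 3 : ℝ) * ((t - 2).factorial : ℝ) := by
    have : A0.card + t.choose 2 * (t - 1).factorial ≤
      t * t.factorial + t.choose 3 * (t - 2).factorial := by omega
    exact_mod_cast this
  obtain ⟨hf1, hf2, hf3⟩ := fac3 (t := t) (by omega)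
  have hc3 : (t.choose 3 : ℝ) = t * (t - 1) * (t - 2) / 6 := by
    have h4 := Nat.add_one_mul_choose_eq (t - 1) 2
    have h5 : t - 1 + 1 = t := by omega
    rw [h5] at h4
    have h6 : (t : ℝ) * ((t - 1).choose 2 : ℝ) = (t.choose 3 : ℝ) * 3 := by
      exact_mod_cast h4
    rw [Nat.cast_choose_two ℝ (t - 1), Nat.cast_sub (by omega : 1 ≤ t)] at h6
    push_cast at h6
    linarith
  rw [Nat.cast_choose_two ℝ t, hc3, hf2, hf3] at h3
  rw [hf1]
  have htR : (3 : ℝ) ≤ t := by exact_mod_cast ht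
  have h4 : (4 * (t : ℝ) + 1) / (6 * (t + 1)) * ((t + 1) * t * (t - 1) * ((t - 2).factorial : ℝ)) =
      (4 * (t : ℝ) + 1) / 6 * (t * (t - 1) * ((t - 2).factorial : ℝ)) := by
    field_simp
  rw [h4]
  linarith

/-- the endgame -/
theorem endgame : Endgame := by
  classical
  intro t β0 p0 β1 p1 β2 p2 b N hG0 hG1 hG2 hE hL hK
  have ht := N.ht
  have htR : (3 : ℝ) ≤ t := by exact_mod_cast ht
  apply holds_of_good
  intro A hA
  by_cases hF' : A.card < (2 * t + 1 - t).factorial
  · exact good_of_lt hF'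
  rw [not_lt, sub_eq] at hF'
  have hF : ((t + 1).factorial : ℝ) ≤ A.card := by exact_mod_cast hF'
  have hfac : (0 : ℝ) < ((t + 1).factorial : ℝ) := by exact_mod_cast Nat.factorial_pos _
  have ha0 : (0 : ℝ) < (A.card : ℝ) := lt_of_lt_of_le hfac hF
  have hne : A.Nonempty := by
    rw [← card_pos]
    exact_mod_cast ha0
  have hgap : ∀ x y, ((thr A x y).card : ℝ) ≤ β0 * A.card ∨
      p0 * A.card ≤ ((thr A x y).card : ℝ) :=
    hG0 A hA (by rw [sub_eq, one_mul]; exact hF)
  obtain ⟨g, T, hpop, hcard⟩ := exists_pop hne N.hp0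
  have hβ1 : β0 ≤ 1 := by nlinarith [N.ha, N.hb0]
  have h1 := pop_ge hA hne hβ1 hgap
  rw [hcard] at h1
  push_cast at h1
  have hT2 : 2 ≤ T.card := by
    by_contra hcon
    push Not at hcon
    have h2 : (T.card : ℝ) ≤ 1 := by exact_mod_cast (by omega : T.card ≤ 1)
    nlinarith [N.ha, N.hb0]
  by_cases hall : ∀ σ ∈ A, ∀ i ∈ T, σ i = g i
  · exact good_of_star rfl hK hT2 hA hall
  push Not at hall
  obtain ⟨s, hs, x, hx, hsx⟩ := hall
  -- no member misses two popular cells
  have hc : ∀ σ ∈ A, ∀ i ∈ T, ∀ j ∈ T, i ≠ j → σ i ≠ g i → σ j = g j := by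
    intro σ hσ i hi j hj hij h2
    by_contra h3
    exact step_c ht hA hF N.hb2 N.hp0 N.hC1 N.hC2 N.hC3 N.hC4 hG2 hij
      ((hpop i (g i)).2 ⟨hi, rfl⟩) ((hpop j (g j)).2 ⟨hj, rfl⟩) hσ h2 h3
  have hmiss : ∀ U ⊆ T, ∀ σ ∈ A, U.card ≤ (U.filter (fun i => σ i = g i)).card + 1 := by
    intro U hU σ hσ
    have h2 := card_filter_add_card_filter_not (s := U) (fun i => σ i = g i)
    have h3 : (U.filter (fun i => ¬ σ i = g i)).card ≤ 1 := by
      rw [card_le_one]
      intro i hi j hj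
      by_contra hij
      exact (mem_filter.1 hj).2
        (hc σ hσ i (hU (mem_filter.1 hi).1) j (hU (mem_filter.1 hj).1) hij (mem_filter.1 hi).2)
    omega
  rcases Nat.lt_or_ge T.card (t + 1) with hTc | hTc
  · -- y = t
    exfalso
    obtain ⟨H, hHT, hHc, hHcard⟩ := step_b (by omega) hA hF N.hb0 N.hb1 N.hp0 N.hB1 N.hB2 hgap hG1
      hpop hs hx hsx
    have h2 : H.card ≤ T.card - 1 := by
      rw [← card_erase_of_mem hx]
      exact card_le_card hHT
    have hTt : T.card = t := by omega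
    have hHeq : H = T.erase x := by
      apply eq_of_subset_of_card_le hHT
      rw [card_erase_of_mem hx]
      omega
    have h3 := hHcard (by omega)
    have hA0 : (thr A x (g x)).filter (fun σ => ∀ i ∈ H, σ i = g i) =
        A.filter (fun σ => ∀ i ∈ T, σ i = g i) := by
      ext σ
      unfold thr
      rw [mem_filter, mem_filter, mem_filter, hHeq]
      constructor
      · rintro ⟨⟨h4, h5⟩, h6⟩
        refine ⟨h4, fun i hi => ?_⟩
        by_cases hix : i = x
        · rw [hix, h5]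
        · exact h6 i (mem_erase.2 ⟨hix, hi⟩)
      · rintro ⟨h4, h5⟩
        exact ⟨⟨h4, h5 x hx⟩, fun i hi => h5 i (mem_erase.1 hi).2⟩
    rw [hA0] at h3
    have h4 := step_e ht hA hTt hs hx hsx (fun i hi => by
      by_contra h5
      exact (mem_erase.1 hi).1 (by
        by_contra h6
        exact hsx (hc s hs i (mem_erase.1 hi).2 x hx h6 h5)))
    set A0 := A.filter (fun σ => ∀ i ∈ T, σ i = g i) with hA0def
    have h2b : 0 ≤ 2 - β1 * t := by nlinarith [N.hB1, N.hb1]
    have h5 : (2 - β1 * t) * p0 * ((t + 1).factorial : ℝ) ≤ (A0.card : ℝ) := by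
      calc (2 - β1 * t) * p0 * ((t + 1).factorial : ℝ)
          = (2 - β1 * t) * (p0 * ((t + 1).factorial : ℝ)) := by ring
        _ ≤ (2 - β1 * t) * (p0 * A.card) :=
            mul_le_mul_of_nonneg_left (mul_le_mul_of_nonneg_left hF (by linarith [N.hp0])) h2b
        _ ≤ (2 - β1 * t) * ((thr A x (g x)).card : ℝ) :=
            mul_le_mul_of_nonneg_left ((hpop x (g x)).2 ⟨hx, rfl⟩) h2b
        _ ≤ _ := h3
    let W : Fin (2 * t + 1) → Finset (Perm (Fin (2 * t + 1))) := fun i =>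
      A.filter (fun σ => ∀ j ∈ T.erase i, σ j = g j)
    have h6 : ∀ i ∈ T, (((W i).filter (fun σ => σ i ≠ g i)).card : ℝ) ≤
        b * ((t + 1).factorial : ℝ) := by
      intro i hi
      have hthr : thr (W i) i (g i) = A0 := by
        ext σ
        change σ ∈ (A.filter (fun σ => ∀ j ∈ T.erase i, σ j = g j)).filter (fun σ => σ i = g i) ↔ _
        rw [mem_filter, mem_filter, hA0def, mem_filter]
        constructor
        · rintro ⟨⟨h4, h5⟩, h6⟩
          refine ⟨h4, fun j hj => ?_⟩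
          by_cases hji : j = i
          · rw [hji, h6]
          · exact h5 j (mem_erase.2 ⟨hji, hj⟩)
        · rintro ⟨h4, h5⟩
          exact ⟨⟨h4, fun j hj => h5 j (mem_erase.1 hj).2⟩, h5 i hi⟩
      have h7 := edge_star hE (n := 2 * t + 1) (k := t - 1) (by omega) (g := g) (T := T.erase i)
        (by rw [card_erase_of_mem hi, hTt]) (A := W i) (by
          intro σ hσ τ hτ
          have h8 := hA σ (mem_filter.1 hσ).1 τ (mem_filter.1 hτ).1
          omega) (fun σ hσ => (mem_filter.1 hσ).2) i (by simp) (by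
          rw [hthr, show 2 * t + 1 - (t - 1) - 1 = t + 1 by omega]
          exact h5)
      rw [show 2 * t + 1 - (t - 1) - 1 = t + 1 by omega] at h7
      exact h7
    have h7 : A ⊆ A0 ∪ T.biUnion (fun i => (W i).filter (fun σ => σ i ≠ g i)) := by
      intro σ hσ
      by_cases h8 : ∀ i ∈ T, σ i = g i
      · exact mem_union_left _ (mem_filter.2 ⟨hσ, h8⟩)
      · push Not at h8
        obtain ⟨i, hi, h9⟩ := h8
        refine mem_union_right _ (mem_biUnion.2 ⟨i, hi, mem_filter.2 ⟨mem_filter.2 ⟨hσ, ?_⟩, h9⟩⟩)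
        intro j hj
        exact hc σ hσ i hi j (mem_erase.1 hj).2 (fun h => (mem_erase.1 hj).1 h.symm) h9
    have h8 : (A.card : ℝ) ≤ A0.card + t * (b * ((t + 1).factorial : ℝ)) := by
      have h9 : A.card ≤ A0.card + ∑ i ∈ T, ((W i).filter (fun σ => σ i ≠ g i)).card :=
        le_trans (card_le_card h7) (le_trans (card_union_le _ _)
          (Nat.add_le_add_left card_biUnion_le _))
      have h10 : (A.card : ℝ) ≤ A0.card + ∑ i ∈ T, (((W i).filter (fun σ => σ i ≠ g i)).card : ℝ) := by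
        exact_mod_cast h9
      have h11 : ∑ i ∈ T, (((W i).filter (fun σ => σ i ≠ g i)).card : ℝ) ≤
          ∑ i ∈ T, b * ((t + 1).factorial : ℝ) := sum_le_sum h6
      rw [sum_const, hTt, nsmul_eq_mul] at h11
      linarith
    have h9 := N.hE
    nlinarith
  · -- y ≥ t + 1
    obtain ⟨U, hUT, hUc⟩ := exists_subset_card_eq hTc
    obtain ⟨h2, h3⟩ := hL A g U hUc hA (fun σ hσ => by
      have := hmiss U hUT σ hσ
      omega)
    refine ⟨by rw [sub_eq]; exact h2, fun heq => ?_⟩
    rw [sub_eq] at heq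
    obtain ⟨y, hy, h4⟩ := h3 heq
    exact ⟨g, U.erase y, by rw [card_erase_of_mem hy]; omega, h4⟩

end Pool.EG
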