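import Pool.Agent.Work.MP_46fa68_76.EndC

/-! # endgame: `y = t` without an edge certificate (helper76, after helper86's (e')) -/

set_option autoImplicit false

open Finset Equiv

namespace Pool.EG

/-- (e'): at least `t - 1` of the `t` popular cells are missed, each by many members, no member misses two -/
theorem missed_many {t : ℕ} (ht : 3 ≤ t) {A : Finset (Perm (Fin (2 * t + 1)))} (hA : TInt t A)
    (hK : ∀ n' t' : ℕ, 2 * t' + 3 ≤ n' → Holds n' t')
    {g : Perm (Fin (2 * t + 1))} {T : Finset (Fin (2 * t + 1))} (hT : T.card = t)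
    (hmiss : ∀ s ∈ A, ∀ i ∈ T, ∀ j ∈ T, i ≠ j → s i ≠ g i → s j = g j)
    {k φ p0 F : ℝ} (hk : 0 < k) (hφ : 0 ≤ φ) (hF0 : 0 < F) (hF : F ≤ (A.card : ℝ))
    (h1 : ∀ x ∈ T, ∀ s ∈ A, s x ≠ g x → k * ((thr A x (g x)).card : ℝ) ≤ φ * F)
    (h2 : (∃ x ∈ T, ∃ s ∈ A, s x ≠ g x) →
      k * p0 * (A.card : ℝ) ≤ ((A.filter (fun s => ∀ i ∈ T, s i = g i)).card : ℝ))
    (hnum : 1 < k * p0 + ((t : ℝ) - 1) * (1 - φ / k)) : Good t A := by
  classical
  have htR : (3 : ℝ) ≤ t := by exact_mod_cast ht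
  set M : Finset (Fin (2 * t + 1)) := T.filter (fun x => ∃ s ∈ A, s x ≠ g x) with hM
  rcases Nat.lt_or_ge (T \ M).card 2 with h3 | h3
  · exfalso
    have hMc : t ≤ M.card + 1 := by
      have hMT : M ⊆ T := filter_subset _ T
      have h4 := card_sdiff_add_card_eq_card hMT
      omega
    have hMcR : (t : ℝ) - 1 ≤ M.card := by
      have : (t : ℝ) ≤ M.card + 1 := by exact_mod_cast hMc
      linarith
    have hMne : M.Nonempty := by
      rw [← card_pos]
      omega
    obtain ⟨x0, hx0⟩ := hMne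
    obtain ⟨hx0T, s0, hs0, hs0x⟩ := mem_filter.1 hx0
    have h4 := h2 ⟨x0, hx0T, s0, hs0, hs0x⟩
    set A0 := A.filter (fun s => ∀ i ∈ T, s i = g i) with hA0
    set a : ℝ := (A.card : ℝ) with ha
    have ha0 : 0 < a := lt_of_lt_of_le hF0 hF
    -- the members missing x
    let V : Fin (2 * t + 1) → Finset (Perm (Fin (2 * t + 1))) := fun x => A.filter (fun s => s x ≠ g x)
    have hV : ∀ x ∈ M, a * (1 - φ / k) ≤ ((V x).card : ℝ) := by
      intro x hx
      obtain ⟨hxT, s, hs, hsx⟩ := mem_filter.1 hx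
      have h5 := h1 x hxT s hs hsx
      have h6 : (thr A x (g x)).card + (V x).card = A.card :=
        card_filter_add_card_filter_not (s := A) (fun s => s x = g x)
      have h7 : ((thr A x (g x)).card : ℝ) + ((V x).card : ℝ) = a := by
        rw [ha]; exact_mod_cast h6
      have h8 : ((thr A x (g x)).card : ℝ) ≤ φ / k * a := by
        rw [div_mul_eq_mul_div, le_div_iff₀ hk, mul_comm]
        exact h5.trans (mul_le_mul_of_nonneg_left hF hφ)
      nlinarith
    have hdis : ∀ x ∈ M, ∀ y ∈ M, x ≠ y → Disjoint (V x) (V y) := by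
      intro x hx y hy hxy
      rw [disjoint_left]
      intro s hs hs2
      obtain ⟨hsA, hsx⟩ := mem_filter.1 hs
      exact (mem_filter.1 hs2).2
        (hmiss s hsA x (mem_filter.1 hx).1 y (mem_filter.1 hy).1 hxy hsx)
    have h5 : (M.biUnion V).card = ∑ x ∈ M, (V x).card := card_biUnion hdis
    have h6 : A0.card + (M.biUnion V).card ≤ A.card := by
      rw [← card_union_of_disjoint]
      · apply card_le_card
        intro s hs
        rcases mem_union.1 hs with h | h
        · exact (mem_filter.1 h).1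
        · obtain ⟨x, _, h⟩ := mem_biUnion.1 h
          exact (mem_filter.1 h).1
      · rw [disjoint_left]
        intro s hs hs2
        obtain ⟨x, hx, h⟩ := mem_biUnion.1 hs2
        exact (mem_filter.1 h).2 ((mem_filter.1 hs).2 x (mem_filter.1 hx).1)
    have h7 : ((M.card : ℕ) : ℝ) * (a * (1 - φ / k)) ≤ ∑ x ∈ M, ((V x).card : ℝ) := by
      rw [← nsmul_eq_mul, ← sum_const]
      exact sum_le_sum hV
    have h8 : (A0.card : ℝ) + ∑ x ∈ M, ((V x).card : ℝ) ≤ a := by
      rw [ha]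
      rw [h5] at h6
      exact_mod_cast h6
    have h9 : (A0.card : ℝ) ≤ a := by
      have : (0 : ℝ) ≤ ∑ x ∈ M, ((V x).card : ℝ) := sum_nonneg fun x _ => Nat.cast_nonneg _
      linarith
    by_cases h10 : 0 ≤ 1 - φ / k
    · have h11 : ((t : ℝ) - 1) * (a * (1 - φ / k)) ≤ (M.card : ℝ) * (a * (1 - φ / k)) :=
        mul_le_mul_of_nonneg_right hMcR (mul_nonneg ha0.le h10)
      have h12 : a * 1 < a * (k * p0 + ((t : ℝ) - 1) * (1 - φ / k)) :=
        mul_lt_mul_of_pos_left hnum ha0
      nlinarith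
    · push Not at h10
      have h11 : ((t : ℝ) - 1) * (1 - φ / k) ≤ 0 :=
        mul_nonpos_of_nonneg_of_nonpos (by linarith) h10.le
      have h12 : a * 1 < a * (k * p0) := mul_lt_mul_of_pos_left (by linarith) ha0
      nlinarith
  · refine good_of_star (g := g) (T := T \ M) rfl hK h3 hA ?_
    intro σ hσ i hi
    obtain ⟨hiT, hiM⟩ := mem_sdiff.1 hi
    by_contra hcon
    exact hiM (mem_filter.2 ⟨hiT, σ, hσ, hcon⟩)

end Pool.EG
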