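import Pool.Agent.Work.MP_46fa68_76.EndC

/-! # endgame, `y = t`: a missed popular cell of large density (helper76) -/

set_option autoImplicit false

open Finset Equiv

namespace Pool.EG

/-- (e''): if `y = t` and no member misses two popular cells, the best missed cell `x` has
`|A_x| ≥ ((t - 2) |A| + |A_0|) / (t - 1)`, `A_0` = the members containing all popular cells. So the gap one level
below is needed for the step (e) only for families of this size. -/
theorem big_missed {t : ℕ} (ht : 3 ≤ t) {A : Finset (Perm (Fin (2 * t + 1)))} (hA : TInt t A)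
    (hK : ∀ n' t' : ℕ, 2 * t' + 3 ≤ n' → Holds n' t')
    {g : Perm (Fin (2 * t + 1))} {T : Finset (Fin (2 * t + 1))} (hT : T.card = t)
    (hmiss : ∀ s ∈ A, ∀ i ∈ T, ∀ j ∈ T, i ≠ j → s i ≠ g i → s j = g j) :
    Good t A ∨ ∃ x ∈ T, (∃ s ∈ A, s x ≠ g x) ∧
      ((t : ℝ) - 2) * (A.card : ℝ) + ((A.filter (fun s => ∀ i ∈ T, s i = g i)).card : ℝ) ≤
        ((t : ℝ) - 1) * ((thr A x (g x)).card : ℝ) := by
  classical
  have htR : (3 : ℝ) ≤ t := by exact_mod_cast ht
  set M : Finset (Fin (2 * t + 1)) := T.filter (fun x => ∃ s ∈ A, s x ≠ g x) with hM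
  have hMT : M ⊆ T := filter_subset _ T
  rcases Nat.lt_or_ge (T \ M).card 2 with h3 | h3
  · right
    have hMc : t ≤ M.card + 1 := by
      have h4 := card_sdiff_add_card_eq_card hMT
      omega
    have hMcR : (t : ℝ) - 1 ≤ M.card := by
      have : (t : ℝ) ≤ M.card + 1 := by exact_mod_cast hMc
      linarith
    have hMne : M.Nonempty := by
      rw [← card_pos]
      omega
    set A0 := A.filter (fun s => ∀ i ∈ T, s i = g i) with hA0
    set a : ℝ := (A.card : ℝ) with ha
    have ha0 : 0 ≤ a := Nat.cast_nonneg _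
    let V : Fin (2 * t + 1) → Finset (Perm (Fin (2 * t + 1))) := fun x => A.filter (fun s => s x ≠ g x)
    have hV : ∀ x, ((V x).card : ℝ) = a - ((thr A x (g x)).card : ℝ) := by
      intro x
      have h6 : (thr A x (g x)).card + (V x).card = A.card :=
        card_filter_add_card_filter_not (s := A) (fun s => s x = g x)
      have h7 : ((thr A x (g x)).card : ℝ) + ((V x).card : ℝ) = a := by
        rw [ha]; exact_mod_cast h6
      linarith
    have hdis : ∀ x ∈ M, ∀ y ∈ M, x ≠ y → Disjoint (V x) (V y) := by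
      intro x hx y hy hxy
      rw [disjoint_left]
      intro s hs hs2
      obtain ⟨hsA, hsx⟩ := mem_filter.1 hs
      exact (mem_filter.1 hs2).2 (hmiss s hsA x (hMT hx) y (hMT hy) hxy hsx)
    have h5 : (M.biUnion V).card = ∑ x ∈ M, (V x).card := card_biUnion hdis
    have h6 : A0.card + (M.biUnion V).card ≤ A.card := by
      rw [← card_union_of_disjoint]
      · apply card_le_card
        intro s hs
        rcases mem_union.1 hs with h | h
        · exact (mem_filter.1 h).1
        · obtain ⟨x, _, h⟩ := mem_biUnion.1 h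
          exact (mem_filter.1 h).1
      · rw [disjoint_left]
        intro s hs hs2
        obtain ⟨x, hx, h⟩ := mem_biUnion.1 hs2
        exact (mem_filter.1 h).2 ((mem_filter.1 hs).2 x (hMT hx))
    have h8 : (A0.card : ℝ) + ∑ x ∈ M, ((V x).card : ℝ) ≤ a := by
      rw [ha]
      rw [h5] at h6
      exact_mod_cast h6
    have hA0a : (A0.card : ℝ) ≤ a := by
      rw [ha]; exact_mod_cast card_filter_le _ _
    -- the best cell
    by_contra hcon
    push Not at hcon
    have h9 : ∀ x ∈ M, ((t : ℝ) - 1) * ((thr A x (g x)).card : ℝ) < (t - 2) * a + A0.card := by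
      intro x hx
      obtain ⟨hxT, hs⟩ := mem_filter.1 hx
      exact hcon x hxT hs
    have h10 : ∑ x ∈ M, (((t : ℝ) - 1) * ((thr A x (g x)).card : ℝ)) <
        ∑ x ∈ M, ((t - 2) * a + (A0.card : ℝ)) := sum_lt_sum_of_nonempty hMne h9
    rw [sum_const, nsmul_eq_mul, ← mul_sum] at h10
    have h11 : ∑ x ∈ M, ((thr A x (g x)).card : ℝ) = M.card * a - ∑ x ∈ M, ((V x).card : ℝ) := by
      have h12 : ∀ x ∈ M, ((thr A x (g x)).card : ℝ) = a - ((V x).card : ℝ) := by
        intro x _
        rw [hV x]
        ring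
      rw [sum_congr rfl h12, sum_sub_distrib, sum_const, nsmul_eq_mul]
    rw [h11] at h10
    have h12 : 0 ≤ (M.card - ((t : ℝ) - 1)) * (a - A0.card) :=
      mul_nonneg (by linarith) (by linarith)
    nlinarith
  · left
    refine good_of_star (g := g) (T := T \ M) rfl hK h3 hA ?_
    intro σ hσ i hi
    obtain ⟨hiT, hiM⟩ := mem_sdiff.1 hi
    by_contra hcon
    exact hiM (mem_filter.2 ⟨hiT, σ, hσ, hcon⟩)

end Pool.EG
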