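import Pool.Agent.Work.MP_46fa68_86.EndM2

/-! # endgame through the levels 0 and 2 (helper76, on top of helper86's EndM, EndM2)

Nothing is needed one level below.  Step (b) is done inside two popular cells, one missed and one contained; step (e)
inside the best pair of popular cells, one of them missed. -/

set_option autoImplicit false

open Finset Equiv

namespace Pool.EG

variable {t : ℕ}

/-- density at most `β` of the unpopular cells inside two popular cells with at least `θ |A|` common members -/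
def LowAt2 {n : ℕ} (A : Finset (Perm (Fin n))) (g : Perm (Fin n)) (T : Finset (Fin n)) (θ β : ℝ) : Prop :=
  ∀ x ∈ T, ∀ x' ∈ T, x ≠ x' → θ * A.card ≤ ((thr A x (g x) ∩ thr A x' (g x')).card : ℝ) →
    ∀ i j : Fin n, ¬ (i ∈ T ∧ j = g i) →
      ((thr (thr A x (g x) ∩ thr A x' (g x')) i j).card : ℝ) ≤
        β * ((thr A x (g x) ∩ thr A x' (g x')).card : ℝ)

/-- any two popular cells have many common members -/
def PairGe {n : ℕ} (A : Finset (Perm (Fin n))) (g : Perm (Fin n)) (T : Finset (Fin n)) (θ : ℝ) : Prop :=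
  ∀ x ∈ T, ∀ x' ∈ T, x ≠ x' → θ * A.card ≤ ((thr A x (g x) ∩ thr A x' (g x')).card : ℝ)

/-- members of `X` all contain the cell `(x, g x)` which `s` misses -/
theorem step_X (ht : 1 ≤ t) {A : Finset (Perm (Fin (2 * t + 1)))} (hA : TInt t A) {β : ℝ}
    (hb : 0 ≤ β)
    {g : Perm (Fin (2 * t + 1))} {T : Finset (Fin (2 * t + 1))}
    {s : Perm (Fin (2 * t + 1))} (hs : s ∈ A) {x : Fin (2 * t + 1)}
    {X : Finset (Perm (Fin (2 * t + 1)))} (hXA : ∀ σ ∈ X, σ ∈ A ∧ σ x = g x)
    (hL : ∀ i j : Fin (2 * t + 1), ¬ (i ∈ T ∧ j = g i) → ((thr X i j).card : ℝ) ≤ β * X.card)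
    (hsx : s x ≠ g x) :
    ((T.filter (fun i => s i = g i)).card + 1 = t →
        (2 - β * t) * (X.card : ℝ) ≤
          ((X.filter (fun σ => (∀ i ∈ T.filter (fun i => s i = g i), σ i = s i) ∧
            ((((univ.erase x).erase (s⁻¹ (g x))) \ T.filter (fun i => s i = g i)).filter
              (fun i => σ i = s i)).card = 1)).card : ℝ)) ∧
      (β * (t + 1) < 2 → X.Nonempty → t ≤ (T.filter (fun i => s i = g i)).card + 1) ∧
      (β * (2 * t - 1) < t → X.Nonempty → (T.filter (fun i => s i = g i)).Nonempty) := by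
  classical
  set R : Finset (Fin (2 * t + 1)) := (univ.erase x).erase (s⁻¹ (g x)) with hR
  set H : Finset (Fin (2 * t + 1)) := T.filter (fun i => s i = g i) with hH
  have hne' : s⁻¹ (g x) ≠ x := by
    intro h
    apply hsx
    rw [← h, ap_inv, h]
  have hRc : R.card ≤ 2 * t - 1 := by
    rw [hR, card_erase_of_mem (mem_erase.2 ⟨hne', mem_univ _⟩), card_erase_of_mem (mem_univ _),
      card_univ, Fintype.card_fin]
    omega
  have hXR : ∀ σ ∈ X, t ≤ (R.filter (fun i => σ i = s i)).card := by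
    intro σ hσ
    refine le_trans (hA σ (hXA σ hσ).1 s hs) ?_
    unfold ag
    apply card_le_card
    intro i hi
    have hi2 := (mem_filter.1 hi).2
    refine mem_filter.2 ⟨mem_erase.2 ⟨?_, mem_erase.2 ⟨?_, mem_univ _⟩⟩, hi2⟩
    · intro h
      have h1 : s i = g x := by rw [h, ap_inv]
      have h2 : σ i = σ x := by rw [hi2, h1, (hXA σ hσ).2]
      have h3 := σ.injective h2
      apply hsx
      rw [← h1, h3]
    · rintro rfl
      apply hsx
      rw [← hi2, (hXA σ hσ).2]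
  have hHR : H ⊆ R := by
    intro i hi
    obtain ⟨hiT, hig⟩ := mem_filter.1 hi
    have hix : i ≠ x := by
      rintro rfl
      exact hsx hig
    refine mem_erase.2 ⟨?_, mem_erase.2 ⟨hix, mem_univ _⟩⟩
    intro h
    have h1 : s i = g x := by rw [h, ap_inv]
    rw [h1] at hig
    exact hix (g.injective hig).symm
  have hgapX : ∀ i ∈ R, i ∉ H → ((thr X i (s i)).card : ℝ) ≤ β * X.card := by
    intro i hi hiH
    apply hL i (s i)
    rintro ⟨h1, h2⟩
    exact hiH (mem_filter.2 ⟨h1, h2⟩)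
  refine ⟨fun hcard => core_eq1 hRc hHR hcard hXR hgapX hb,
    fun hB hne => core_H hRc ht hHR hXR hgapX hb hB hne, fun hB hne => ?_⟩
  by_contra hcon
  rw [not_nonempty_iff_eq_empty] at hcon
  set a : ℝ := (X.card : ℝ) with ha
  have ha0 : 0 < a := by rw [ha]; exact_mod_cast card_pos.2 hne
  have h1 : (t : ℝ) * a ≤ ∑ i ∈ R, ((thr X i (s i)).card : ℝ) := by
    have h2 : t * X.card ≤ ∑ i ∈ R, (thr X i (s i)).card := by
      rw [sum_thr_hits]
      calc t * X.card = ∑ σ ∈ X, t := by rw [sum_const, smul_eq_mul, mul_comm]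
        _ ≤ _ := sum_le_sum hXR
    rw [ha]
    exact_mod_cast h2
  have h2 : ∑ i ∈ R, ((thr X i (s i)).card : ℝ) ≤ R.card * (β * a) := by
    calc ∑ i ∈ R, ((thr X i (s i)).card : ℝ) ≤ ∑ i ∈ R, β * a :=
          sum_le_sum fun i hi => hgapX i hi (by rw [hcon]; exact notMem_empty _)
      _ = R.card * (β * a) := by rw [sum_const, nsmul_eq_mul]
  have h3 : (R.card : ℝ) ≤ 2 * t - 1 := by
    have : R.card + 1 ≤ 2 * t := by omega
    have : (R.card : ℝ) + 1 ≤ 2 * t := by exact_mod_cast this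
    linarith
  have h4 : (R.card : ℝ) * (β * a) ≤ (2 * t - 1) * (β * a) :=
    mul_le_mul_of_nonneg_right h3 (mul_nonneg hb ha0.le)
  have h5 : β * (2 * t - 1) * a < t * a := mul_lt_mul_of_pos_right hB ha0
  nlinarith

/-- (b) at level two -/
theorem step_b2 (ht : 1 ≤ t) {A : Finset (Perm (Fin (2 * t + 1)))} (hA : TInt t A) {β1 β2 : ℝ}
    (hb1 : 0 ≤ β1) (hb2 : 0 ≤ β2) (hB1 : β1 * (2 * t - 1) < t) (hB2 : β2 * (t + 1) < 2)
    {g : Perm (Fin (2 * t + 1))} {T : Finset (Fin (2 * t + 1))} (hL1 : Low1 A g T β1)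
    (hL2 : Low2 A g T β2)
    {s : Perm (Fin (2 * t + 1))} (hs : s ∈ A) {x : Fin (2 * t + 1)} (hx : x ∈ T)
    (hsx : s x ≠ g x) (hne : (thr A x (g x)).Nonempty)
    (hne2 : ∀ x' ∈ T, x ≠ x' → (thr A x (g x) ∩ thr A x' (g x')).Nonempty) :
    t ≤ (T.filter (fun i => s i = g i)).card + 1 := by
  classical
  have h1 := (step_X ht hA hb1 (T := T) hs (X := thr A x (g x)) (fun σ hσ => mem_filter.1 hσ)
    (fun i j hij => hL1 x hx i j hij) hsx).2.2 hB1 hne
  obtain ⟨x', hx'⟩ := h1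
  obtain ⟨hx'T, hsx'⟩ := mem_filter.1 hx'
  have hxx : x ≠ x' := by
    rintro rfl
    exact hsx hsx'
  exact (step_X ht hA hb2 (T := T) hs (X := thr A x (g x) ∩ thr A x' (g x'))
    (fun σ hσ => mem_filter.1 (mem_inter.1 hσ).1)
    (fun i j hij => hL2 x hx x' hx'T hxx i j hij) hsx).2.1 hB2 (hne2 x' hx'T hxx)

/-- `t` popular cells, nobody misses two: a pair of popular cells, one missed, with many common members -/
theorem big_pair (ht : 3 ≤ t) {A : Finset (Perm (Fin (2 * t + 1)))} (hA : TInt t A)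
    (hK : ∀ n' t' : ℕ, 2 * t' + 3 ≤ n' → Holds n' t')
    {g : Perm (Fin (2 * t + 1))} {T : Finset (Fin (2 * t + 1))} (hT : T.card = t)
    (hmiss : ∀ s ∈ A, ∀ i ∈ T, ∀ j ∈ T, i ≠ j → s i ≠ g i → s j = g j) :
    Good t A ∨ ∃ x ∈ T, ∃ x' ∈ T, x ≠ x' ∧ (∃ s ∈ A, s x ≠ g x) ∧
      ((t : ℝ) - 2) * (A.card : ℝ) + 2 * ((A.filter (fun s => ∀ i ∈ T, s i = g i)).card : ℝ) ≤
        (t : ℝ) * ((thr A x (g x) ∩ thr A x' (g x')).card : ℝ) := by
  classical
  have htR : (3 : ℝ) ≤ t := by exact_mod_cast ht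
  set M : Finset (Fin (2 * t + 1)) := T.filter (fun x => ∃ s ∈ A, s x ≠ g x) with hM
  have hMT : M ⊆ T := filter_subset _ T
  rcases Nat.lt_or_ge (T \ M).card 2 with h3 | h3
  · right
    set A0 := A.filter (fun s => ∀ i ∈ T, s i = g i) with hA0
    let V : Fin (2 * t + 1) → Finset (Perm (Fin (2 * t + 1))) := fun x => A.filter (fun s => s x ≠ g x)
    have hdis : ∀ x ∈ T, ∀ y ∈ T, x ≠ y → Disjoint (V x) (V y) := by
      intro x hx y hy hxy
      rw [disjoint_left]
      intro s hs hs2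
      obtain ⟨hsA, hsx⟩ := mem_filter.1 hs
      exact (mem_filter.1 hs2).2 (hmiss s hsA x hx y hy hxy hsx)
    have h5 : (T.biUnion V).card = ∑ x ∈ T, (V x).card := card_biUnion hdis
    have h6 : A0.card + (T.biUnion V).card ≤ A.card := by
      rw [← card_union_of_disjoint]
      · apply card_le_card
        intro s hs
        rcases mem_union.1 hs with h | h
        · exact (mem_filter.1 h).1
        · obtain ⟨x, _, h⟩ := mem_biUnion.1 h
          exact (mem_filter.1 h).1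
      · rw [disjoint_left]
        intro s hs hs2
        obtain ⟨x, hx, h⟩ := mem_biUnion.1 hs2
        exact (mem_filter.1 h).2 ((mem_filter.1 hs).2 x hx)
    have h8 : (A0.card : ℝ) + ∑ x ∈ T, ((V x).card : ℝ) ≤ (A.card : ℝ) := by
      rw [h5] at h6
      exact_mod_cast h6
    -- the two cells missed least
    obtain ⟨x1, hx1, hmin1⟩ := exists_min_image T (fun x => ((V x).card : ℝ))
      (card_pos.1 (by omega))
    obtain ⟨x2, hx2, hmin2⟩ := exists_min_image (T.erase x1) (fun x => ((V x).card : ℝ))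
      (card_pos.1 (by rw [card_erase_of_mem hx1]; omega))
    obtain ⟨hx21, hx2T⟩ := mem_erase.1 hx2
    have h9 : (t : ℝ) * ((V x1).card : ℝ) ≤ ∑ x ∈ T, ((V x).card : ℝ) := by
      calc (t : ℝ) * ((V x1).card : ℝ) = ∑ x ∈ T, ((V x1).card : ℝ) := by
            rw [sum_const, hT, nsmul_eq_mul]
        _ ≤ _ := sum_le_sum hmin1
    have h10 : ((t : ℝ) - 1) * ((V x2).card : ℝ) + ((V x1).card : ℝ) ≤
        ∑ x ∈ T, ((V x).card : ℝ) := by
      rw [← sum_erase_add _ _ hx1]
      have h11 : ((t : ℝ) - 1) * ((V x2).card : ℝ) ≤ ∑ x ∈ T.erase x1, ((V x).card : ℝ) := by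
        calc ((t : ℝ) - 1) * ((V x2).card : ℝ) = ∑ x ∈ T.erase x1, ((V x2).card : ℝ) := by
              rw [sum_const, card_erase_of_mem hx1, hT, nsmul_eq_mul, Nat.cast_sub (by omega)]
              simp
          _ ≤ _ := sum_le_sum hmin2
      linarith
    have h11 : (thr A x1 (g x1) ∩ thr A x2 (g x2)).card + (V x1).card + (V x2).card = A.card := by
      have h12 := card_filter_add_card_filter_not (s := A) (fun s => s x1 = g x1)
      have h13 := card_filter_add_card_filter_not (s := thr A x1 (g x1)) (fun s => s x2 = g x2)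
      have h14 : (thr A x1 (g x1)).filter (fun s => s x2 = g x2) =
          thr A x1 (g x1) ∩ thr A x2 (g x2) := by
        ext s
        rw [mem_inter, mem_filter]
        constructor
        · rintro ⟨h3, h4⟩
          exact ⟨h3, mem_filter.2 ⟨(mem_filter.1 h3).1, h4⟩⟩
        · rintro ⟨h3, h4⟩
          exact ⟨h3, (mem_filter.1 h4).2⟩
      have h15 : (thr A x1 (g x1)).filter (fun s => ¬ s x2 = g x2) = V x2 := by
        ext s
        rw [mem_filter]
        constructor
        · rintro ⟨h3, h4⟩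
          exact mem_filter.2 ⟨(mem_filter.1 h3).1, h4⟩
        · intro h3
          obtain ⟨h4, h5⟩ := mem_filter.1 h3
          exact ⟨mem_filter.2 ⟨h4, hmiss s h4 x2 hx2T x1 hx1 hx21 h5⟩, h5⟩
      rw [h14, h15] at h13
      have h16 : (thr A x1 (g x1)).card + (V x1).card = A.card := h12
      omega
    have h12 : ((thr A x1 (g x1) ∩ thr A x2 (g x2)).card : ℝ) + ((V x1).card : ℝ) +
        ((V x2).card : ℝ) = (A.card : ℝ) := by exact_mod_cast h11
    set W := ∑ x ∈ T, ((V x).card : ℝ) with hW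
    -- t (v1 + v2) ≤ 2 W
    have h13 : (t : ℝ) * (((V x1).card : ℝ) + ((V x2).card : ℝ)) ≤ 2 * W := by
      have h14 : ((t : ℝ) - 1) * ((t : ℝ) * (((V x1).card : ℝ) + ((V x2).card : ℝ))) ≤
          ((t : ℝ) - 1) * (2 * W) := by
        have h15 : (t : ℝ) * (((t : ℝ) - 1) * ((V x2).card : ℝ) + ((V x1).card : ℝ)) ≤ t * W :=
          mul_le_mul_of_nonneg_left h10 (by linarith)
        have h16 : ((t : ℝ) - 2) * ((t : ℝ) * ((V x1).card : ℝ)) ≤ (t - 2) * W :=
          mul_le_mul_of_nonneg_left h9 (by linarith)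
        nlinarith
      exact le_of_mul_le_mul_left h14 (by linarith)
    have h14 : ((t : ℝ) - 2) * (A.card : ℝ) + 2 * (A0.card : ℝ) ≤
        (t : ℝ) * ((thr A x1 (g x1) ∩ thr A x2 (g x2)).card : ℝ) := by
      have h15 : ((thr A x1 (g x1) ∩ thr A x2 (g x2)).card : ℝ) =
          (A.card : ℝ) - (((V x1).card : ℝ) + ((V x2).card : ℝ)) := by linarith
      rw [h15, mul_sub]
      linarith
    -- one of the two is missed
    by_cases hm : x1 ∈ M
    · exact ⟨x1, hx1, x2, hx2T, hx21.symm, (mem_filter.1 hm).2, h14⟩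
    · have hm2 : x2 ∈ M := by
        by_contra hcon
        have h15 : ({x1, x2} : Finset (Fin (2 * t + 1))) ⊆ T \ M := by
          intro i hi
          rw [mem_insert, mem_singleton] at hi
          rcases hi with rfl | rfl
          · exact mem_sdiff.2 ⟨hx1, hm⟩
          · exact mem_sdiff.2 ⟨hx2T, hcon⟩
        have h16 := card_le_card h15
        rw [card_pair hx21.symm] at h16
        omega
      refine ⟨x2, hx2T, x1, hx1, hx21, (mem_filter.1 hm2).2, ?_⟩
      rw [inter_comm]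
      exact h14
  · left
    refine good_of_star (g := g) (T := T \ M) rfl hK h3 hA ?_
    intro σ hσ i hi
    obtain ⟨hiT, hiM⟩ := mem_sdiff.1 hi
    by_contra hcon
    exact hiM (mem_filter.2 ⟨hiT, σ, hσ, hcon⟩)

/-- (e) at level two -/
theorem step_eH (ht : 5 ≤ t) {A : Finset (Perm (Fin (2 * t + 1)))} (hA : TInt t A)
    (hF : ((t + 1).factorial : ℝ) ≤ A.card)
    (hK : ∀ n' t' : ℕ, 2 * t' + 3 ≤ n' → Holds n' t')
    {β2 βs θs : ℝ} (hb2 : 0 ≤ β2) (hbs : 0 ≤ βs) (hθs : 0 < θs)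
    {g : Perm (Fin (2 * t + 1))} {T : Finset (Fin (2 * t + 1))} (hT : T.card = t)
    (hL2 : Low2 A g T β2) (hLs : LowAt2 A g T θs βs) (hN : NoTwo A g T)
    (h1 : θs * ((t : ℝ) - 2 * (2 - β2 * t)) ≤ t - 2) (h2 : phi t < (2 - βs * t) * θs) :
    Good t A := by
  classical
  have htR : (5 : ℝ) ≤ t := by exact_mod_cast ht
  have hfac : (0 : ℝ) < ((t + 1).factorial : ℝ) := by exact_mod_cast Nat.factorial_pos _
  have ha0 : (0 : ℝ) < (A.card : ℝ) := lt_of_lt_of_le hfac hF
  rcases big_pair (by omega) hA hK hT hN with h | ⟨x, hx, x', hx', hxx, ⟨s, hs, hsx⟩, hbig⟩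
  · exact h
  exfalso
  set A0 := A.filter (fun σ => ∀ i ∈ T, σ i = g i) with hA0
  set X := thr A x (g x) ∩ thr A x' (g x') with hX
  have hXA : ∀ σ ∈ X, σ ∈ A ∧ σ x = g x := fun σ hσ => mem_filter.1 (mem_inter.1 hσ).1
  have hfil : T.filter (fun i => s i = g i) = T.erase x := by
    ext i
    rw [mem_filter, mem_erase]
    constructor
    · rintro ⟨h1, h2⟩
      refine ⟨?_, h1⟩
      rintro rfl
      exact hsx h2
    · rintro ⟨h1, h2⟩
      exact ⟨h2, hN s hs x hx i h2 (fun h => h1 h.symm) hsx⟩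
  have hcard : (T.filter (fun i => s i = g i)).card + 1 = t := by
    rw [hfil, card_erase_of_mem hx]
    omega
  have hsT : ∀ i ∈ T.erase x, s i = g i := by
    intro i hi
    rw [← hfil] at hi
    exact (mem_filter.1 hi).2
  have h5 : (((univ.erase x).erase (s⁻¹ (g x))) \ T.erase x) = Tᶜ.erase (s⁻¹ (g x)) := by
    ext i
    simp only [mem_sdiff, mem_erase, mem_compl, mem_univ, and_true]
    constructor
    · rintro ⟨⟨h6, h7⟩, h8⟩
      exact ⟨h6, fun h9 => h8 ⟨h7, h9⟩⟩
    · rintro ⟨h6, h7⟩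
      refine ⟨⟨h6, ?_⟩, fun h8 => h7 h8.2⟩
      rintro rfl
      exact h7 hx
  have hin : ∀ σ ∈ X, (∀ i ∈ T.erase x, σ i = s i) → σ ∈ A0 := by
    intro σ hσ h6
    obtain ⟨h7, h8⟩ := hXA σ hσ
    refine mem_filter.2 ⟨h7, fun i hi => ?_⟩
    by_cases hix : i = x
    · rw [hix, h8]
    · rw [h6 i (mem_erase.2 ⟨hix, hi⟩), hsT i (mem_erase.2 ⟨hix, hi⟩)]
  -- the count for any density bound
  have hgen : ∀ β : ℝ, 0 ≤ β → (∀ i j : Fin (2 * t + 1), ¬ (i ∈ T ∧ j = g i) →
      ((thr X i j).card : ℝ) ≤ β * (X.card : ℝ)) →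
      (2 - β * t) * (X.card : ℝ) ≤ phi t * ((t + 1).factorial : ℝ) ∧
      (2 - β * t) * (X.card : ℝ) ≤ (A0.card : ℝ) := by
    intro β hβ hL
    have h4 := (step_X (by omega) hA hβ (T := T) hs hXA hL hsx).1 hcard
    rw [hfil, h5] at h4
    constructor
    · refine h4.trans ?_
      have h6 := step_e1 ht hT hx hsx hsT
      unfold phi
      refine le_trans ?_ h6
      have h7 : (X.filter (fun σ => (∀ i ∈ T.erase x, σ i = s i) ∧
          ((Tᶜ.erase (s⁻¹ (g x))).filter (fun i => σ i = s i)).card = 1)).card ≤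
          ((star g T).filter (fun σ =>
            ((Tᶜ.erase (s⁻¹ (g x))).filter (fun i => σ i = s i)).card = 1)).card := by
        apply card_le_card
        intro σ hσ
        obtain ⟨h8, h9, h10⟩ := mem_filter.1 hσ
        exact mem_filter.2 ⟨mem_star.2 (mem_filter.1 (hin σ h8 h9)).2, h10⟩
      exact_mod_cast h7
    · refine h4.trans ?_
      have h7 : (X.filter (fun σ => (∀ i ∈ T.erase x, σ i = s i) ∧
          ((Tᶜ.erase (s⁻¹ (g x))).filter (fun i => σ i = s i)).card = 1)).card ≤ A0.card := by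
        apply card_le_card
        intro σ hσ
        obtain ⟨h8, h9, _⟩ := mem_filter.1 hσ
        exact hin σ h8 h9
      exact_mod_cast h7
  have h6 := (hgen β2 hb2 (fun i j hij => hL2 x hx x' hx' hxx i j hij)).2
  have hβt : 0 ≤ β2 * t := mul_nonneg hb2 (by linarith)
  have hk : 0 < (t : ℝ) - 2 * (2 - β2 * t) := by linarith
  have h7 : ((t : ℝ) - 2) * A.card ≤ ((t : ℝ) - 2 * (2 - β2 * t)) * (X.card : ℝ) := by
    have h8 : ((t : ℝ) - 2) * (A.card : ℝ) + 2 * (A0.card : ℝ) ≤ (t : ℝ) * (X.card : ℝ) := hbig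
    linarith
  have h8 : θs * A.card ≤ (X.card : ℝ) := by
    have h9 : θs * ((t : ℝ) - 2 * (2 - β2 * t)) * A.card ≤ ((t : ℝ) - 2) * A.card :=
      mul_le_mul_of_nonneg_right h1 ha0.le
    have h10 : ((t : ℝ) - 2 * (2 - β2 * t)) * (θs * A.card) ≤
        ((t : ℝ) - 2 * (2 - β2 * t)) * (X.card : ℝ) := by linarith
    exact le_of_mul_le_mul_left h10 hk
  have h9 := (hgen βs hbs (hLs x hx x' hx' hxx h8)).1
  have hks : 0 < 2 - βs * t := by
    by_contra hcon
    push Not at hcon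
    have h10 : (2 - βs * t) * θs ≤ 0 := mul_nonpos_of_nonpos_of_nonneg hcon hθs.le
    have h11 := phi_nonneg t
    linarith
  have h10 : (2 - βs * t) * θs * ((t + 1).factorial : ℝ) ≤ (2 - βs * t) * (X.card : ℝ) := by
    calc (2 - βs * t) * θs * ((t + 1).factorial : ℝ)
        = (2 - βs * t) * (θs * ((t + 1).factorial : ℝ)) := by ring
      _ ≤ (2 - βs * t) * (θs * A.card) :=
          mul_le_mul_of_nonneg_left (mul_le_mul_of_nonneg_left hF hθs.le) hks.le
      _ ≤ _ := mul_le_mul_of_nonneg_left h8 hks.le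
  have h11 := mul_lt_mul_of_pos_right h2 hfac
  linarith

end Pool.EG
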