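import Pool.Agent.Work.MP_46fa68_76.EndH

/-! # endgame through the levels 0 and 2: the assembly `endM3` (helper76)

Everything is deduced from one gap in `(2 t + 1, t)` (popular threshold `p0`, any unpopular threshold) and a gap in
`(2 t - 1, t - 2)` for families of size `(2 p0 - 1) (t + 1)!`. -/

set_option autoImplicit false

open Finset Equiv

namespace Pool.EG

variable {t : ℕ}

/-- the inequalities -/
structure NumM3 (t : ℕ) (β0 p0 β1 β2 θ θs βs : ℝ) : Prop where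
  ht : 5 ≤ t
  hb0 : 0 ≤ β0
  hb1 : 0 ≤ β1
  hb2 : 0 ≤ β2
  hbs : 0 ≤ βs
  hθ : 0 < θ
  hθs : 0 < θs
  hp0 : 1 / 2 < p0
  ha : β0 * (2 * t) < t - 1
  hB1 : β1 * (2 * t - 1) < t
  hB2 : β2 * (t + 1) < 2
  hC1 : 1 < (2 - β2 * t) * θ * (t + 1)
  hC2 : 2 + 3 / 8 * ((t : ℝ) * (t - 1)) < (2 - β2 * (t - 1)) * θ * (t * (t + 1))
  hE1 : θs * ((t : ℝ) - 2 * (2 - β2 * t)) ≤ t - 2
  hE2 : phi t < (2 - βs * t) * θs

/-- the input -/
def InputM3 (t : ℕ) (β0 p0 β1 β2 θ θs βs : ℝ) : Prop :=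
  ∀ (A : Finset (Perm (Fin (2 * t + 1)))) (g : Perm (Fin (2 * t + 1)))
      (T : Finset (Fin (2 * t + 1))), TInt t A → ((t + 1).factorial : ℝ) ≤ A.card →
      (∀ x y, ((thr A x y).card : ℝ) ≤ β0 * A.card ∨ p0 * A.card ≤ ((thr A x y).card : ℝ)) →
      (∀ x y, p0 * A.card ≤ ((thr A x y).card : ℝ) ↔ (x ∈ T ∧ y = g x)) →
      Low1 A g T β1 ∧ Low2 A g T β2 ∧ PairGe A g T θ ∧ T.card ≤ t + 2 ∧ LowAt2 A g T θs βs

/-- **the endgame through the levels 0 and 2** -/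
theorem endM3 {β0 p0 β1 β2 θ θs βs : ℝ} (N : NumM3 t β0 p0 β1 β2 θ θs βs)
    (hG0 : Gap (2 * t + 1) t 1 β0 p0) (hL : InputM3 t β0 p0 β1 β2 θ θs βs)
    (hLink : Link t) (hK : ∀ n' t' : ℕ, 2 * t' + 3 ≤ n' → Holds n' t') : Holds (2 * t + 1) t := by
  classical
  have ht := N.ht
  have htR : (5 : ℝ) ≤ t := by exact_mod_cast ht
  apply holds_of_good
  intro A hA
  by_cases hF' : A.card < (2 * t + 1 - t).factorial
  · exact good_of_lt hF'
  rw [not_lt, sub_eq] at hF'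
  have hF : ((t + 1).factorial : ℝ) ≤ A.card := by exact_mod_cast hF'
  have hfac : (0 : ℝ) < ((t + 1).factorial : ℝ) := by exact_mod_cast Nat.factorial_pos _
  have ha0 : (0 : ℝ) < (A.card : ℝ) := lt_of_lt_of_le hfac hF
  have hne : A.Nonempty := by
    rw [← card_pos]
    exact_mod_cast ha0
  have hgap : ∀ x y, ((thr A x y).card : ℝ) ≤ β0 * A.card ∨
      p0 * A.card ≤ ((thr A x y).card : ℝ) :=
    hG0 A hA (by rw [sub_eq, one_mul]; exact hF)
  obtain ⟨g, T, hpop, hcard⟩ := exists_pop hne N.hp0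
  have hβ1 : β0 ≤ 1 := by nlinarith [N.ha, N.hb0]
  have h1 := pop_ge hA hne hβ1 hgap
  rw [hcard] at h1
  push_cast at h1
  have hT2 : 2 ≤ T.card := by
    by_contra hcon
    push Not at hcon
    have h2 : (T.card : ℝ) ≤ 1 := by exact_mod_cast (by omega : T.card ≤ 1)
    nlinarith [N.ha, N.hb0]
  obtain ⟨hL1, hL2, hP, hTc, hLs⟩ := hL A g T hA hF hgap hpop
  have hpop' : ∀ i ∈ T, p0 * A.card ≤ ((thr A i (g i)).card : ℝ) := fun i hi =>
    (hpop i (g i)).2 ⟨hi, rfl⟩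
  have hp0' : 0 < p0 := by linarith [N.hp0]
  have hXne : ∀ x ∈ T, (thr A x (g x)).Nonempty := by
    intro x hx
    rw [← card_pos]
    have h1 : (0 : ℝ) < ((thr A x (g x)).card : ℝ) := lt_of_lt_of_le (mul_pos hp0' ha0) (hpop' x hx)
    exact_mod_cast h1
  have hXne2 : ∀ x ∈ T, ∀ x' ∈ T, x ≠ x' → (thr A x (g x) ∩ thr A x' (g x')).Nonempty := by
    intro x hx x' hx' hxx
    rw [← card_pos]
    have h1 : (0 : ℝ) < ((thr A x (g x) ∩ thr A x' (g x')).card : ℝ) :=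
      lt_of_lt_of_le (mul_pos N.hθ ha0) (hP x hx x' hx' hxx)
    exact_mod_cast h1
  have hb : ∀ s ∈ A, ∀ x ∈ T, s x ≠ g x → t ≤ (T.filter (fun i => s i = g i)).card + 1 :=
    fun s hs x hx hsx => step_b2 (by omega) hA N.hb1 N.hb2 N.hB1 N.hB2 hL1 hL2 hs hx hsx
      (hXne x hx) (fun x' hx' hxx => hXne2 x hx x' hx' hxx)
  have hN : NoTwo A g T := by
    intro σ hσ i hi j hj hij h2
    by_contra h3
    have hlow := hb σ hσ i hi h2
    have hup : (T.filter (fun k => σ k = g k)).card ≤ t := by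
      have h4 : T.filter (fun k => σ k = g k) ⊆ (T.erase i).erase j := by
        intro k hk
        obtain ⟨h5, h6⟩ := mem_filter.1 hk
        refine mem_erase.2 ⟨?_, mem_erase.2 ⟨?_, h5⟩⟩
        · rintro rfl
          exact h3 h6
        · rintro rfl
          exact h2 h6
      have h5 := card_le_card h4
      rw [card_erase_of_mem (mem_erase.2 ⟨hij.symm, hj⟩), card_erase_of_mem hi] at h5
      omega
    have hP1 := hP i hi j hj hij
    rcases Nat.lt_or_ge (T.filter (fun k => σ k = g k)).card t with h | h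
    · exact step_mi1 ht hA hF N.hb2 N.hθ N.hC1 hL2 hi hj hij hP1 hσ h2 h3 (by omega)
    · exact step_mi2 ht hA hF N.hb2 N.hθ N.hC2 hL2 hi hj hij hP1 hσ h2 h3 (by omega)
  by_cases hall : ∀ σ ∈ A, ∀ i ∈ T, σ i = g i
  · exact good_of_star rfl hK hT2 hA hall
  push Not at hall
  obtain ⟨s0, hs0, x0, hx0, hsx0⟩ := hall
  rcases Nat.lt_or_ge T.card (t + 1) with hTc' | hTc'
  · -- y = t
    have hTt : T.card = t := by
      have h1 := hb s0 hs0 x0 hx0 hsx0
      have h2 : T.filter (fun i => s0 i = g i) ⊆ T.erase x0 := by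
        intro i hi
        obtain ⟨h3, h4⟩ := mem_filter.1 hi
        refine mem_erase.2 ⟨?_, h3⟩
        rintro rfl
        exact hsx0 h4
      have h3 := card_le_card h2
      rw [card_erase_of_mem hx0] at h3
      omega
    exact step_eH ht hA hF hK N.hb2 N.hbs N.hθs hTt hL2 hLs hN N.hE1 N.hE2
  · -- y ≥ t + 1
    have hmiss : ∀ U ⊆ T, ∀ σ ∈ A, U.card ≤ (U.filter (fun i => σ i = g i)).card + 1 := by
      intro U hU σ hσ
      have h2 := card_filter_add_card_filter_not (s := U) (fun i => σ i = g i)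
      have h3 : (U.filter (fun i => ¬ σ i = g i)).card ≤ 1 := by
        rw [card_le_one]
        intro i hi j hj
        by_contra hij
        exact (mem_filter.1 hj).2
          (hN σ hσ i (hU (mem_filter.1 hi).1) j (hU (mem_filter.1 hj).1) hij (mem_filter.1 hi).2)
      omega
    obtain ⟨U, hUT, hUc⟩ := exists_subset_card_eq hTc'
    obtain ⟨h2, h3⟩ := hLink A g U hUc hA (fun σ hσ => by
      have := hmiss U hUT σ hσ
      omega)
    refine ⟨by rw [sub_eq]; exact h2, fun heq => ?_⟩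
    rw [sub_eq] at heq
    obtain ⟨y, hy, h4⟩ := h3 heq
    exact ⟨g, U.erase y, by rw [card_erase_of_mem hy]; omega, h4⟩

/-! ### the input from the gaps -/

/-- the level two gap, only for pairs with at least `θ |A|` common members -/
theorem lowAt2_gap (ht : 2 ≤ t) {A : Finset (Perm (Fin (2 * t + 1)))} (hA : TInt t A)
    (hF : ((t + 1).factorial : ℝ) ≤ A.card) {β0 p0 β2 p2 θ : ℝ} (hb0 : 0 ≤ β0) (hb2 : 0 ≤ β2)
    (hθ : 0 < θ) (hB : β0 < θ * p2)
    (hgap : ∀ x y, ((thr A x y).card : ℝ) ≤ β0 * A.card ∨ p0 * A.card ≤ ((thr A x y).card : ℝ))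
    (hG2 : Gap (2 * t - 1) (t - 2) θ β2 p2)
    {g : Perm (Fin (2 * t + 1))} {T : Finset (Fin (2 * t + 1))}
    (hpop : ∀ x y, p0 * A.card ≤ ((thr A x y).card : ℝ) ↔ (x ∈ T ∧ y = g x)) :
    LowAt2 A g T θ β2 := by
  classical
  intro x hx x' hx' hxx hXc i j hij
  have hfac : (0 : ℝ) < ((t + 1).factorial : ℝ) := by exact_mod_cast Nat.factorial_pos _
  have ha0 : (0 : ℝ) < (A.card : ℝ) := lt_of_lt_of_le hfac hF
  set X := thr A x (g x) ∩ thr A x' (g x') with hXdef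
  have hXA : ∀ σ ∈ X, σ ∈ A ∧ σ x = g x ∧ σ x' = g x' := by
    intro σ hσ
    obtain ⟨h1, h2⟩ := mem_inter.1 hσ
    exact ⟨(mem_filter.1 h1).1, (mem_filter.1 h1).2, (mem_filter.1 h2).2⟩
  have hp1 : 0 < p2 := by
    by_contra hcon
    push Not at hcon
    nlinarith
  have h1 : ((thr A i j).card : ℝ) ≤ β0 * A.card := by
    rcases hgap i j with h | h
    · exact h
    · exact absurd ((hpop i j).1 h) hij
  set Z : Finset (Fin (2 * t + 1)) := {x, x'} with hZ
  have hZc : Z.card = 2 := card_pair hxx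
  have hXZ : ∀ σ ∈ X, ∀ i ∈ Z, σ i = g i := by
    intro σ hσ i hi
    rw [hZ, mem_insert, mem_singleton] at hi
    rcases hi with rfl | rfl
    · exact (hXA σ hσ).2.1
    · exact (hXA σ hσ).2.2
  by_cases hix : i ∈ Z
  · have h2 : thr X i j = ∅ := by
      rw [eq_empty_iff_forall_notMem]
      intro σ hσ
      obtain ⟨h3, h4⟩ := mem_filter.1 hσ
      apply hij
      refine ⟨?_, by rw [← h4, hXZ σ h3 i hix]⟩
      rw [hZ, mem_insert, mem_singleton] at hix
      rcases hix with rfl | rfl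
      · exact hx
      · exact hx'
    rw [h2, card_empty, Nat.cast_zero]
    exact mul_nonneg hb2 (Nat.cast_nonneg _)
  · have hTX : TInt t X := fun σ hσ τ hτ => hA σ (hXA σ hσ).1 τ (hXA τ hτ).1
    have h2 := gap_star hG2 hb2 (t := t) (k := 2) (n := 2 * t + 1) (by omega) rfl ht (by omega)
      (g := g) (T := Z) hZc hTX hXZ (by
        rw [sub_eq]
        exact (mul_le_mul_of_nonneg_left hF hθ.le).trans hXc) i j hix
    rcases h2 with h2 | h2
    · exact h2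
    · exfalso
      have h3 : ((thr X i j).card : ℝ) ≤ ((thr A i j).card : ℝ) := by
        have : (thr X i j).card ≤ (thr A i j).card := by
          apply card_le_card
          intro σ hσ
          obtain ⟨h3, h4⟩ := mem_filter.1 hσ
          exact mem_filter.2 ⟨(hXA σ h3).1, h4⟩
        exact_mod_cast this
      have h4 : β0 * A.card < β0 * A.card := by
        calc β0 * A.card < θ * p2 * A.card := mul_lt_mul_of_pos_right hB ha0
          _ = p2 * (θ * A.card) := by ring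
          _ ≤ p2 * X.card := mul_le_mul_of_nonneg_left hXc hp1.le
          _ ≤ _ := h2
          _ ≤ _ := h3
          _ ≤ _ := h1
      exact lt_irrefl _ h4

/-- levels 0 and 2: `θ = 2 p0 - 1`; nothing at level 1 -/
theorem inputM3_top {β0 p0 β2 p2 θs βs ps : ℝ} (ht : 2 ≤ t) (hb0 : 0 ≤ β0) (hb2 : 0 ≤ β2)
    (hbs : 0 ≤ βs) (hθs : 0 < θs) (hp0 : 1 / 2 < p0) (hB2 : β0 < (2 * p0 - 1) * p2)
    (hBs : β0 < θs * ps)
    (hG2 : Gap (2 * t - 1) (t - 2) (2 * p0 - 1) β2 p2) (hGs : Gap (2 * t - 1) (t - 2) θs βs ps)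
    (hY : YTop t p0) :
    InputM3 t β0 p0 (β0 / p0) β2 (2 * p0 - 1) θs βs := fun A g T hA hF hgap hpop => by
  have hpop' : ∀ i ∈ T, p0 * A.card ≤ ((thr A i (g i)).card : ℝ) := fun i hi =>
    (hpop i _).2 ⟨hi, rfl⟩
  have hP : PairGe A g T (2 * p0 - 1) := fun x hx x' hx' _ => inter_ge (hpop' x hx) (hpop' x' hx')
  exact ⟨low1_top hb0 (by linarith) hgap hpop,
    fun x hx x' hx' hxx => lowAt2_gap ht hA hF hb0 hb2 (by linarith) hB2 hgap hG2 hpop x hx x' hx' hxx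
      (hP x hx x' hx' hxx),
    hP, step_y ht hF hpop' hY, lowAt2_gap ht hA hF hb0 hbs hθs hBs hgap hGs hpop⟩

/-- the same with the count of popular cells one level below -/
theorem inputM3_link {β0 p0 β1 p1 β2 p2 θs βs ps : ℝ} (ht : 2 ≤ t) (hb0 : 0 ≤ β0) (hb1 : 0 ≤ β1)
    (hb2 : 0 ≤ β2)
    (hbs : 0 ≤ βs) (hθs : 0 < θs) (hp0 : 1 / 2 < p0) (hB' : β1 * p0 < 2 * p0 - 1)
    (hB2 : β0 < (2 * p0 - 1) * p2) (hBs : β0 < θs * ps)
    (hG1 : Gap (2 * t) (t - 1) p0 β1 p1)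
    (hG2 : Gap (2 * t - 1) (t - 2) (2 * p0 - 1) β2 p2) (hGs : Gap (2 * t - 1) (t - 2) θs βs ps)
    (hY : YTop t p0 ∨ YLink t p0 p1) :
    InputM3 t β0 p0 (β0 / p0) β2 (2 * p0 - 1) θs βs := fun A g T hA hF hgap hpop => by
  have hpop' : ∀ i ∈ T, p0 * A.card ≤ ((thr A i (g i)).card : ℝ) := fun i hi =>
    (hpop i _).2 ⟨hi, rfl⟩
  have hP : PairGe A g T (2 * p0 - 1) := fun x hx x' hx' _ => inter_ge (hpop' x hx) (hpop' x' hx')
  have h1 := lowAt2_gap ht hA hF hb0 hb2 (by linarith) hB2 hgap hG2 hpop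
  refine ⟨low1_top hb0 (by linarith) hgap hpop,
    fun x hx x' hx' hxx => h1 x hx x' hx' hxx (hP x hx x' hx' hxx),
    hP, ?_, lowAt2_gap ht hA hF hb0 hbs hθs hBs hgap hGs hpop⟩
  rcases hY with hY | hY
  · exact step_y ht hF hpop' hY
  · exact step_y1 ht hA hF (by linarith) hb1 hB' hG1 hpop' hY

end Pool.EG
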