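import Pool.Agent.Work.MP_46fa68_76.EndH2
import Pool.Agent.Work.MP_46fa68_86.Unif3

/-! # endgame through the levels 0 and 2 with constants, for all `m = t + 1` at once (helper76, after helper86)

Line 0: any unpopular threshold `β0`, popular threshold `1 - P / m`.  Line 2 (`(2 t - 1, t - 2)`): unpopular threshold
`K / m` for families of size `(1 - 2 P / m) m!`, and `Ks / m` for families of size `(1 - c / m) m!`. -/

set_option autoImplicit false

open Finset Equiv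

namespace Pool.EG

variable {t : ℕ}

/-- the inequalities between the constants, denominators cleared (`m = t + 1`) -/
structure ConstsH (t : ℕ) (β0 P K p2 c Ks ps : ℝ) : Prop where
  ht : 5 ≤ t
  hβ0 : 0 ≤ β0
  hP : 0 ≤ P
  hK : 0 ≤ K
  hKs : 0 ≤ Ks
  h1 : 2 * P < t + 1
  h2 : β0 * (2 * t) < t - 1
  h3 : β0 * (2 * t - 1) * (t + 1) < t * (t + 1 - P)
  h4 : K < 2
  h5 : (t : ℝ) + 1 < (2 * (t + 1) - K * t) * (t + 1 - 2 * P)
  h6 : (2 + 3 / 8 * ((t : ℝ) * (t - 1))) * (t + 1) <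
    (2 * (t + 1) - K * (t - 1)) * (t + 1 - 2 * P) * t
  h7 : (t + 1 - c) * ((t : ℝ) * (t + 1) - 2 * (2 * (t + 1) - K * t)) ≤ (t - 2) * (t + 1) ^ 2
  h8 : (9 * (t : ℝ) + 8) * (t + 1) < 24 * ((2 * (t + 1) - Ks * t) * (t + 1 - c))
  h9 : c < t + 1
  h10 : 2 + ((t : ℝ) + 3) * (t - 1) < (2 * (t + 1) - (t + 3) * P) * (t * (t - 1))
  h11 : β0 * (t + 1) < (t + 1 - 2 * P) * p2
  h12 : β0 * (t + 1) < (t + 1 - c) * ps

theorem constsH_num {β0 P K p2 c Ks ps : ℝ} (C : ConstsH t β0 P K p2 c Ks ps) :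
    NumM3 t β0 (1 - P / (t + 1)) (β0 / (1 - P / (t + 1))) (K / (t + 1))
      (2 * (1 - P / (t + 1)) - 1) (1 - c / (t + 1)) (Ks / (t + 1)) ∧
    YTop t (1 - P / (t + 1)) ∧ β0 < (2 * (1 - P / (t + 1)) - 1) * p2 ∧
    β0 < (1 - c / ((t : ℝ) + 1)) * ps := by
  obtain ⟨ht, hβ0, hP, hK, hKs, h1, h2, h3, h4, h5, h6, h7, h8, h9, h10, h11, h12⟩ := C
  have htR : (5 : ℝ) ≤ t := by exact_mod_cast ht
  set m : ℝ := (t : ℝ) + 1 with hm
  have hm0 : 0 < m := by linarith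
  have hmne : m ≠ 0 := hm0.ne'
  have ht0 : (0 : ℝ) < t := by linarith
  have hmP : 0 < m - P := by linarith
  have hmP2 : 0 < m - 2 * P := by linarith
  have hmc : 0 < m - c := by linarith
  have hmPne : m - P ≠ 0 := hmP.ne'
  have hp0 : 1 - P / m = (m - P) / m := by field_simp
  have hθ : 2 * ((m - P) / m) - 1 = (m - 2 * P) / m := by field_simp; ring
  have hc : 1 - c / m = (m - c) / m := by field_simp
  have hhalf : 1 / 2 < (m - P) / m := by
    rw [lt_div_iff₀ hm0]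
    linarith
  have hb1 : β0 / ((m - P) / m) = β0 * m / (m - P) := by field_simp
  rw [hp0, hθ, hc, hb1]
  refine ⟨⟨ht, hβ0, div_nonneg (mul_nonneg hβ0 hm0.le) hmP.le, div_nonneg hK hm0.le,
    div_nonneg hKs hm0.le, div_pos hmP2 hm0, div_pos hmc hm0, hhalf, h2, ?_, ?_, ?_, ?_, ?_, ?_⟩,
    ?_, ?_, ?_⟩
  · rw [div_mul_eq_mul_div, div_lt_iff₀ hmP]
    calc β0 * m * (2 * t - 1) = β0 * (2 * t - 1) * m := by ring
      _ < _ := h3
  · rw [← hm, div_mul_cancel₀ _ hmne]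
    exact h4
  · have e : (2 - K / m * t) * ((m - 2 * P) / m) * m = (2 * m - K * t) * (m - 2 * P) / m := by
      field_simp
    rw [← hm, e, lt_div_iff₀ hm0, one_mul]
    exact h5
  · have e : (2 - K / m * (t - 1)) * ((m - 2 * P) / m) * (t * m) =
        (2 * m - K * (t - 1)) * (m - 2 * P) * t / m := by
      field_simp
    rw [← hm, e, lt_div_iff₀ hm0]
    exact h6
  · have e : (m - c) / m * (t - 2 * (2 - K / m * t)) =
        (m - c) * (t * m - 2 * (2 * m - K * t)) / m ^ 2 := by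
      field_simp
    rw [e, div_le_iff₀ (by positivity)]
    exact h7
  · unfold phi
    have e : (2 - Ks / m * t) * ((m - c) / m) =
        (24 * ((2 * m - Ks * t) * (m - c))) / (24 * (m * m)) := by
      field_simp
    rw [e, ← hm, div_lt_div_iff₀ (by positivity) (by positivity)]
    nlinarith [mul_lt_mul_of_pos_right h8 (show (0 : ℝ) < 24 * m by positivity)]
  · unfold YTop
    have e : (2 - ((t : ℝ) + 3) * (1 - (m - P) / m)) * (m * t * (t - 1)) =
        (2 * m - (t + 3) * P) * (t * (t - 1)) := by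
      field_simp
      ring
    rw [← hm, e]
    exact h10
  · rw [div_mul_eq_mul_div, lt_div_iff₀ hm0]
    exact h11
  · rw [div_mul_eq_mul_div, lt_div_iff₀ hm0]
    exact h12

/-- the endgame through the lines 0 and 2, with constants -/
theorem holds_constsH {β0 P K p2 c Ks ps : ℝ} (C : ConstsH t β0 P K p2 c Ks ps)
    (hG0 : Gap (2 * t + 1) t 1 β0 (1 - P / (t + 1)))
    (hG2 : Gap (2 * t - 1) (t - 2) (1 - 2 * P / (t + 1)) (K / (t + 1)) p2)
    (hGs : Gap (2 * t - 1) (t - 2) (1 - c / (t + 1)) (Ks / (t + 1)) ps)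
    (hLink : Link t) (hK : ∀ n' t' : ℕ, 2 * t' + 3 ≤ n' → Holds n' t') : Holds (2 * t + 1) t := by
  obtain ⟨N, hY, hB, hBs⟩ := constsH_num C
  have ht := C.ht
  have e : 1 - 2 * P / ((t : ℝ) + 1) = 2 * (1 - P / (t + 1)) - 1 := by ring
  rw [e] at hG2
  exact endM3 N hG0 (inputM3_top (by omega) N.hb0 N.hb2 N.hbs N.hθs N.hp0 hB hBs hG2 hGs hY)
    hLink hK

/-- constants: `P = 8/5`, `K = Ks = 13/8`, unpopular threshold `3/10` on line 0, for all `m ≥ 21` -/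
theorem constsH_a (ht : 20 ≤ t) :
    ConstsH t (3 / 10) (8 / 5) (13 / 8) (1 / 2) (5 / 4) (13 / 8) (1 / 2) := by
  obtain ⟨d, rfl⟩ := Nat.exists_eq_add_of_le ht
  have hd : (0 : ℝ) ≤ d := Nat.cast_nonneg _
  refine ⟨by omega, by norm_num, by norm_num, by norm_num, by norm_num, ?_, ?_, ?_, by norm_num,
    ?_, ?_, ?_, ?_, ?_, ?_, ?_, ?_⟩ <;> push_cast
  · nlinarith
  · nlinarith
  · nlinarith
  · nlinarith
  · nlinarith [mul_nonneg hd hd, mul_nonneg (mul_nonneg hd hd) hd]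
  · nlinarith [mul_nonneg hd hd, mul_nonneg (mul_nonneg hd hd) hd]
  · nlinarith
  · nlinarith
  · nlinarith [mul_nonneg hd hd, mul_nonneg (mul_nonneg hd hd) hd]
  · nlinarith
  · nlinarith

/-- constants: `P = 7/4`, `K = Ks = 13/8`, for all `m ≥ 23` -/
theorem constsH_b (ht : 22 ≤ t) :
    ConstsH t (3 / 10) (7 / 4) (13 / 8) (1 / 2) (5 / 4) (13 / 8) (1 / 2) := by
  obtain ⟨d, rfl⟩ := Nat.exists_eq_add_of_le ht
  have hd : (0 : ℝ) ≤ d := Nat.cast_nonneg _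
  refine ⟨by omega, by norm_num, by norm_num, by norm_num, by norm_num, ?_, ?_, ?_, by norm_num,
    ?_, ?_, ?_, ?_, ?_, ?_, ?_, ?_⟩ <;> push_cast
  · nlinarith
  · nlinarith
  · nlinarith
  · nlinarith
  · nlinarith [mul_nonneg hd hd, mul_nonneg (mul_nonneg hd hd) hd]
  · nlinarith [mul_nonneg hd hd, mul_nonneg (mul_nonneg hd hd) hd]
  · nlinarith
  · nlinarith
  · nlinarith [mul_nonneg hd hd, mul_nonneg (mul_nonneg hd hd) hd]
  · nlinarith
  · nlinarith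

/-- constants: `P = 8/5`, `K = 17/10` for the pairs, `Ks = 8/5` for the larger pairs, `21 ≤ m ≤ 36` -/
theorem constsH_c (ht : 20 ≤ t) (ht2 : t ≤ 35) :
    ConstsH t (3 / 10) (8 / 5) (17 / 10) (1 / 2) (7 / 5) (8 / 5) (1 / 2) := by
  obtain ⟨d, rfl⟩ := Nat.exists_eq_add_of_le ht
  have hd : (0 : ℝ) ≤ d := Nat.cast_nonneg _
  have hd2 : (d : ℝ) ≤ 15 := by exact_mod_cast (by omega : d ≤ 15)
  refine ⟨by omega, by norm_num, by norm_num, by norm_num, by norm_num, ?_, ?_, ?_, by norm_num,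
    ?_, ?_, ?_, ?_, ?_, ?_, ?_, ?_⟩ <;> push_cast
  · nlinarith
  · nlinarith
  · nlinarith
  · nlinarith
  · nlinarith [mul_nonneg hd hd, mul_nonneg hd (sub_nonneg.2 hd2),
      mul_nonneg (mul_nonneg hd hd) (sub_nonneg.2 hd2)]
  · nlinarith [mul_nonneg hd hd, mul_nonneg (mul_nonneg hd hd) hd]
  · nlinarith
  · nlinarith
  · nlinarith [mul_nonneg hd hd, mul_nonneg (mul_nonneg hd hd) hd]
  · nlinarith
  · nlinarith

/-- **all large `m` from two gaps**: line 0, `(3/10, 1 - 8/(5m))`, and line 2, `(13/(8m), 1/2)` for families of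
size `(1 - 16/(5m)) m!` -/
theorem holds_large_H {t₀ : ℕ} (h20 : 20 ≤ t₀)
    (hG0 : ∀ t : ℕ, t₀ ≤ t → Gap (2 * t + 1) t 1 (3 / 10) (1 - 8 / 5 / (t + 1)))
    (hG2 : ∀ t : ℕ, t₀ ≤ t →
      Gap (2 * t - 1) (t - 2) (1 - 2 * (8 / 5) / (t + 1)) (13 / 8 / (t + 1)) (1 / 2))
    (hLink : ∀ t : ℕ, 1 ≤ t → Link t) (hK : ∀ n' t' : ℕ, 2 * t' + 3 ≤ n' → Holds n' t') :
    ∀ t : ℕ, t₀ ≤ t → Holds (2 * t + 1) t := fun t ht => by
  refine holds_constsH (constsH_a (h20.trans ht)) (hG0 t ht) (hG2 t ht)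
    ((hG2 t ht).mono ?_ le_rfl le_rfl) (hLink t (by omega)) hK
  have hm0 : (0 : ℝ) < (t : ℝ) + 1 := by positivity
  have : 5 / 4 / ((t : ℝ) + 1) ≤ 2 * (8 / 5) / (t + 1) :=
    div_le_div_of_nonneg_right (by norm_num) hm0.le
  linarith

/-- the same from product bounds: `A₀ = 1.47` on line 0, `A₂ = 1.07` on line 2, `m ≥ 21` -/
theorem holds_large_H_prod {t₀ : ℕ} (h20 : 20 ≤ t₀)
    (hP0 : ∀ t : ℕ, t₀ ≤ t → ProdBound (2 * t + 1) t (147 / 100 / (t + 1)))
    (hP2 : ∀ t : ℕ, t₀ ≤ t → ProdBound (2 * t - 1) (t - 2) (107 / 100 / (t + 1)))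
    (hLink : ∀ t : ℕ, 1 ≤ t → Link t) (hK : ∀ n' t' : ℕ, 2 * t' + 3 ≤ n' → Holds n' t') :
    ∀ t : ℕ, t₀ ≤ t → Holds (2 * t + 1) t := by
  refine holds_large_H h20 (fun t ht => ?_) (fun t ht => ?_) hLink hK
  · have ht20 : 20 ≤ t := h20.trans ht
    have htR : (20 : ℝ) ≤ t := by exact_mod_cast ht20
    set m : ℝ := (t : ℝ) + 1 with hm
    have hm0 : 0 < m := by linarith
    have hu0 : 0 < 1 / m := by positivity
    have hu : 1 / m ≤ 1 / 21 := by
      apply div_le_div_of_nonneg_left (by norm_num) (by norm_num)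
      linarith
    have e1 : 147 / 100 / m = 147 / 100 * (1 / m) := by ring
    have e2 : 1 - 8 / 5 / m = 1 - 8 / 5 * (1 / m) := by ring
    have hP := hP0 t ht
    rw [← hm, e1] at hP
    rw [e2]
    refine gap_of_prod hP one_pos (by norm_num) (by linarith) ?_ ?_
    · nlinarith
    · nlinarith
  · have ht20 : 20 ≤ t := h20.trans ht
    have htR : (20 : ℝ) ≤ t := by exact_mod_cast ht20
    set m : ℝ := (t : ℝ) + 1 with hm
    have hm0 : 0 < m := by linarith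
    have hu0 : 0 < 1 / m := by positivity
    have hu : 1 / m ≤ 1 / 21 := by
      apply div_le_div_of_nonneg_left (by norm_num) (by norm_num)
      linarith
    have e1 : 107 / 100 / m = 107 / 100 * (1 / m) := by ring
    have e2 : 1 - 2 * (8 / 5) / m = 1 - 16 / 5 * (1 / m) := by ring
    have e3 : 13 / 8 / m = 13 / 8 * (1 / m) := by ring
    have hP := hP2 t ht
    rw [← hm, e1] at hP
    rw [e2, e3]
    have hpos : 0 < 1 - 16 / 5 * (1 / m) := by linarith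
    refine gap_of_prod hP hpos (by linarith) (by norm_num) ?_ ?_
    · set u := 1 / m with hu'
      have h1 : 107 / 100 ≤ 13 / 8 * (1 - 13 / 8 * u) * (1 - 16 / 5 * u) ^ 2 := by
        have h2 : 1 - 13 / 8 * (1 / 21) ≤ 1 - 13 / 8 * u := by linarith
        have h3 : 1 - 16 / 5 * (1 / 21) ≤ 1 - 16 / 5 * u := by linarith
        have h4 : (1 - 16 / 5 * (1 / 21)) ^ 2 ≤ (1 - 16 / 5 * u) ^ 2 :=
          pow_le_pow_left₀ (by norm_num) h3 2
        calc (107 : ℝ) / 100 ≤ 13 / 8 * (1 - 13 / 8 * (1 / 21)) * (1 - 16 / 5 * (1 / 21)) ^ 2 := by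
              norm_num
          _ ≤ 13 / 8 * (1 - 13 / 8 * u) * (1 - 16 / 5 * u) ^ 2 := by
              apply mul_le_mul _ h4 (by positivity) (by nlinarith)
              linarith
      nlinarith
    · have h3 : 1 - 16 / 5 * (1 / 21) ≤ 1 - 16 / 5 * (1 / m) := by linarith
      have h4 : (1 - 16 / 5 * (1 / 21)) ^ 2 ≤ (1 - 16 / 5 * (1 / m)) ^ 2 :=
        pow_le_pow_left₀ (by norm_num) h3 2
      nlinarith

end Pool.EG
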