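import Pool.Agent.Work.MP_46fa68_76.EndH2

/-! # endgame through the levels 0 and 2, with any way to bound the number of popular cells (helper76) -/

set_option autoImplicit false

open Finset Equiv

namespace Pool.EG

variable {t : ℕ}

/-- at most `t + 2` cells of density `p0` -/
def YAny (t : ℕ) (p0 : ℝ) : Prop :=
  ∀ (A : Finset (Perm (Fin (2 * t + 1)))) (g : Perm (Fin (2 * t + 1)))
      (T : Finset (Fin (2 * t + 1))), TInt t A → ((t + 1).factorial : ℝ) ≤ A.card →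
      (∀ i ∈ T, p0 * A.card ≤ ((thr A i (g i)).card : ℝ)) → T.card ≤ t + 2

theorem yAny_top {p0 : ℝ} (ht : 2 ≤ t) (hY : YTop t p0) : YAny t p0 :=
  fun _ _ _ _ hF hpop => step_y ht hF hpop hY

theorem yAny_link {p0 β1 p1 : ℝ} (ht : 2 ≤ t) (hp0 : 0 < p0) (hb1 : 0 ≤ β1)
    (hB' : β1 * p0 < 2 * p0 - 1) (hG1 : Gap (2 * t) (t - 1) p0 β1 p1) (hY : YLink t p0 p1) :
    YAny t p0 :=
  fun _ _ _ hA hF hpop => step_y1 ht hA hF hp0 hb1 hB' hG1 hpop hY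

/-- a larger threshold is easier -/
theorem YAny.mono {p p' : ℝ} (h : YAny t p) (hp : p ≤ p') : YAny t p' :=
  fun A g T hA hF hpop => h A g T hA hF fun i hi =>
    (mul_le_mul_of_nonneg_right hp (Nat.cast_nonneg _)).trans (hpop i hi)

/-- levels 0 and 2 -/
theorem inputM3_any {β0 p0 β2 p2 θs βs ps : ℝ} (ht : 2 ≤ t) (hb0 : 0 ≤ β0) (hb2 : 0 ≤ β2)
    (hbs : 0 ≤ βs) (hθs : 0 < θs) (hp0 : 1 / 2 < p0) (hB2 : β0 < (2 * p0 - 1) * p2)
    (hBs : β0 < θs * ps)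
    (hG2 : Gap (2 * t - 1) (t - 2) (2 * p0 - 1) β2 p2) (hGs : Gap (2 * t - 1) (t - 2) θs βs ps)
    (hY : YAny t p0) :
    InputM3 t β0 p0 (β0 / p0) β2 (2 * p0 - 1) θs βs := fun A g T hA hF hgap hpop => by
  have hpop' : ∀ i ∈ T, p0 * A.card ≤ ((thr A i (g i)).card : ℝ) := fun i hi =>
    (hpop i _).2 ⟨hi, rfl⟩
  have hP : PairGe A g T (2 * p0 - 1) := fun x hx x' hx' _ => inter_ge (hpop' x hx) (hpop' x' hx')
  exact ⟨low1_top hb0 (by linarith) hgap hpop,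
    fun x hx x' hx' hxx => lowAt2_gap ht hA hF hb0 hb2 (by linarith) hB2 hgap hG2 hpop x hx x' hx' hxx
      (hP x hx x' hx' hxx),
    hP, hY A g T hA hF hpop', lowAt2_gap ht hA hF hb0 hbs hθs hBs hgap hGs hpop⟩

/-- **one diagonal from three gaps**, levels 0 and 2 -/
theorem holds_of_gaps {β0 p0 β2 p2 θs βs ps : ℝ}
    (N : NumM3 t β0 p0 (β0 / p0) β2 (2 * p0 - 1) θs βs) (hB2 : β0 < (2 * p0 - 1) * p2)
    (hBs : β0 < θs * ps) (hG0 : Gap (2 * t + 1) t 1 β0 p0)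
    (hG2 : Gap (2 * t - 1) (t - 2) (2 * p0 - 1) β2 p2) (hGs : Gap (2 * t - 1) (t - 2) θs βs ps)
    (hY : YAny t p0)
    (hLink : Link t) (hK : ∀ n' t' : ℕ, 2 * t' + 3 ≤ n' → Holds n' t') : Holds (2 * t + 1) t := by
  have ht := N.ht
  exact endM3 N hG0 (inputM3_any (by omega) N.hb0 N.hb2 N.hbs N.hθs N.hp0 hB2 hBs hG2 hGs hY)
    hLink hK

end Pool.EG
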