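import Pool.Agent.Work.MP_46fa68_76.EndH2
set_option autoImplicit false
namespace Pool.EG
/-- m = 8 -/
theorem num8 : NumM3 7 (35/100) (8355/10000) (35/100/(8355/10000)) (2495/10000) (2*(8355/10000)-1) (77/100) (217/1000) := by
  constructor <;> (try unfold phi) <;> norm_num
theorem y8 : YTop 7 (8355/10000) := by unfold YTop; norm_num
/-- m = 9 -/
theorem num9 : NumM3 8 (30/100) (8325/10000) (30/100/(8325/10000)) (215/1000) (2*(8325/10000)-1) (8/10) (192/1000) := by
  constructor <;> (try unfold phi) <;> norm_num
theorem y9 : YTop 8 (8325/10000) := by unfold YTop; norm_num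
/-- m = 10 -/
theorem num10 : NumM3 9 (25/100) (845/1000) (25/100/(845/1000)) (19/100) (2*(845/1000)-1) (82/100) (171/1000) := by
  constructor <;> (try unfold phi) <;> norm_num
theorem y10 : YTop 9 (845/1000) := by unfold YTop; norm_num
end Pool.EG
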