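import Pool.Agent.Work.MP_46fa68_76.Final13Core
import Pool.Agent.Work.MP_46fa68_17.Small13

/-!
# MP_46fa68_co: Q1 for `(n, t) = (13, 6)`

helper76, from the tables of helper17.
-/

set_option autoImplicit false

open Finset Equiv Pool.Col46

namespace Pool.JM.R4

/-- Q1 for `(13, 6)` -/
theorem holds13 : Holds 13 6 :=
  holds13_of T13a.res T13b.res T13c.res T13d.res
    (fun A F => (D13_2.res A F).trans_lt (by norm_num))
    (fun A F => (D13_3.res A F).trans_lt (by norm_num))
    (fun A F => (D13_4a.res A F).trans_lt (by norm_num))
    (fun A F => (D13_4b.res A F).trans_lt (by norm_num))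
    (fun A F => (D13_5a.res A F).trans_lt (by norm_num))
    (fun A F => (D13_5b.res A F).trans_lt (by norm_num))
    (fun A F => (D13_6a.res A F).trans_lt (by norm_num))
    (fun A F => (D13_6b.res A F).trans_lt (by norm_num))
    (fun A F => (D13_6c.res A F).trans_lt (by norm_num))
    (fun A F => (D13_6d.res A F).trans_lt (by norm_num))

end Pool.JM.R4
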