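import Pool.Agent.Work.MP_46fa68_76.Std2

/-!
# MP_46fa68_co: Q1 for `(n, t) = (13, 6)` from the fourteen tables (helper76)
-/

set_option autoImplicit false

open Finset Equiv Pool.Col46

namespace Pool.JM.R4

theorem ms7 {s : Multiset ℕ} (h2 : ∀ x ∈ s, 2 ≤ x) (h : s.sum = 7) :
    s = {7} ∨ s = {2, 5} ∨ s = {3, 4} ∨ s = {2, 2, 3} := by
  obtain ⟨a, s', rfl, ha, had, hx, hs⟩ := ms_split h2 h (by norm_num)
  interval_cases a
  · rcases ms5 hx hs with h | h
    · right; left; rw [h]; rfl
    · right; right; right; rw [h]; rfl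
  · rcases ms4 hx hs with h | h
    · right; right; left; rw [h]; rfl
    · right; right; right; rw [h]; decide
  · rw [ms3 hx hs]; right; right; left; decide
  · rw [ms2 hx hs]; right; left; decide
  · exact (ms1 hx hs).elim
  · left; rw [ms0 hx hs]; rfl

/-- Q1 for `(13, 6)` from the tables -/
theorem holds13_of
    (Ta : Tab 13 7 5040 (List.formPerm [0, 1, 2, 3, 4, 5, 6]))
    (Tb : Tab 13 7 5040 (List.formPerm [0, 1] * List.formPerm [2, 3, 4, 5, 6]))
    (Tc : Tab 13 7 5040 (List.formPerm [0, 1, 2] * List.formPerm [3, 4, 5, 6]))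
    (Td : Tab 13 7 5040 (List.formPerm [0, 1] * List.formPerm [2, 3] * List.formPerm [4, 5, 6]))
    (D2 : ∀ A : Finset (Perm (Fin 13)), Fam 13 11 (List.formPerm [0, 1]) A → A.card < 5040)
    (D3 : ∀ A : Finset (Perm (Fin 13)), Fam 13 10 (List.formPerm [0, 1, 2]) A → A.card < 5040)
    (D4a : ∀ A : Finset (Perm (Fin 13)), Fam 13 9 (List.formPerm [0, 1, 2, 3]) A → A.card < 5040)
    (D4b : ∀ A : Finset (Perm (Fin 13)),
      Fam 13 9 (List.formPerm [0, 1] * List.formPerm [2, 3]) A → A.card < 5040)
    (D5a : ∀ A : Finset (Perm (Fin 13)),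
      Fam 13 8 (List.formPerm [0, 1, 2, 3, 4]) A → A.card < 5040)
    (D5b : ∀ A : Finset (Perm (Fin 13)),
      Fam 13 8 (List.formPerm [0, 1] * List.formPerm [2, 3, 4]) A → A.card < 5040)
    (D6a : ∀ A : Finset (Perm (Fin 13)),
      Fam 13 7 (List.formPerm [0, 1, 2, 3, 4, 5]) A → A.card < 5040)
    (D6b : ∀ A : Finset (Perm (Fin 13)),
      Fam 13 7 (List.formPerm [0, 1] * List.formPerm [2, 3, 4, 5]) A → A.card < 5040)
    (D6c : ∀ A : Finset (Perm (Fin 13)),
      Fam 13 7 (List.formPerm [0, 1, 2] * List.formPerm [3, 4, 5]) A → A.card < 5040)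
    (D6d : ∀ A : Finset (Perm (Fin 13)),
      Fam 13 7 (List.formPerm [0, 1] * List.formPerm [2, 3] * List.formPerm [4, 5]) A →
        A.card < 5040) : Holds 13 6 := by
  refine frame (m := 7) (by norm_num) ?_ (by norm_num)
  intro A hA' σ0 h0 τ0 h1 hmin hge hle
  have hag := ag_add_support σ0 τ0
  have hsum := Perm.sum_cycleType (σ0⁻¹ * τ0)
  have h2 := ct_two (σ0⁻¹ * τ0)
  have hfac : Nat.factorial 7 = 5040 := rfl
  have small : ∀ {d : ℕ} {rho : Perm (Fin 13)}, ag σ0 τ0 = d →
      (∀ A : Finset (Perm (Fin 13)), Fam 13 d rho A → A.card < 5040) →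
      (σ0⁻¹ * τ0).cycleType = rho.cycleType →
      A.card ≤ Nat.factorial 7 ∧ (A.card = Nat.factorial 7 →
        ∃ a b : Fin 6 → Fin 13, Function.Injective a ∧ Function.Injective b ∧
          A = univ.filter (fun σ : Equiv.Perm (Fin 13) => ∀ k : Fin 6, σ (a k) = b k)) := by
    intro d rho hd hT hc
    have h := card_le_of (B := 5039) (fun A hA => Nat.le_of_lt_succ (hT A hA))
      (fun σ hσ τ hτ => hd ▸ hmin σ hσ τ hτ) h0 h1 hc
    rw [hfac]
    exact ⟨by omega, fun h' => by omega⟩
  obtain ⟨d, hd⟩ : ∃ d, (σ0⁻¹ * τ0).support.card = d := ⟨_, rfl⟩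
  rw [hd] at hag hge hle
  rw [hd] at hsum
  interval_cases d
  · -- 2
    have hct : (σ0⁻¹ * τ0).cycleType = (List.formPerm ([0, 1] : List (Fin 13))).cycleType := by
      rw [ms2 h2 hsum]
      exact (ct_cycle (n := 13) (l := [0, 1]) (by decide) (by decide)).symm
    exact small (by omega) D2 hct
  · -- 3
    have hct : (σ0⁻¹ * τ0).cycleType = (List.formPerm ([0, 1, 2] : List (Fin 13))).cycleType := by
      rw [ms3 h2 hsum]
      exact (ct_cycle (n := 13) (l := [0, 1, 2]) (by decide) (by decide)).symm
    exact small (by omega) D3 hct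
  · -- 4
    rcases ms4 h2 hsum with hc | hc
    · have hct : (σ0⁻¹ * τ0).cycleType =
          (List.formPerm ([0, 1, 2, 3] : List (Fin 13))).cycleType := by
        rw [hc]
        exact (ct_cycle (n := 13) (l := [0, 1, 2, 3]) (by decide) (by decide)).symm
      exact small (by omega) D4a hct
    · have hct : (σ0⁻¹ * τ0).cycleType =
          (List.formPerm ([0, 1] : List (Fin 13)) * List.formPerm [2, 3]).cycleType := by
        rw [hc]
        exact (ct_two_cycles (n := 13) (l := [0, 1]) (l' := [2, 3]) (by decide) (by decide)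
          (by decide) (by decide) (by decide)).symm
      exact small (by omega) D4b hct
  · -- 5
    rcases ms5 h2 hsum with hc | hc
    · have hct : (σ0⁻¹ * τ0).cycleType =
          (List.formPerm ([0, 1, 2, 3, 4] : List (Fin 13))).cycleType := by
        rw [hc]
        exact (ct_cycle (n := 13) (l := [0, 1, 2, 3, 4]) (by decide) (by decide)).symm
      exact small (by omega) D5a hct
    · have hct : (σ0⁻¹ * τ0).cycleType =
          (List.formPerm ([0, 1] : List (Fin 13)) * List.formPerm [2, 3, 4]).cycleType := by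
        rw [hc]
        exact (ct_two_cycles (n := 13) (l := [0, 1]) (l' := [2, 3, 4]) (by decide) (by decide)
          (by decide) (by decide) (by decide)).symm
      exact small (by omega) D5b hct
  · -- 6
    rcases ms6 h2 hsum with hc | hc | hc | hc
    · have hct : (σ0⁻¹ * τ0).cycleType =
          (List.formPerm ([0, 1, 2, 3, 4, 5] : List (Fin 13))).cycleType := by
        rw [hc]
        exact (ct_cycle (n := 13) (l := [0, 1, 2, 3, 4, 5]) (by decide) (by decide)).symm
      exact small (by omega) D6a hct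
    · have hct : (σ0⁻¹ * τ0).cycleType =
          (List.formPerm ([0, 1] : List (Fin 13)) * List.formPerm [2, 3, 4, 5]).cycleType := by
        rw [hc]
        exact (ct_two_cycles (n := 13) (l := [0, 1]) (l' := [2, 3, 4, 5]) (by decide) (by decide)
          (by decide) (by decide) (by decide)).symm
      exact small (by omega) D6b hct
    · have hct : (σ0⁻¹ * τ0).cycleType =
          (List.formPerm ([0, 1, 2] : List (Fin 13)) * List.formPerm [3, 4, 5]).cycleType := by
        rw [hc]
        exact (ct_two_cycles (n := 13) (l := [0, 1, 2]) (l' := [3, 4, 5]) (by decide) (by decide)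
          (by decide) (by decide) (by decide)).symm
      exact small (by omega) D6c hct
    · have hct : (σ0⁻¹ * τ0).cycleType =
          (List.formPerm ([0, 1] : List (Fin 13)) * List.formPerm [2, 3] *
            List.formPerm [4, 5]).cycleType := by
        rw [hc]
        exact (ct_three_cycles (n := 13) (l := [0, 1]) (l' := [2, 3]) (l'' := [4, 5]) (by decide)
          (by decide) (by decide) (by decide) (by decide) (by decide) (by decide) (by decide)
          (by decide)).symm
      exact small (by omega) D6d hct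
  · -- 7
    have hs : (σ0⁻¹ * τ0).support.card = 7 := hd
    have hA2 : ∀ σ ∈ A, ∀ τ ∈ A, 13 - 7 ≤ ag σ τ := hA'
    rcases ms7 h2 hsum with hc | hc | hc | hc
    · have hct : (σ0⁻¹ * τ0).cycleType =
          (List.formPerm ([0, 1, 2, 3, 4, 5, 6] : List (Fin 13))).cycleType := by
        rw [hc]
        exact (ct_cycle (n := 13) (l := [0, 1, 2, 3, 4, 5, 6]) (by decide) (by decide)).symm
      exact star_of_tab (m := 7) (by norm_num) Ta hA2 h0 h1 hs hct
    · have hct : (σ0⁻¹ * τ0).cycleType =
          (List.formPerm ([0, 1] : List (Fin 13)) * List.formPerm [2, 3, 4, 5, 6]).cycleType := by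
        rw [hc]
        exact (ct_two_cycles (n := 13) (l := [0, 1]) (l' := [2, 3, 4, 5, 6]) (by decide)
          (by decide) (by decide) (by decide) (by decide)).symm
      exact star_of_tab (m := 7) (by norm_num) Tb hA2 h0 h1 hs hct
    · have hct : (σ0⁻¹ * τ0).cycleType =
          (List.formPerm ([0, 1, 2] : List (Fin 13)) * List.formPerm [3, 4, 5, 6]).cycleType := by
        rw [hc]
        exact (ct_two_cycles (n := 13) (l := [0, 1, 2]) (l' := [3, 4, 5, 6]) (by decide)
          (by decide) (by decide) (by decide) (by decide)).symm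
      exact star_of_tab (m := 7) (by norm_num) Tc hA2 h0 h1 hs hct
    · have hct : (σ0⁻¹ * τ0).cycleType =
          (List.formPerm ([0, 1] : List (Fin 13)) * List.formPerm [2, 3] *
            List.formPerm [4, 5, 6]).cycleType := by
        rw [hc]
        exact (ct_three_cycles (n := 13) (l := [0, 1]) (l' := [2, 3]) (l'' := [4, 5, 6])
          (by decide) (by decide) (by decide) (by decide) (by decide) (by decide) (by decide)
          (by decide) (by decide)).symm
      exact star_of_tab (m := 7) (by norm_num) Td hA2 h0 h1 hs hct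

end Pool.JM.R4
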