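import Pool.Agent.Work.MP_46fa68_76.Std
import Pool.Agent.Work.MP_46fa68_76.EndStmt
import Pool.Agent.Results.MP_46fa68_co.DiagonalReduction

/-!
# MP_46fa68_co: the question from the pairs `(2 t + 1, t)` (helper76)
-/

set_option autoImplicit false

open Finset Equiv

namespace Pool.EG

/-- the form of the question for one pair -/
theorem iff_of_holds {n t : ℕ} (ht : t ≤ n) (h : Holds n t) (F : Finset (Perm (Fin n))) :
    ((∀ σ ∈ F, ∀ τ ∈ F, t ≤ (univ.filter (fun i : Fin n => σ i = τ i)).card) ∧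
      (∀ G : Finset (Perm (Fin n)),
        (∀ σ ∈ G, ∀ τ ∈ G, t ≤ (univ.filter (fun i : Fin n => σ i = τ i)).card) →
          G.card ≤ F.card)) ↔
    ∃ a b : Fin t → Fin n, Function.Injective a ∧ Function.Injective b ∧
      F = univ.filter (fun σ : Perm (Fin n) => ∀ k : Fin t, σ (a k) = b k) := by
  classical
  have hint : ∀ a b : Fin t → Fin n, Function.Injective a →
      ∀ σ ∈ univ.filter (fun σ : Perm (Fin n) => ∀ k : Fin t, σ (a k) = b k),
      ∀ τ ∈ univ.filter (fun σ : Perm (Fin n) => ∀ k : Fin t, σ (a k) = b k),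
      t ≤ (univ.filter (fun i : Fin n => σ i = τ i)).card := by
    intro a b ha σ hσ τ hτ
    have h1 : univ.image a ⊆ univ.filter (fun i : Fin n => σ i = τ i) := by
      intro i hi
      obtain ⟨k, _, rfl⟩ := mem_image.1 hi
      exact mem_filter.2 ⟨mem_univ _, by rw [(mem_filter.1 hσ).2 k, (mem_filter.1 hτ).2 k]⟩
    have h2 := card_le_card h1
    rwa [card_image_of_injective _ ha, card_univ, Fintype.card_fin] at h2
  constructor
  · rintro ⟨h1, h2⟩
    obtain ⟨h3, h4⟩ := h F h1
    apply h4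
    refine le_antisymm h3 ?_
    have h5 := Fin.castLE_injective ht
    have h6 := h2 _ (hint (Fin.castLE ht) (Fin.castLE ht) h5)
    rwa [Pool.JM.R4.card_star h5 h5] at h6
  · rintro ⟨a, b, ha, hb, rfl⟩
    refine ⟨hint a b ha, fun G hG => ?_⟩
    rw [Pool.JM.R4.card_star ha hb]
    exact (h G hG).1

theorem holds_zero (n : ℕ) : Holds n 0 := by
  intro A _
  have h1 : A.card ≤ (univ : Finset (Perm (Fin n))).card := card_le_card (subset_univ _)
  rw [card_univ, Fintype.card_perm, Fintype.card_fin] at h1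
  refine ⟨h1, fun h => ⟨Fin.elim0, Fin.elim0, fun a => a.elim0, fun a => a.elim0, ?_⟩⟩
  have h2 : A = univ := by
    apply eq_of_subset_of_card_le (subset_univ _)
    rw [card_univ, Fintype.card_perm, Fintype.card_fin, h]
    exact le_rfl
  rw [h2]
  ext σ
  rw [mem_filter]
  exact ⟨fun _ => ⟨mem_univ _, fun k => k.elim0⟩, fun _ => mem_univ _⟩

/-- **the question for all `n > 2 t`** from the last pair of each diagonal -/
theorem main_of_diag (h : ∀ t : ℕ, 1 ≤ t → Holds (2 * t + 1) t) :
    ∀ n t : ℕ, 2 * t < n →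
      ∀ F : Finset (Perm (Fin n)),
        ((∀ σ ∈ F, ∀ τ ∈ F, t ≤ (univ.filter (fun i : Fin n => σ i = τ i)).card) ∧
          (∀ G : Finset (Perm (Fin n)),
            (∀ σ ∈ G, ∀ τ ∈ G, t ≤ (univ.filter (fun i : Fin n => σ i = τ i)).card) →
              G.card ≤ F.card)) ↔
        ∃ a b : Fin t → Fin n, Function.Injective a ∧ Function.Injective b ∧
          F = univ.filter (fun σ : Perm (Fin n) => ∀ k : Fin t, σ (a k) = b k) := by
  intro n t htn F
  refine iff_of_holds (by omega) ?_ F
  rcases Nat.eq_zero_or_pos t with h0 | h0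
  · subst h0
    exact holds_zero n
  · have h1 := (Pool.Agent.Results.MP_46fa68_co.DiagonalReduction.result (n - t) (by omega)).2
    have h2 := h (n - t - 1) (by omega)
    rw [show 2 * (n - t - 1) + 1 = 2 * (n - t) - 1 by omega] at h2
    exact h1 h2 n t (by omega) htn

end Pool.EG
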