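import Pool.Agent.Work.MP_46fa68_76.EndH5

/-! # the diagonals `m = 8` and `m = 10` from the gaps of the marked certificates (helper76)

Numbers of the certificates `m8_15_7`, `m8_13_5`, `m10_19_9`, `m10_17_7`; the numbers of `m = 7` and `m = 9`
are in `HoldsOf.lean`. -/

set_option autoImplicit false

open Finset Equiv

namespace Pool.EG

/-- `m = 8`, marks -/
theorem holds15_marks (hG0 : Gap 15 7 1 (39 / 100) (838 / 1000))
    (hG2 : Gap 13 5 (676 / 1000) (24 / 100) (60 / 100))
    (hGs : Gap 13 5 (77 / 100) (20 / 100) (55 / 100))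
    (hLink : Link 7) (hK : ∀ n' t' : ℕ, 2 * t' + 3 ≤ n' → Holds n' t') : Holds 15 7 := by
  have e : (2 * (838 / 1000) - 1 : ℝ) = 676 / 1000 := by norm_num
  exact holds_of_gaps (t := 7) (β0 := 39 / 100) (p0 := 838 / 1000) (β2 := 24 / 100)
    (p2 := 60 / 100) (θs := 77 / 100) (βs := 20 / 100) (ps := 55 / 100)
    (by constructor <;> (try unfold phi) <;> norm_num) (by norm_num) (by norm_num) hG0
    (by rw [e]; exact hG2) hGs (yAny_top (by norm_num) (by unfold YTop; norm_num)) hLink hK

/-- `m = 10`, marks -/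
theorem holds19_marks (hG0 : Gap 19 9 1 (30 / 100) (85 / 100))
    (hG2 : Gap 17 7 (70 / 100) (17 / 100) (50 / 100))
    (hGs : Gap 17 7 (84 / 100) (15 / 100) (40 / 100))
    (hLink : Link 9) (hK : ∀ n' t' : ℕ, 2 * t' + 3 ≤ n' → Holds n' t') : Holds 19 9 := by
  have e : (2 * (85 / 100) - 1 : ℝ) = 70 / 100 := by norm_num
  exact holds_of_gaps (t := 9) (β0 := 30 / 100) (p0 := 85 / 100) (β2 := 17 / 100)
    (p2 := 50 / 100) (θs := 84 / 100) (βs := 15 / 100) (ps := 40 / 100)
    (by constructor <;> (try unfold phi) <;> norm_num) (by norm_num) (by norm_num) hG0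
    (by rw [e]; exact hG2) hGs (yAny_top (by norm_num) (by unfold YTop; norm_num)) hLink hK

end Pool.EG
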