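import Pool.Agent.Work.MP_46fa68_76.EndA

/-! # counting permutations which avoid one or two partial permutations (helper76, for helper74's DS lemma), 1 -/

set_option autoImplicit false

open Finset Equiv

namespace Pool.EG

variable {n : ℕ}

/-- number of permutations of `M` points avoiding `r` cells of a partial permutation -/
def DD (M r : ℕ) : ℤ := ∑ j ∈ range (r + 1), (-1) ^ j * (r.choose j : ℤ) * ((M - j).factorial : ℤ)

theorem alt_choose {k r : ℕ} (h : k ≤ r) :
    ∑ j ∈ range (r + 1), (-1 : ℤ) ^ j * (k.choose j : ℤ) = if k = 0 then 1 else 0 := by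
  rw [← Int.alternating_sum_range_choose (n := k)]
  symm
  apply sum_subset (range_subset_range.2 (by omega))
  intro j _ hj
  rw [mem_range, not_lt] at hj
  rw [Nat.choose_eq_zero_of_lt (by omega)]
  simp

/-- **exact count** -/
theorem avoid_eq {g s : Perm (Fin n)} {T R : Finset (Fin n)} (hTR : Disjoint T R)
    (hc : ∀ i ∈ R, ∀ j ∈ T, s i ≠ g j) :
    (((star g T).filter (fun σ => ∀ i ∈ R, σ i ≠ s i)).card : ℤ) = DD (n - T.card) R.card := by
  classical
  have h1 : ∀ σ ∈ star g T, (if ∀ i ∈ R, σ i ≠ s i then (1 : ℤ) else 0) =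
      ∑ j ∈ range (R.card + 1), (-1 : ℤ) ^ j *
        (((R.filter (fun i => σ i = s i)).card.choose j : ℕ) : ℤ) := by
    intro σ _
    rw [alt_choose (card_filter_le _ _)]
    congr 1
    rw [card_eq_zero, filter_eq_empty_iff]
  rw [card_filter]
  push_cast
  rw [sum_congr rfl h1, sum_comm]
  unfold DD
  refine sum_congr rfl fun j _ => ?_
  rw [← mul_sum]
  have h2 := sum_choose hTR hc j
  have h3 : (∑ σ ∈ star g T, (((R.filter (fun i => σ i = s i)).card.choose j : ℕ) : ℤ)) =
      (R.card.choose j : ℤ) * ((n - (T.card + j)).factorial : ℤ) := by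
    exact_mod_cast h2
  rw [h3, Nat.sub_sub]
  ring

theorem DD_succ (M r : ℕ) : DD M (r + 1) = DD M r - DD (M - 1) r := by
  have e1 : DD M (r + 1) = ∑ j ∈ range (r + 1), (-1 : ℤ) ^ (j + 1) * ((r + 1).choose (j + 1) : ℤ) *
      ((M - (j + 1)).factorial : ℤ) + (M.factorial : ℤ) := by
    unfold DD
    rw [sum_range_succ' _ (r + 1)]
    simp
  have e2 : DD M r = ∑ j ∈ range r, (-1 : ℤ) ^ (j + 1) * (r.choose (j + 1) : ℤ) *
      ((M - (j + 1)).factorial : ℤ) + (M.factorial : ℤ) := by
    unfold DD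
    rw [sum_range_succ' _ r]
    simp
  have e3 : DD (M - 1) r = ∑ j ∈ range (r + 1), (-1 : ℤ) ^ j * (r.choose j : ℤ) *
      ((M - 1 - j).factorial : ℤ) := rfl
  rw [e1, e2, e3]
  have h1 : ∀ j ∈ range (r + 1), (-1 : ℤ) ^ (j + 1) * ((r + 1).choose (j + 1) : ℤ) *
      ((M - (j + 1)).factorial : ℤ) =
      (-1 : ℤ) ^ (j + 1) * (r.choose (j + 1) : ℤ) * ((M - (j + 1)).factorial : ℤ) -
        (-1) ^ j * (r.choose j : ℤ) * ((M - 1 - j).factorial : ℤ) := by
    intro j _
    rw [Nat.choose_succ_succ, show M - 1 - j = M - (j + 1) by omega]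
    push_cast
    ring
  rw [sum_congr rfl h1, sum_sub_distrib, sum_range_succ (fun j => (-1 : ℤ) ^ (j + 1) *
    (r.choose (j + 1) : ℤ) * ((M - (j + 1)).factorial : ℤ)) r, Nat.choose_succ_self]
  push_cast
  ring

theorem DD_nonneg {M r : ℕ} (h : r ≤ M) : 0 ≤ DD M r := by
  classical
  obtain ⟨R, hR⟩ : ∃ R : Finset (Fin M), R.card = r := by
    obtain ⟨R, _, hR⟩ := exists_subset_card_eq (s := (univ : Finset (Fin M)))
      (show r ≤ (univ : Finset (Fin M)).card by rw [card_univ, Fintype.card_fin]; exact h)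
    exact ⟨R, hR⟩
  have h1 := avoid_eq (g := (1 : Perm (Fin M))) (s := 1) (T := ∅) (R := R)
    (disjoint_empty_left _) (fun i _ j hj => absurd hj (notMem_empty j))
  rw [card_empty, Nat.sub_zero, hR] at h1
  rw [← h1]
  exact Int.natCast_nonneg _

theorem DD_anti {M r : ℕ} (d : ℕ) (h : r + d ≤ M) : DD M (r + d) ≤ DD M r := by
  induction d with
  | zero => exact le_rfl
  | succ d ih =>
    rw [show r + (d + 1) = r + d + 1 by omega, DD_succ]
    have h1 := ih (by omega)
    have h2 := DD_nonneg (M := M - 1) (r := r + d) (by omega)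
    omega

theorem DD_le {M l l' : ℕ} (h : l ≤ l') (h' : l' ≤ M) : DD M l' ≤ DD M l := by
  obtain ⟨d, rfl⟩ := Nat.exists_eq_add_of_le h
  exact DD_anti d h'

/-- (P2), lower bound -/
theorem DD_lower {M l : ℕ} (d : ℕ) (h : l + d ≤ M) :
    DD M l - d * DD (M - 1) l ≤ DD M (l + d) := by
  induction d with
  | zero => simp
  | succ d ih =>
    rw [show l + (d + 1) = l + d + 1 by omega, DD_succ]
    have h1 := ih (by omega)
    have h2 := DD_anti (M := M - 1) (r := l) d (by omega)
    push_cast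
    nlinarith

/-- (P2), upper bound -/
theorem DD_upper {M l L : ℕ} (d : ℕ) (h : l + d ≤ L + 1) (hL : L + 1 ≤ M) :
    DD M (l + d) ≤ DD M l - d * DD (M - 1) L := by
  induction d with
  | zero => simp
  | succ d ih =>
    rw [show l + (d + 1) = l + d + 1 by omega, DD_succ]
    have h1 := ih (by omega)
    have h2 : DD (M - 1) L ≤ DD (M - 1) (l + d) := DD_le (by omega) (by omega)
    push_cast
    nlinarith

/-! ### subsets of size `k` -/

theorem card_superset {α : Type*} [DecidableEq α] {R U : Finset α} (hU : U ⊆ R) {k : ℕ}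
    (hk : U.card ≤ k) :
    ((R.powersetCard k).filter (fun S => U ⊆ S)).card = (R.card - U.card).choose (k - U.card) := by
  rw [← card_sdiff_of_subset hU, ← card_powersetCard]
  refine card_bij' (fun S _ => S \ U) (fun S _ => S ∪ U) ?_ ?_ ?_ ?_
  · intro S hS
    obtain ⟨h1, h2⟩ := mem_filter.1 hS
    obtain ⟨h3, h4⟩ := mem_powersetCard.1 h1
    exact mem_powersetCard.2 ⟨sdiff_subset_sdiff h3 (Subset.refl _), by
      rw [card_sdiff_of_subset h2, h4]⟩
  · intro S hS
    obtain ⟨h3, h4⟩ := mem_powersetCard.1 hS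
    have hd : Disjoint S U := by
      rw [disjoint_left]
      intro x hx hxU
      exact (mem_sdiff.1 (h3 hx)).2 hxU
    refine mem_filter.2 ⟨mem_powersetCard.2 ⟨union_subset (h3.trans sdiff_subset) hU, ?_⟩,
      subset_union_right⟩
    rw [card_union_of_disjoint hd, h4]
    omega
  · intro S hS
    exact sdiff_union_of_subset (mem_filter.1 hS).2
  · intro S hS
    obtain ⟨h3, _⟩ := mem_powersetCard.1 hS
    ext x
    rw [mem_sdiff, mem_union]
    constructor
    · rintro ⟨h | h, h'⟩
      · exact h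
      · exact absurd h h'
    · intro hx
      exact ⟨Or.inl hx, (mem_sdiff.1 (h3 hx)).2⟩

/-- sums over subsets of size `k`, one point -/
theorem sum_sub_one {α : Type*} [DecidableEq α] {R : Finset α} {k : ℕ} (hk : 1 ≤ k) (f : α → ℤ) :
    ∑ S ∈ R.powersetCard k, ∑ x ∈ S, f x = (∑ x ∈ R, f x) * ((R.card - 1).choose (k - 1) : ℤ) := by
  have h1 : ∀ S ∈ R.powersetCard k, ∑ x ∈ S, f x = ∑ x ∈ R, if x ∈ S then f x else 0 := by
    intro S hS
    rw [sum_ite_mem, inter_eq_right.2 (mem_powersetCard.1 hS).1]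
  rw [sum_congr rfl h1, sum_comm, sum_mul]
  refine sum_congr rfl fun x hx => ?_
  have h2 := card_superset (R := R) (U := {x}) (singleton_subset_iff.2 hx) (k := k)
    (by rw [card_singleton]; exact hk)
  rw [card_singleton] at h2
  rw [← h2, card_filter]
  push_cast
  rw [mul_sum]
  refine sum_congr rfl fun S _ => ?_
  by_cases h4 : x ∈ S
  · rw [if_pos h4, if_pos (singleton_subset_iff.2 h4), mul_one]
  · rw [if_neg h4, if_neg (fun h => h4 (singleton_subset_iff.1 h)), mul_zero]

/-- sums over subsets of size `k`, two different points -/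
theorem sum_sub_two {α : Type*} [DecidableEq α] {R : Finset α} {k : ℕ} (hk : 2 ≤ k)
    (f : α → α → ℤ) (hf : ∀ x, f x x = 0) :
    ∑ S ∈ R.powersetCard k, ∑ x ∈ S, ∑ y ∈ S, f x y =
      (∑ x ∈ R, ∑ y ∈ R, f x y) * ((R.card - 2).choose (k - 2) : ℤ) := by
  have h1 : ∀ S ∈ R.powersetCard k, ∑ x ∈ S, ∑ y ∈ S, f x y =
      ∑ x ∈ R, ∑ y ∈ R, if x ∈ S ∧ y ∈ S then f x y else 0 := by
    intro S hS
    have hS' := (mem_powersetCard.1 hS).1
    have h2 : ∀ x ∈ R, (∑ y ∈ R, if x ∈ S ∧ y ∈ S then f x y else 0) =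
        if x ∈ S then ∑ y ∈ S, f x y else 0 := by
      intro x _
      by_cases hx : x ∈ S
      · rw [if_pos hx]
        have h3 : ∀ y ∈ R, (if x ∈ S ∧ y ∈ S then f x y else 0) = if y ∈ S then f x y else 0 := by
          intro y _
          simp [hx]
        rw [sum_congr rfl h3, sum_ite_mem, inter_eq_right.2 hS']
      · rw [if_neg hx]
        apply sum_eq_zero
        intro y _
        rw [if_neg (fun h => hx h.1)]
    rw [sum_congr rfl h2, sum_ite_mem, inter_eq_right.2 hS']
  rw [sum_congr rfl h1, sum_comm, sum_mul]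
  refine sum_congr rfl fun x hx => ?_
  rw [sum_comm, sum_mul]
  refine sum_congr rfl fun y hy => ?_
  by_cases hxy : x = y
  · subst hxy
    rw [hf, zero_mul]
    apply sum_eq_zero
    intro S _
    split_ifs <;> rfl
  · have h2 := card_superset (R := R) (U := {x, y}) (by
      intro z hz
      rw [mem_insert, mem_singleton] at hz
      rcases hz with rfl | rfl
      · exact hx
      · exact hy) (k := k) (by rw [card_pair hxy]; exact hk)
    rw [card_pair hxy] at h2
    rw [← h2, card_filter]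
    push_cast
    rw [mul_sum]
    refine sum_congr rfl fun S _ => ?_
    have h3 : ({x, y} ⊆ S) ↔ (x ∈ S ∧ y ∈ S) := by
      rw [insert_subset_iff, singleton_subset_iff]
    by_cases h4 : x ∈ S ∧ y ∈ S
    · rw [if_pos h4, if_pos (h3.2 h4), mul_one]
    · rw [if_neg h4, if_neg (fun h => h4 (h3.1 h)), mul_zero]

end Pool.EG
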