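import Pool.Agent.Work.MP_46fa68_76.FinalAll
import Pool.Agent.Work.MP_46fa68_76.Final35
import Pool.Agent.Work.MP_46fa68_76.Final79
import Pool.Agent.Work.MP_46fa68_76.Final11

/-!
# MP_46fa68_co: the question from `Holds (2 t + 1) t` for `t ≥ 6` (helper76)
-/

set_option autoImplicit false

open Finset Equiv

namespace Pool.EG

/-- the diagonals `m ≤ 6` are done -/
theorem holds_le5 (t : ℕ) (h1 : 1 ≤ t) (h5 : t ≤ 5) : Holds (2 * t + 1) t := by
  interval_cases t
  · exact Pool.JM.R4.holds3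
  · exact Pool.JM.R4.holds5
  · exact Pool.JM.R4.holds7
  · exact Pool.JM.R4.holds9
  · exact Pool.JM.R4.holds11

/-- **the question** from the pairs `(2 t + 1, t)` with `t ≥ 6` -/
theorem main_of_six (h : ∀ t : ℕ, 6 ≤ t → Holds (2 * t + 1) t) :
    ∀ n t : ℕ, 2 * t < n →
      ∀ F : Finset (Perm (Fin n)),
        ((∀ σ ∈ F, ∀ τ ∈ F, t ≤ (univ.filter (fun i : Fin n => σ i = τ i)).card) ∧
          (∀ G : Finset (Perm (Fin n)),
            (∀ σ ∈ G, ∀ τ ∈ G, t ≤ (univ.filter (fun i : Fin n => σ i = τ i)).card) →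
              G.card ≤ F.card)) ↔
        ∃ a b : Fin t → Fin n, Function.Injective a ∧ Function.Injective b ∧
          F = univ.filter (fun σ : Perm (Fin n) => ∀ k : Fin t, σ (a k) = b k) := by
  refine main_of_diag fun t ht => ?_
  rcases Nat.lt_or_ge t 6 with h6 | h6
  · exact holds_le5 t ht (by omega)
  · exact h t h6

end Pool.EG
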