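import Pool.Agent.Work.MP_46fa68_17.Fast

/-!
# MP_46fa68_co: standard position of a pair, from tables of common neighbourhoods to Q1 for one pair

helper76, on top of helper17 (`Pool.Col46`).
-/

set_option autoImplicit false

open Finset Equiv Pool.Col46

namespace Pool.JM.R4

variable {n : ℕ}

/-- Q1 for one pair `(n, t)` -/
def Holds (n t : ℕ) : Prop :=
  ∀ A : Finset (Equiv.Perm (Fin n)),
    (∀ σ ∈ A, ∀ τ ∈ A, t ≤ (univ.filter (fun i : Fin n => σ i = τ i)).card) →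
    A.card ≤ (n - t).factorial ∧
      (A.card = (n - t).factorial →
        ∃ a b : Fin t → Fin n, Function.Injective a ∧ Function.Injective b ∧
          A = univ.filter (fun σ : Equiv.Perm (Fin n) => ∀ k : Fin t, σ (a k) = b k))

/-- a permutation extending `a k ↦ b k` -/
theorem exists_perm {t : ℕ} {a b : Fin t → Fin n} (ha : Function.Injective a)
    (hb : Function.Injective b) : ∃ π : Perm (Fin n), ∀ k, π (a k) = b k := by
  classical
  let e : {x // x ∈ Set.range a} ≃ {x // x ∈ Set.range b} :=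
    (Equiv.ofInjective a ha).symm.trans (Equiv.ofInjective b hb)
  refine ⟨e.extendSubtype, fun k => ?_⟩
  rw [Equiv.extendSubtype_apply_of_mem e (a k) ⟨k, rfl⟩]
  have h1 : (Equiv.ofInjective a ha).symm ⟨a k, ⟨k, rfl⟩⟩ = k := by
    rw [Equiv.symm_apply_eq]
    rfl
  change ((Equiv.ofInjective b hb) ((Equiv.ofInjective a ha).symm ⟨a k, ⟨k, rfl⟩⟩) : Fin n) = b k
  rw [h1]
  rfl

/-- a star has `(n - t)!` members -/
theorem card_star {t : ℕ} {a b : Fin t → Fin n} (ha : Function.Injective a)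
    (hb : Function.Injective b) :
    (univ.filter (fun σ : Perm (Fin n) => ∀ k : Fin t, σ (a k) = b k)).card =
      (n - t).factorial := by
  classical
  obtain ⟨π, hπ⟩ := exists_perm ha hb
  have h1 : (univ.filter (fun σ : Perm (Fin n) => ∀ k : Fin t, σ (a k) = b k)).card =
      (univ.filter (fun σ : Perm (Fin n) => ∀ i, ¬ (i ∉ Set.range a) → σ i = i)).card := by
    refine card_bij' (fun σ _ => π⁻¹ * σ) (fun σ _ => π * σ) ?_ ?_ ?_ ?_
    · intro σ hσ
      rw [mem_filter] at hσ ⊢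
      refine ⟨mem_univ _, fun i hi => ?_⟩
      rw [not_not] at hi
      obtain ⟨k, rfl⟩ := hi
      rw [Perm.mul_apply, hσ.2 k, ← hπ k]
      exact π.symm_apply_apply _
    · intro σ hσ
      rw [mem_filter] at hσ ⊢
      refine ⟨mem_univ _, fun k => ?_⟩
      rw [Perm.mul_apply, hσ.2 (a k) (not_not.2 ⟨k, rfl⟩), hπ k]
    · intro σ _
      simp
    · intro σ _
      simp
  rw [h1]
  have h2 : (univ.filter (fun σ : Perm (Fin n) => ∀ i, ¬ (i ∉ Set.range a) → σ i = i)).card =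
      Fintype.card {σ : Perm (Fin n) // ∀ i, ¬ (i ∉ Set.range a) → σ i = i} :=
    (Fintype.card_subtype _).symm
  rw [h2, ← Fintype.card_congr (Equiv.Perm.subtypeEquivSubtypePerm (fun i => i ∉ Set.range a)),
    Fintype.card_perm]
  have h3 : Fintype.card {i // i ∉ Set.range a} = n - t := by
    rw [Fintype.card_subtype_compl, Fintype.card_fin]
    have h4 : Fintype.card {i // i ∈ Set.range a} = t := by
      rw [← Fintype.card_congr (Equiv.ofInjective a ha), Fintype.card_fin]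
    rw [h4]
  rw [h3]

/-- agreement and support -/
theorem ag_add_support (σ τ : Perm (Fin n)) : ag σ τ + (σ⁻¹ * τ).support.card = n := by
  have h1 : (univ.filter (fun i : Fin n => σ i = τ i)) = ((σ⁻¹ * τ).support)ᶜ := by
    ext i
    rw [mem_filter, mem_compl, Perm.mem_support, not_not, Perm.mul_apply, Perm.inv_eq_iff_eq]
    constructor
    · intro h; exact h.2.symm
    · intro h; exact ⟨mem_univ _, h.symm⟩
  have h2 := card_add_card_compl ((σ⁻¹ * τ).support)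
  rw [Fintype.card_fin] at h2
  unfold ag
  rw [h1]
  omega

/-- the family moved into standard position -/
def mv (γ σ0 : Perm (Fin n)) (A : Finset (Perm (Fin n))) : Finset (Perm (Fin n)) :=
  A.image fun σ => γ * (σ0⁻¹ * σ) * γ⁻¹

theorem card_mv (γ σ0 : Perm (Fin n)) (A : Finset (Perm (Fin n))) : (mv γ σ0 A).card = A.card := by
  apply card_image_of_injective
  intro σ τ h
  simpa using h

theorem fam_mv {t : ℕ} {A : Finset (Perm (Fin n))} (hA : ∀ σ ∈ A, ∀ τ ∈ A, t ≤ ag σ τ)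
    {σ0 τ0 rho : Perm (Fin n)} (h0 : σ0 ∈ A) (h1 : τ0 ∈ A)
    (hc : (σ0⁻¹ * τ0).cycleType = rho.cycleType) :
    ∃ γ : Perm (Fin n), Fam n t rho (mv γ σ0 A) := by
  obtain ⟨γ, hγ⟩ := isConj_iff.1 (Perm.isConj_iff_cycleType_eq.2 hc)
  refine ⟨γ, ?_, ?_, ?_⟩
  · exact mem_image.2 ⟨σ0, h0, by simp⟩
  · exact mem_image.2 ⟨τ0, h1, hγ⟩
  · intro σ hσ τ hτ
    obtain ⟨σ', hσ', rfl⟩ := mem_image.1 hσ
    obtain ⟨τ', hτ', rfl⟩ := mem_image.1 hτ
    rw [ag_mul_right, ag_mul_left, ag_mul_left]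
    exact hA σ' hσ' τ' hτ'

/-- bound from a table -/
theorem card_le_of {t B : ℕ} {rho : Perm (Fin n)}
    (hT : ∀ A : Finset (Perm (Fin n)), Fam n t rho A → A.card ≤ B)
    {A : Finset (Perm (Fin n))} (hA : ∀ σ ∈ A, ∀ τ ∈ A, t ≤ ag σ τ)
    {σ0 τ0 : Perm (Fin n)} (h0 : σ0 ∈ A) (h1 : τ0 ∈ A)
    (hc : (σ0⁻¹ * τ0).cycleType = rho.cycleType) : A.card ≤ B := by
  obtain ⟨γ, hγ⟩ := fam_mv hA h0 h1 hc
  rw [← card_mv γ σ0 A]
  exact hT _ hγ

/-- bound and uniqueness from a table -/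
theorem star_of_tab {m : ℕ} (hm : m ≤ n) {rho : Perm (Fin n)} (hT : Tab n m m.factorial rho)
    {A : Finset (Perm (Fin n))} (hA : ∀ σ ∈ A, ∀ τ ∈ A, n - m ≤ ag σ τ)
    {σ0 τ0 : Perm (Fin n)} (h0 : σ0 ∈ A) (h1 : τ0 ∈ A) (hs : (σ0⁻¹ * τ0).support.card = m)
    (hc : (σ0⁻¹ * τ0).cycleType = rho.cycleType) :
    A.card ≤ m.factorial ∧ (A.card = m.factorial →
      ∃ a b : Fin (n - m) → Fin n, Function.Injective a ∧ Function.Injective b ∧
          A = univ.filter (fun σ : Equiv.Perm (Fin n) => ∀ k : Fin (n - m), σ (a k) = b k)) := by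
  obtain ⟨γ, hγ⟩ := fam_mv hA h0 h1 hc
  obtain ⟨h2, h3⟩ := hT _ hγ
  rw [card_mv] at h2 h3
  refine ⟨h2, fun heq => ?_⟩
  have h4 := h3 heq
  have hsupp : rho.support.card = m := by
    rw [← hs, ← Perm.sum_cycleType, ← Perm.sum_cycleType, hc]
  have hcc : (rho.supportᶜ).card = n - m := by
    rw [card_compl, Fintype.card_fin, hsupp]
  set e := (rho.supportᶜ).orderEmbOfFin hcc with he
  have hinj : Function.Injective (fun k : Fin (n - m) => γ⁻¹ (e k)) :=
    (γ⁻¹).injective.comp e.injective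
  have hinj2 : Function.Injective (fun k : Fin (n - m) => σ0 (γ⁻¹ (e k))) :=
    σ0.injective.comp hinj
  refine ⟨fun k => γ⁻¹ (e k), fun k => σ0 (γ⁻¹ (e k)), hinj, hinj2, ?_⟩
  apply eq_of_subset_of_card_le
  · intro σ hσ
    rw [mem_filter]
    refine ⟨mem_univ _, fun k => ?_⟩
    have h5 : rho (e k) = e k := by
      have h6 : e k ∈ rho.supportᶜ := (rho.supportᶜ).orderEmbOfFin_mem hcc k
      rw [mem_compl, Perm.mem_support, not_not] at h6
      exact h6
    have h7 := h4 (γ * (σ0⁻¹ * σ) * γ⁻¹) (mem_image.2 ⟨σ, hσ, rfl⟩) (e k) h5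
    rw [Perm.mul_apply, Perm.mul_apply, ← Perm.eq_inv_iff_eq, Perm.mul_apply,
      Perm.inv_eq_iff_eq] at h7
    exact h7
  · rw [card_star hinj hinj2, heq, Nat.sub_sub_self hm]

/-! ### multisets with small sum -/

theorem ms0 {s : Multiset ℕ} (h2 : ∀ x ∈ s, 2 ≤ x) (h : s.sum = 0) : s = 0 := by
  rcases Multiset.empty_or_exists_mem s with h0 | ⟨a, ha⟩
  · exact h0
  · have := Multiset.le_sum_of_mem ha
    have := h2 a ha
    omega

theorem ms1 {s : Multiset ℕ} (h2 : ∀ x ∈ s, 2 ≤ x) (h : s.sum = 1) : False := by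
  rcases Multiset.empty_or_exists_mem s with h0 | ⟨a, ha⟩
  · rw [h0] at h; simp at h
  · have := Multiset.le_sum_of_mem ha
    have := h2 a ha
    omega

theorem ms_split {s : Multiset ℕ} (h2 : ∀ x ∈ s, 2 ≤ x) {d : ℕ} (h : s.sum = d) (hd : 0 < d) :
    ∃ a s', s = a ::ₘ s' ∧ 2 ≤ a ∧ a ≤ d ∧ (∀ x ∈ s', 2 ≤ x) ∧ s'.sum = d - a := by
  rcases Multiset.empty_or_exists_mem s with h0 | ⟨a, ha⟩
  · rw [h0] at h; simp at h; omega
  · obtain ⟨s', rfl⟩ := Multiset.exists_cons_of_mem ha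
    rw [Multiset.sum_cons] at h
    exact ⟨a, s', rfl, h2 a ha, by omega, fun x hx => h2 x (Multiset.mem_cons_of_mem hx), by omega⟩

theorem ms2 {s : Multiset ℕ} (h2 : ∀ x ∈ s, 2 ≤ x) (h : s.sum = 2) : s = {2} := by
  obtain ⟨a, s', rfl, ha, had, hx, hs⟩ := ms_split h2 h (by norm_num)
  obtain rfl : a = 2 := by omega
  rw [ms0 hx hs]; rfl

theorem ms3 {s : Multiset ℕ} (h2 : ∀ x ∈ s, 2 ≤ x) (h : s.sum = 3) : s = {3} := by
  obtain ⟨a, s', rfl, ha, had, hx, hs⟩ := ms_split h2 h (by norm_num)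
  interval_cases a
  · exact (ms1 hx hs).elim
  · rw [ms0 hx hs]; rfl

theorem ms4 {s : Multiset ℕ} (h2 : ∀ x ∈ s, 2 ≤ x) (h : s.sum = 4) : s = {4} ∨ s = {2, 2} := by
  obtain ⟨a, s', rfl, ha, had, hx, hs⟩ := ms_split h2 h (by norm_num)
  interval_cases a
  · right; rw [ms2 hx hs]; rfl
  · exact (ms1 hx hs).elim
  · left; rw [ms0 hx hs]; rfl

theorem ms5 {s : Multiset ℕ} (h2 : ∀ x ∈ s, 2 ≤ x) (h : s.sum = 5) : s = {5} ∨ s = {2, 3} := by
  obtain ⟨a, s', rfl, ha, had, hx, hs⟩ := ms_split h2 h (by norm_num)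
  interval_cases a
  · right; rw [ms3 hx hs]; rfl
  · right; rw [ms2 hx hs]; decide
  · exact (ms1 hx hs).elim
  · left; rw [ms0 hx hs]; rfl

theorem ms6 {s : Multiset ℕ} (h2 : ∀ x ∈ s, 2 ≤ x) (h : s.sum = 6) :
    s = {6} ∨ s = {2, 4} ∨ s = {3, 3} ∨ s = {2, 2, 2} := by
  obtain ⟨a, s', rfl, ha, had, hx, hs⟩ := ms_split h2 h (by norm_num)
  interval_cases a
  · rcases ms4 hx hs with h | h
    · right; left; rw [h]; rfl
    · right; right; right; rw [h]; rfl
  · rw [ms3 hx hs]; right; right; left; rfl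
  · rw [ms2 hx hs]; right; left; decide
  · exact (ms1 hx hs).elim
  · left; rw [ms0 hx hs]; rfl

/-- the parts of a cycle type are at least two -/
theorem ct_two (g : Perm (Fin n)) : ∀ x ∈ g.cycleType, 2 ≤ x := fun _ hx =>
  Perm.two_le_of_mem_cycleType hx

/-- cycle type of a cycle given by a list -/
theorem ct_cycle {l : List (Fin n)} (hl : l.Nodup) (hn : 2 ≤ l.length) :
    (List.formPerm l).cycleType = {l.length} := by
  rw [(List.isCycle_formPerm hl hn).cycleType, List.support_formPerm_of_nodup l hl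
    (by rintro x rfl; simp at hn), List.toFinset_card_of_nodup hl]

/-- cycle type of a product of two disjoint cycles -/
theorem ct_two_cycles {l l' : List (Fin n)} (hl : l.Nodup) (hn : 2 ≤ l.length) (hl' : l'.Nodup)
    (hn' : 2 ≤ l'.length) (hd : ∀ x ∈ l, x ∉ l') :
    (List.formPerm l * List.formPerm l').cycleType = {l.length, l'.length} := by
  have hdis : Perm.Disjoint (List.formPerm l) (List.formPerm l') :=
    (List.formPerm_disjoint_iff hl hl' hn hn').2 fun x hx hx' => hd x hx hx'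
  rw [hdis.cycleType_mul, ct_cycle hl hn, ct_cycle hl' hn']
  rfl

/-- a pair of minimal agreement -/
theorem exists_min {A : Finset (Perm (Fin n))} (hne : A.Nonempty) :
    ∃ σ0 ∈ A, ∃ τ0 ∈ A, ∀ σ ∈ A, ∀ τ ∈ A, ag σ0 τ0 ≤ ag σ τ := by
  obtain ⟨p, hp, hmin⟩ := (A ×ˢ A).exists_min_image (fun p => ag p.1 p.2) (hne.product hne)
  rw [mem_product] at hp
  exact ⟨p.1, hp.1, p.2, hp.2, fun σ hσ τ hτ => hmin (σ, τ) (mem_product.2 ⟨hσ, hτ⟩)⟩

end Pool.JM.R4
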