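import Pool.Agent.Work.MP_46fa68_76.Std

/-! # standard position: three cycles, and the common frame (helper76) -/

set_option autoImplicit false

open Finset Equiv Pool.Col46

namespace Pool.JM.R4

variable {n : ℕ}

/-- cycle type of a product of three disjoint cycles -/
theorem ct_three_cycles {l l' l'' : List (Fin n)} (hl : l.Nodup) (hn : 2 ≤ l.length)
    (hl' : l'.Nodup) (hn' : 2 ≤ l'.length) (hl'' : l''.Nodup) (hn'' : 2 ≤ l''.length)
    (hd : ∀ x ∈ l, x ∉ l') (hd' : ∀ x ∈ l, x ∉ l'') (hd'' : ∀ x ∈ l', x ∉ l'') :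
    (List.formPerm l * List.formPerm l' * List.formPerm l'').cycleType =
      {l.length, l'.length, l''.length} := by
  have h1 : Perm.Disjoint (List.formPerm l) (List.formPerm l'') :=
    (List.formPerm_disjoint_iff hl hl'' hn hn'').2 fun x hx hx' => hd' x hx hx'
  have h2 : Perm.Disjoint (List.formPerm l') (List.formPerm l'') :=
    (List.formPerm_disjoint_iff hl' hl'' hn' hn'').2 fun x hx hx' => hd'' x hx hx'
  have hdis : Perm.Disjoint (List.formPerm l * List.formPerm l') (List.formPerm l'') :=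
    h1.mul_left h2
  rw [hdis.cycleType_mul, ct_two_cycles hl hn hl' hn' hd, ct_cycle hl'' hn'']
  rfl

/-- the frame: from a pair of minimal agreement -/
theorem frame {t m : ℕ} (hm : n = m + t)
    (h : ∀ A : Finset (Perm (Fin n)), (∀ σ ∈ A, ∀ τ ∈ A, t ≤ ag σ τ) →
      ∀ σ0 ∈ A, ∀ τ0 ∈ A, (∀ σ ∈ A, ∀ τ ∈ A, ag σ0 τ0 ≤ ag σ τ) →
      2 ≤ (σ0⁻¹ * τ0).support.card → (σ0⁻¹ * τ0).support.card ≤ m →
      A.card ≤ m.factorial ∧ (A.card = m.factorial →
        ∃ a b : Fin t → Fin n, Function.Injective a ∧ Function.Injective b ∧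
          A = univ.filter (fun σ : Equiv.Perm (Fin n) => ∀ k : Fin t, σ (a k) = b k)))
    (hm2 : 2 ≤ m) : Holds n t := by
  intro A hA
  have hA' : ∀ σ ∈ A, ∀ τ ∈ A, t ≤ ag σ τ := hA
  have hnt : n - t = m := by omega
  rw [hnt]
  have hm1 : 1 < m.factorial := by
    calc 1 < 2 := by norm_num
      _ = Nat.factorial 2 := rfl
      _ ≤ m.factorial := Nat.factorial_le hm2
  rcases A.eq_empty_or_nonempty with h0 | hne
  · subst h0
    refine ⟨by simp, fun h => ?_⟩
    rw [card_empty] at h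
    omega
  obtain ⟨σ0, h0, τ0, h1, hmin⟩ := exists_min hne
  have hag := ag_add_support σ0 τ0
  have h3 := hA' σ0 h0 τ0 h1
  have hsum := Perm.sum_cycleType (σ0⁻¹ * τ0)
  have h2 := ct_two (σ0⁻¹ * τ0)
  rcases Nat.lt_or_ge (σ0⁻¹ * τ0).support.card 2 with hlt2 | hge2
  · have hagn : n ≤ ag σ0 τ0 := by
      rcases Nat.lt_or_ge (σ0⁻¹ * τ0).support.card 1 with h | h
      · omega
      · exact (ms1 h2 (by rw [hsum]; omega)).elim
    have h4 : A ⊆ {σ0} := by
      intro σ hσ
      rw [mem_singleton]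
      exact ag_eq_n _ _ (le_trans hagn (hmin σ hσ σ0 h0))
    have h5 : A.card ≤ 1 := (card_le_card h4).trans (by simp)
    exact ⟨by omega, fun h => by omega⟩
  · exact h A hA' σ0 h0 τ0 h1 hmin hge2 (by omega)

end Pool.JM.R4
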